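import Mathlib

/-!
# Products over `γ × γ` in general
-/

set_option autoImplicit false

namespace Pool.Agent.Lib.MP_018e2a_an.SPL

lemma prod_sq_gen {G : Type*} [CommMonoid G] (t : ℕ → ℕ → G) (b : ℕ → ℕ) (hb : StrictMono b)
    (n : ℕ) :
    ∏ i ∈ (Finset.range n).image b, ∏ j ∈ (Finset.range n).image b, t i j =
      (∏ s ∈ Finset.range n, t (b s) (b s)) *
        ∏ s ∈ Finset.range n, ∏ u ∈ Finset.range s, (t (b u) (b s) * t (b s) (b u)) := by
  have h1 : Set.InjOn b (Finset.range n : Set ℕ) := hb.injective.injOn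
  rw [Finset.prod_image h1]
  have h2 : ∀ i ∈ Finset.range n, ∏ j ∈ (Finset.range n).image b, t (b i) j =
      ∏ j ∈ Finset.range n, t (b i) (b j) := fun i _ => Finset.prod_image h1
  rw [Finset.prod_congr rfl h2]
  clear h1 h2
  induction n with
  | zero => simp
  | succ n ih =>
    have h3 : ∀ i ∈ Finset.range n, ∏ j ∈ Finset.range (n + 1), t (b i) (b j) =
        (∏ j ∈ Finset.range n, t (b i) (b j)) * t (b i) (b n) := fun i _ =>
      Finset.prod_range_succ _ n
    rw [Finset.prod_range_succ, Finset.prod_congr rfl h3, Finset.prod_mul_distrib, ih,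
      Finset.prod_range_succ (fun j => t (b n) (b j)) n,
      Finset.prod_range_succ (fun s => t (b s) (b s)) n,
      Finset.prod_range_succ (fun s => ∏ u ∈ Finset.range s, (t (b u) (b s) * t (b s) (b u))) n,
      Finset.prod_mul_distrib (s := Finset.range n) (f := fun u => t (b u) (b n))]
    generalize (∏ s ∈ Finset.range n, t (b s) (b s)) = x1
    generalize (∏ s ∈ Finset.range n, ∏ u ∈ Finset.range s, (t (b u) (b s) * t (b s) (b u))) = x2
    generalize (∏ u ∈ Finset.range n, t (b u) (b n)) = x3
    generalize (∏ u ∈ Finset.range n, t (b n) (b u)) = x4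
    generalize t (b n) (b n) = x5
    simp only [mul_comm, mul_left_comm]

lemma prod_DEF {G : Type*} [CommMonoid G] (D E F : ℕ → G) (n : ℕ) :
    ∏ s ∈ Finset.range n, D s * E s ^ (n - 1 - s) * F s ^ s =
      (∏ s ∈ Finset.range n, D s) *
        ∏ s ∈ Finset.range n, ∏ u ∈ Finset.range s, (E u * F s) := by
  induction n with
  | zero => simp
  | succ n ih =>
    have h4 : ∀ s ∈ Finset.range n, D s * E s ^ (n + 1 - 1 - s) * F s ^ s =
        (D s * E s ^ (n - 1 - s) * F s ^ s) * E s := by
      intro s hs
      have h5 : n + 1 - 1 - s = (n - 1 - s) + 1 := by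
        have := Finset.mem_range.mp hs
        omega
      rw [h5, pow_succ, ← mul_assoc (D s), mul_right_comm]
    have h6 : n + 1 - 1 - n = 0 := by omega
    rw [Finset.prod_range_succ, Finset.prod_congr rfl h4,
      Finset.prod_mul_distrib (f := fun s => D s * E s ^ (n - 1 - s) * F s ^ s), ih, h6, pow_zero,
      mul_one, Finset.prod_range_succ (fun s => D s) n,
      Finset.prod_range_succ (fun s => ∏ u ∈ Finset.range s, (E u * F s)) n,
      Finset.prod_mul_distrib (s := Finset.range n) (f := fun u => E u), Finset.prod_const,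
      Finset.card_range]
    generalize (∏ s ∈ Finset.range n, D s) = x1
    generalize (∏ s ∈ Finset.range n, ∏ u ∈ Finset.range s, (E u * F s)) = x2
    generalize (∏ i ∈ Finset.range n, E i) = x3
    generalize F n ^ n = x4
    generalize D n = x5
    simp only [mul_comm, mul_left_comm]

end Pool.Agent.Lib.MP_018e2a_an.SPL
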