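import Mathlib

/-!
# Comparison of two products of commuting isometries at a vector
-/

set_option autoImplicit false

namespace Pool.Agent.Lib.MP_018e2a_an.SPL

private theorem Cmp_mul {G H : Type*} [CommMonoid G] [NormedAddCommGroup H] [InnerProductSpace ℝ H]
    (U : G → (H →L[ℝ] H)) (hU : ∀ c g, ‖U c g‖ = ‖g‖) (hUm : ∀ c d g, U (c * d) g = U c (U d g))
    (f : H) (a b x y : G) :
    ‖U (a * x) f - U (b * y) f‖ ≤ ‖U a f - U b f‖ + ‖U x f - U y f‖ := by
  have h1 : U (a * x) f - U (b * y) f = U a (U x f - U y f) + U y (U a f - U b f) := by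
    rw [map_sub, map_sub, ← hUm, ← hUm, ← hUm, ← hUm, mul_comm y a, mul_comm y b]
    abel
  rw [h1, add_comm ‖U a f - U b f‖]
  refine (norm_add_le _ _).trans ?_
  rw [hU, hU]

private theorem Cmp_prod {G H : Type*} [CommMonoid G] [NormedAddCommGroup H] [InnerProductSpace ℝ H]
    (U : G → (H →L[ℝ] H)) (hU : ∀ c g, ‖U c g‖ = ‖g‖) (hUm : ∀ c d g, U (c * d) g = U c (U d g))
    (f : H) (x y : ℕ → G) (n : ℕ) :
    ‖U (∏ i ∈ Finset.range n, x i) f - U (∏ i ∈ Finset.range n, y i) f‖ ≤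
      ∑ i ∈ Finset.range n, ‖U (x i) f - U (y i) f‖ := by
  induction n with
  | zero => simp
  | succ n ih =>
    rw [Finset.prod_range_succ, Finset.prod_range_succ, Finset.sum_range_succ]
    exact (Cmp_mul U hU hUm f _ _ _ _).trans (by linarith)

lemma cmp {G H : Type*} [CommMonoid G] [NormedAddCommGroup H] [InnerProductSpace ℝ H]
    (U : G → (H →L[ℝ] H)) (hU : ∀ c g, ‖U c g‖ = ‖g‖) (hUm : ∀ c d g, U (c * d) g = U c (U d g))
    (f : H) (x y : ℕ → ℕ → G) (c : G) (n : ℕ) (d : ℝ) (hd : 0 ≤ d)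
    (h : ∀ s u, s < n → u < s → ‖U (x u s) f - U (y u s) f‖ ≤ d) :
    ‖U (c * ∏ s ∈ Finset.range n, ∏ u ∈ Finset.range s, x u s) f -
      U (c * ∏ s ∈ Finset.range n, ∏ u ∈ Finset.range s, y u s) f‖ ≤ (n : ℝ) ^ 2 * d := by
  rw [hUm, hUm, ← map_sub, hU]
  refine (Cmp_prod U hU hUm f _ _ n).trans ?_
  have h1 : ∀ s ∈ Finset.range n, ‖U (∏ u ∈ Finset.range s, x u s) f - U (∏ u ∈ Finset.range s, y u s) f‖ ≤
      (n : ℝ) * d := by
    intro s hs
    rw [Finset.mem_range] at hs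
    refine (Cmp_prod U hU hUm f _ _ s).trans ?_
    have h2 : ∑ u ∈ Finset.range s, ‖U (x u s) f - U (y u s) f‖ ≤ ∑ _u ∈ Finset.range s, d :=
      Finset.sum_le_sum fun u hu => h s u hs (Finset.mem_range.mp hu)
    refine h2.trans ?_
    rw [Finset.sum_const, Finset.card_range, nsmul_eq_mul]
    exact mul_le_mul_of_nonneg_right (by exact_mod_cast hs.le) hd
  refine (Finset.sum_le_sum h1).trans ?_
  rw [Finset.sum_const, Finset.card_range, nsmul_eq_mul]
  exact le_of_eq (by ring)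

end Pool.Agent.Lib.MP_018e2a_an.SPL
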