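import Mathlib
import Pool.Agent.Lib.MP_018e2a_an.TH.VdC

/-!
# Weak limits of operators along an ultrafilter
-/

set_option autoImplicit false

namespace Pool.Agent.Lib.MP_018e2a_an.SPL

open Filter Topology InnerProductSpace
open Pool.Agent.Lib.MP_018e2a_an.TH

section w

variable {M : Type*} {p : Ultrafilter M}
variable {H : Type*} [NormedAddCommGroup H] [InnerProductSpace ℝ H] [CompleteSpace H]

/-- `Z` is the weak limit of the operators `X m` along `p` -/
def IsW (p : Ultrafilter M) (X : M → (H →L[ℝ] H)) (Z : H →L[ℝ] H) : Prop :=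
  ∀ g k, Tendsto (fun m => ⟪X m g, k⟫_ℝ) p (𝓝 ⟪Z g, k⟫_ℝ)

lemma exists_isW (p : Ultrafilter M) (X : M → (H →L[ℝ] H)) (hX : ∀ m g, ‖X m g‖ ≤ ‖g‖) :
    ∃ Z : H →L[ℝ] H, IsW p X Z := by
  have h1 : ∀ g, ∃ z : H, ∀ k, Tendsto (fun m => ⟪X m g, k⟫_ℝ) p (𝓝 ⟪z, k⟫_ℝ) := fun g =>
    exists_wlim p (fun m => X m g) ‖g‖ (fun m => hX m g)
  choose z hz using h1
  have hu : ∀ (a b : H), (∀ k, ⟪a, k⟫_ℝ = ⟪b, k⟫_ℝ) → a = b := by
    intro a b h
    exact ext_inner_right ℝ h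
  let L : H →ₗ[ℝ] H :=
    { toFun := z
      map_add' := by
        intro g h
        refine hu _ _ fun k => ?_
        refine tendsto_nhds_unique (hz (g + h) k) ?_
        rw [inner_add_left]
        refine ((hz g k).add (hz h k)).congr ?_
        intro m
        rw [map_add, inner_add_left]
      map_smul' := by
        intro c g
        refine hu _ _ fun k => ?_
        refine tendsto_nhds_unique (hz (c • g) k) ?_
        rw [RingHom.id_apply, real_inner_smul_left]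
        refine ((hz g k).const_mul c).congr ?_
        intro m
        rw [map_smul, real_inner_smul_left] }
  have hb : ∀ g, ‖z g‖ ≤ 1 * ‖g‖ := by
    intro g
    rw [one_mul]
    have h2 : ⟪z g, z g⟫_ℝ ≤ ‖g‖ * ‖z g‖ := by
      refine le_of_tendsto (hz g (z g)) (Filter.univ_mem' fun m => ?_)
      exact (real_inner_le_norm _ _).trans (mul_le_mul_of_nonneg_right (hX m g) (norm_nonneg _))
    rw [real_inner_self_eq_norm_sq] at h2
    rcases (norm_nonneg (z g)).eq_or_lt with h3 | h3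
    · rw [← h3]; exact norm_nonneg _
    · rw [sq] at h2
      exact le_of_mul_le_mul_right h2 h3
  refine ⟨L.mkContinuous 1 hb, ?_⟩
  intro g k
  exact hz g k

lemma IsW.unique {X : M → (H →L[ℝ] H)} {Z Z' : H →L[ℝ] H} (h : IsW p X Z) (h' : IsW p X Z') :
    Z = Z' := by
  ext g
  exact ext_inner_right ℝ fun k => tendsto_nhds_unique (h g k) (h' g k)

lemma IsW.norm_le {X : M → (H →L[ℝ] H)} {Z : H →L[ℝ] H} (h : IsW p X Z)
    (hX : ∀ m g, ‖X m g‖ ≤ ‖g‖) (g : H) : ‖Z g‖ ≤ ‖g‖ := by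
  have h2 : ⟪Z g, Z g⟫_ℝ ≤ ‖g‖ * ‖Z g‖ := by
    refine le_of_tendsto (h g (Z g)) (Filter.univ_mem' fun m => ?_)
    exact (real_inner_le_norm _ _).trans (mul_le_mul_of_nonneg_right (hX m g) (norm_nonneg _))
  rw [real_inner_self_eq_norm_sq] at h2
  rcases (norm_nonneg (Z g)).eq_or_lt with h3 | h3
  · rw [← h3]; exact norm_nonneg _
  · rw [sq] at h2
    exact le_of_mul_le_mul_right h2 h3

lemma IsW.commute {X : M → (H →L[ℝ] H)} {Z Y : H →L[ℝ] H} (h : IsW p X Z)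
    (hX : ∀ m, Commute (X m) Y) : Commute Z Y := by
  show Z * Y = Y * Z
  ext g
  refine ext_inner_right ℝ fun k => ?_
  show ⟪Z (Y g), k⟫_ℝ = ⟪Y (Z g), k⟫_ℝ
  refine tendsto_nhds_unique (h (Y g) k) ?_
  rw [← ContinuousLinearMap.adjoint_inner_right Y]
  refine (h g _).congr ?_
  intro m
  rw [ContinuousLinearMap.adjoint_inner_right]
  have := congrArg (fun T : H →L[ℝ] H => T g) (hX m)
  exact congrArg (fun x => ⟪x, k⟫_ℝ) this.symm

/-- weak limits of isometries: norms of differences -/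
lemma IsW.norm_sub {X : M → (H →L[ℝ] H)} {Z : H →L[ℝ] H} (h : IsW p X Z)
    (hX : ∀ m g, ‖X m g‖ = ‖g‖) (y w : H) :
    Tendsto (fun m => ‖X m y - w‖ ^ 2) p (𝓝 (‖y‖ ^ 2 - 2 * ⟪Z y, w⟫_ℝ + ‖w‖ ^ 2)) := by
  have h1 := ((tendsto_const_nhds (x := ‖y‖ ^ 2) (f := (p : Filter M))).sub
    ((h y w).const_mul 2)).add (tendsto_const_nhds (x := ‖w‖ ^ 2))
  refine h1.congr ?_
  intro m
  rw [norm_sub_sq_real, hX]

end w

end Pool.Agent.Lib.MP_018e2a_an.SPL
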