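import Mathlib
import Pool.Agent.Lib.MP_018e2a_an.SPL.WLim

/-!
# From powers of a weak limit to finite products
-/

set_option autoImplicit false

namespace Pool.Agent.Lib.MP_018e2a_an.SPL

open Filter Topology InnerProductSpace
open Pool.Agent.Lib.MP_018e2a_an.TH

variable {H : Type*} [NormedAddCommGroup H] [InnerProductSpace ℝ H] [CompleteSpace H]

lemma extract {G : Type*} [CommMonoid G] (U : G → (H →L[ℝ] H)) (hU1 : ∀ g, U 1 g = g)
    (hUm : ∀ c d g, U (c * d) g = U c (U d g)) (v : ℕ → G) (P : H →L[ℝ] H)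
    (h : IsW (hyperfilter ℕ) (fun b => U (v b)) P) (j : ℕ) (f g : H) (c : ℝ)
    (hc : c < ⟪(P ^ j) g, f⟫_ℝ) (S : Finset ℕ) :
    ∃ γ : Finset ℕ, γ.card = j ∧ Disjoint γ S ∧ c < ⟪U (∏ b ∈ γ, v b) g, f⟫_ℝ := by
  induction j generalizing f S with
  | zero =>
    refine ⟨∅, rfl, Finset.disjoint_empty_left S, ?_⟩
    rw [Finset.prod_empty, hU1]
    simpa using hc
  | succ j ih =>
    have h1 : Tendsto (fun b => ⟪U (v b) ((P ^ j) g), f⟫_ℝ) (hyperfilter ℕ)
        (𝓝 ⟪P ((P ^ j) g), f⟫_ℝ) := h _ _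
    have h2 : c < ⟪P ((P ^ j) g), f⟫_ℝ := by
      have h3 : (P ^ (j + 1)) g = P ((P ^ j) g) := by
        rw [pow_succ']
        rfl
      rw [← h3]
      exact hc
    have h4 : ∀ᶠ b in (hyperfilter ℕ : Filter ℕ), c < ⟪U (v b) ((P ^ j) g), f⟫_ℝ :=
      h1.eventually (lt_mem_nhds h2)
    have h5 : ∀ᶠ b in (hyperfilter ℕ : Filter ℕ), b ∉ S := by
      have h6 : (↑S : Set ℕ)ᶜ ∈ (hyperfilter ℕ : Filter ℕ) :=
        hyperfilter_le_cofinite S.finite_toSet.compl_mem_cofinite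
      exact h6
    obtain ⟨b, hb, hbS⟩ := (h4.and h5).exists
    rw [← ContinuousLinearMap.adjoint_inner_right] at hb
    obtain ⟨γ, h7, h8, h9⟩ := ih _ hb (insert b S)
    have hbγ : b ∉ γ := by
      intro hbγ
      exact Finset.disjoint_left.mp h8 hbγ (Finset.mem_insert_self b S)
    refine ⟨insert b γ, ?_, ?_, ?_⟩
    · rw [Finset.card_insert_of_notMem hbγ, h7]
    · rw [Finset.disjoint_insert_left]
      exact ⟨hbS, h8.mono_right (Finset.subset_insert b S)⟩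
    · rw [Finset.prod_insert hbγ, hUm, ← ContinuousLinearMap.adjoint_inner_right]
      exact h9

end Pool.Agent.Lib.MP_018e2a_an.SPL
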