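import Mathlib
import Pool.Agent.Lib.MP_018e2a_an.SPL.WLim

/-!
# Idempotent contractions; idempotent ultrafilters on `ℕ`
-/

set_option autoImplicit false

namespace Pool.Agent.Lib.MP_018e2a_an.SPL

open Filter Topology InnerProductSpace
open Pool.Agent.Lib.MP_018e2a_an.TH

section proj

variable {H : Type*} [NormedAddCommGroup H] [InnerProductSpace ℝ H]

lemma orth_of_contraction (Q : H →L[ℝ] H) (hQ : ∀ g, ‖Q g‖ ≤ ‖g‖) (y z : H) (hy : Q y = y)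
    (hz : Q z = 0) : ⟪y, z⟫_ℝ = 0 := by
  have h1 : ∀ t : ℝ, 0 ≤ 2 * (t * ⟪y, z⟫_ℝ) + t ^ 2 * ‖z‖ ^ 2 := by
    intro t
    have h2 := hQ (y + t • z)
    rw [map_add, map_smul, hy, hz, smul_zero, add_zero] at h2
    have h3 : ‖y‖ ^ 2 ≤ ‖y + t • z‖ ^ 2 := pow_le_pow_left₀ (norm_nonneg _) h2 2
    rw [norm_add_sq_real, real_inner_smul_right, norm_smul, mul_pow, Real.norm_eq_abs,
      sq_abs] at h3
    linarith
  by_contra hne
  set a : ℝ := ⟪y, z⟫_ℝ with ha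
  have h4 := h1 (-(a / (‖z‖ ^ 2 + 1)))
  have hpos : 0 < ‖z‖ ^ 2 + 1 := by positivity
  have h5 : 2 * (-(a / (‖z‖ ^ 2 + 1)) * a) + (-(a / (‖z‖ ^ 2 + 1))) ^ 2 * ‖z‖ ^ 2 =
      -(a ^ 2 * (‖z‖ ^ 2 + 2)) / (‖z‖ ^ 2 + 1) ^ 2 := by
    field_simp
    ring
  rw [h5] at h4
  have h6 : 0 < a ^ 2 := by positivity
  have h7 : -(a ^ 2 * (‖z‖ ^ 2 + 2)) / (‖z‖ ^ 2 + 1) ^ 2 < 0 := by
    apply div_neg_of_neg_of_pos
    · have : 0 < a ^ 2 * (‖z‖ ^ 2 + 2) := by positivity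
      linarith
    · positivity
  linarith

/-- an idempotent contraction is a projection; the correlation with a fixed vector -/
lemma proj_ge (Q : H →L[ℝ] H) (hQ : ∀ g, ‖Q g‖ ≤ ‖g‖) (hQQ : Q * Q = Q) (o : H) (ho : Q o = o)
    (hn : ‖o‖ = 1) (f : H) : ⟪f, o⟫_ℝ ^ 2 ≤ ⟪Q f, f⟫_ℝ := by
  have h0 : Q (Q f) = Q f := congrArg (fun T : H →L[ℝ] H => T f) hQQ
  have h1 : Q (f - Q f) = 0 := by rw [map_sub, h0, sub_self]
  have h2 : ⟪Q f, f - Q f⟫_ℝ = 0 := orth_of_contraction Q hQ _ _ h0 h1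
  have h3 : ⟪o, f - Q f⟫_ℝ = 0 := orth_of_contraction Q hQ _ _ ho h1
  rw [inner_sub_right, real_inner_self_eq_norm_sq] at h2
  rw [inner_sub_right] at h3
  have h4 : ⟪f, o⟫_ℝ = ⟪o, Q f⟫_ℝ := by
    rw [real_inner_comm]
    linarith
  have h5 : |⟪o, Q f⟫_ℝ| ≤ ‖Q f‖ := by
    have := abs_real_inner_le_norm o (Q f)
    rwa [hn, one_mul] at this
  rw [h4, ← sq_abs]
  have h6 : |⟪o, Q f⟫_ℝ| ^ 2 ≤ ‖Q f‖ ^ 2 := pow_le_pow_left₀ (abs_nonneg _) h5 2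
  linarith

end proj

/-- an idempotent ultrafilter on `ℕ` containing the positive multiples of every `a ≥ 1` -/
lemma exists_idem : ∃ q : Ultrafilter ℕ, Idem q ∧
    ∀ a : ℕ, 1 ≤ a → ∀ᶠ n in (q : Filter ℕ), 0 < n ∧ a ∣ n := by
  obtain ⟨q, hq, hFS⟩ := Hindman.exists_idempotent_ultrafilter_le_FS
    (M := ℕ) (fun _ => 1)
  have hidem : Idem q := by
    intro Q hQ
    rw [← hq] at hQ
    exact (Ultrafilter.eventually_add q q Q).mp hQ
  refine ⟨q, hidem, ?_⟩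
  have hpos : ∀ᶠ n in (q : Filter ℕ), 0 < n := by
    refine hFS.mono fun m hm => ?_
    have hs : ∀ s : Stream' ℕ, (∀ i, 0 < s.get i) → ∀ m, Hindman.FS s m → 0 < m := by
      intro s hs m hm
      induction hm with
      | head' a => exact hs 0
      | tail' a m _ ih => exact ih fun i => hs (i + 1)
      | cons' a m _ ih => exact Nat.add_pos_left (hs 0) _
    exact hs _ (fun i => one_pos) m hm
  intro a ha
  have : NeZero a := ⟨by omega⟩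
  obtain ⟨r, hr⟩ := Ultrafilter.eq_pure_of_finite (q.map (fun n : ℕ => (n : ZMod a)))
  have h1 : ∀ᶠ n : ℕ in (q : Filter ℕ), ((n : ℕ) : ZMod a) = r := by
    have h2 : ∀ᶠ x in ((q.map (fun n : ℕ => (n : ZMod a)) : Ultrafilter (ZMod a)) :
        Filter (ZMod a)), x = r := by
      rw [hr]
      exact (Ultrafilter.mem_pure).mpr rfl
    exact h2
  have h3 : r = 0 := by
    have h4 := hidem _ h1
    obtain ⟨x, hx, hx'⟩ := (h1.and h4).exists
    obtain ⟨y, hy, hy'⟩ := (h1.and hx').exists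
    have h5 : ((x + y : ℕ) : ZMod a) = r := hy'
    rw [Nat.cast_add, hx, hy] at h5
    exact left_eq_add.mp h5.symm
  refine (hpos.and h1).mono fun n hn => ⟨hn.1, ?_⟩
  rw [h3] at hn
  exact (ZMod.natCast_eq_zero_iff n a).mp hn.2

end Pool.Agent.Lib.MP_018e2a_an.SPL
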