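import Mathlib
import Pool.Agent.Lib.MP_018e2a_an.SPL.WLim

/-!
# Weak limits `P m` of the powers `V b m` of commuting unitary operators
-/

set_option autoImplicit false
set_option linter.unusedSectionVars false

namespace Pool.Agent.Lib.MP_018e2a_an.SPL

open Filter Topology InnerProductSpace
open Pool.Agent.Lib.MP_018e2a_an.TH

variable {p : Ultrafilter ℕ}
variable {H : Type*} [NormedAddCommGroup H] [InnerProductSpace ℝ H] [CompleteSpace H]

/-- The `V b m` are commuting unitary operators and `P m` is the weak limit of `V b m` as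
`b → p`. -/
structure Fam {I : Type*} (p : Ultrafilter ℕ) (V : ℕ → I → (H →L[ℝ] H))
    (P : I → (H →L[ℝ] H)) : Prop where
  inner : ∀ b m g h, ⟪V b m g, V b m h⟫_ℝ = ⟪g, h⟫_ℝ
  unit : ∀ b m, V b m * star (V b m) = 1
  comm : ∀ b m c n, Commute (V b m) (V c n)
  w : ∀ m, IsW p (fun b => V b m) (P m)

lemma norm_eq_of_inner {X : H →L[ℝ] H} (h : ∀ g k, ⟪X g, X k⟫_ℝ = ⟪g, k⟫_ℝ) (g : H) :
    ‖X g‖ = ‖g‖ := by
  have h1 := h g g
  rw [real_inner_self_eq_norm_sq, real_inner_self_eq_norm_sq] at h1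
  exact (pow_left_inj₀ (norm_nonneg _) (norm_nonneg _) two_ne_zero).mp h1

lemma star_inner_left (X : H →L[ℝ] H) (g k : H) : ⟪(star X) g, k⟫_ℝ = ⟪g, X k⟫_ℝ := by
  rw [ContinuousLinearMap.star_eq_adjoint, ContinuousLinearMap.adjoint_inner_left]

lemma star_inner_right (X : H →L[ℝ] H) (g k : H) : ⟪g, (star X) k⟫_ℝ = ⟪X g, k⟫_ℝ := by
  rw [ContinuousLinearMap.star_eq_adjoint, ContinuousLinearMap.adjoint_inner_right]

lemma Commute.app {X Y : H →L[ℝ] H} (h : Commute X Y) (g : H) : X (Y g) = Y (X g) :=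
  congrArg (fun T : H →L[ℝ] H => T g) h

lemma norm_star_of_commute {X : H →L[ℝ] H} (h : Commute X (star X)) (g : H) :
    ‖(star X) g‖ = ‖X g‖ := by
  have h1 : ‖(star X) g‖ ^ 2 = ‖X g‖ ^ 2 := by
    rw [← real_inner_self_eq_norm_sq, ← real_inner_self_eq_norm_sq, star_inner_left,
      Commute.app h, star_inner_right]
  exact (pow_left_inj₀ (norm_nonneg _) (norm_nonneg _) two_ne_zero).mp h1

namespace Fam

variable {I : Type*} {V : ℕ → I → (H →L[ℝ] H)} {P : I → (H →L[ℝ] H)} (F : Fam p V P)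
include F

lemma norm (b : ℕ) (m : I) (g : H) : ‖V b m g‖ = ‖g‖ := norm_eq_of_inner (F.inner b m) g

lemma norm_star (b : ℕ) (m : I) (g : H) : ‖(star (V b m)) g‖ = ‖g‖ := by
  have h1 : ‖(star (V b m)) g‖ ^ 2 = ‖g‖ ^ 2 := by
    rw [← real_inner_self_eq_norm_sq, ← real_inner_self_eq_norm_sq, star_inner_left]
    have := congrArg (fun T : H →L[ℝ] H => T g) (F.unit b m)
    have h2 : V b m ((star (V b m)) g) = g := this
    rw [h2]
  exact (pow_left_inj₀ (norm_nonneg _) (norm_nonneg _) two_ne_zero).mp h1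

lemma unit' (b : ℕ) (m : I) : star (V b m) * V b m = 1 := by
  ext g
  refine ext_inner_right ℝ fun k => ?_
  show ⟪(star (V b m)) (V b m g), k⟫_ℝ = ⟪g, k⟫_ℝ
  rw [star_inner_left, F.inner]

lemma cVs (b : ℕ) (m : I) (c : ℕ) (n : I) : Commute (V b m) (star (V c n)) := by
  show V b m * star (V c n) = star (V c n) * V b m
  calc V b m * star (V c n) = (star (V c n) * V c n) * (V b m * star (V c n)) := by
        rw [F.unit', one_mul]
    _ = star (V c n) * (V c n * V b m) * star (V c n) := by simp only [mul_assoc]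
    _ = star (V c n) * (V b m * V c n) * star (V c n) := by rw [(F.comm c n b m).eq]
    _ = star (V c n) * V b m * (V c n * star (V c n)) := by simp only [mul_assoc]
    _ = star (V c n) * V b m := by rw [F.unit, mul_one]

lemma cPV (m : I) (b : ℕ) (n : I) : Commute (P m) (V b n) := (F.w m).commute fun c => F.comm c m b n

lemma cPVs (m : I) (b : ℕ) (n : I) : Commute (P m) (star (V b n)) :=
  (F.w m).commute fun c => F.cVs c m b n

lemma cPP (m l : I) : Commute (P m) (P l) := (F.w m).commute fun c => (F.cPV l c m).symm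

lemma cVPs (b : ℕ) (n m : I) : Commute (V b n) (star (P m)) :=
  commute_star_comm.mp (F.cPVs m b n).symm

lemma cPPs (m l : I) : Commute (P m) (star (P l)) :=
  (F.w m).commute fun c => F.cVPs c m l

lemma cPsPs (m l : I) : Commute (star (P m)) (star (P l)) :=
  commute_star_star.mpr (F.cPP m l)

lemma normP (m : I) (g : H) : ‖P m g‖ ≤ ‖g‖ :=
  (F.w m).norm_le (fun b g => (F.norm b m g).le) g

lemma normPs (m : I) (g : H) : ‖(star (P m)) g‖ = ‖P m g‖ :=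
  norm_star_of_commute (F.cPPs m m) g

lemma ws (m : I) : IsW p (fun b => star (V b m)) (star (P m)) := by
  intro g k
  rw [star_inner_left, real_inner_comm]
  refine (F.w m k g).congr ?_
  intro b
  rw [star_inner_left, real_inner_comm]

/-- `D n` does not increase under weak limits of commuting isometries -/
lemma D_mono {X : ℕ → (H →L[ℝ] H)} {Z : H →L[ℝ] H} (hX : ∀ b g, ‖X b g‖ = ‖g‖)
    (hZ : IsW p X Z) (n : I) (hc : ∀ b, Commute (X b) (P n)) (y : H) :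
    ‖Z y‖ ^ 2 - ‖P n (Z y)‖ ^ 2 ≤ ‖y‖ ^ 2 - ‖P n y‖ ^ 2 := by
  have h1 := hZ.norm_sub hX y (Z y)
  have h2 := hZ.norm_sub hX (P n y) (Z (P n y))
  rw [real_inner_self_eq_norm_sq] at h1 h2
  have h3 := le_of_tendsto_of_tendsto h2 h1 (Filter.univ_mem' fun b => by
    show ‖X b (P n y) - Z (P n y)‖ ^ 2 ≤ ‖X b y - Z y‖ ^ 2
    rw [Commute.app (hc b), Commute.app (hZ.commute hc), ← map_sub]
    exact pow_le_pow_left₀ (norm_nonneg _) (F.normP n _) 2)
  rw [Commute.app (hZ.commute hc)] at h3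
  linarith

lemma D_P (m n : I) (y : H) :
    ‖P m y‖ ^ 2 - ‖P n (P m y)‖ ^ 2 ≤ ‖y‖ ^ 2 - ‖P n y‖ ^ 2 :=
  F.D_mono (fun b => F.norm b m) (F.w m) n (fun b => (F.cPV n b m).symm) y

lemma D_Ps (m n : I) (y : H) :
    ‖(star (P m)) y‖ ^ 2 - ‖P n ((star (P m)) y)‖ ^ 2 ≤ ‖y‖ ^ 2 - ‖P n y‖ ^ 2 :=
  F.D_mono (fun b => F.norm_star b m) (F.ws m) n (fun b => (F.cPVs n b m).symm) y

lemma D_P_pow (m n : I) (j : ℕ) (y : H) :
    ‖(P m ^ j) y‖ ^ 2 - ‖P n ((P m ^ j) y)‖ ^ 2 ≤ ‖y‖ ^ 2 - ‖P n y‖ ^ 2 := by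
  induction j with
  | zero => simp
  | succ j ih =>
    refine le_trans ?_ ih
    rw [show P m ^ (j + 1) = P m * P m ^ j from pow_succ' _ _]
    exact F.D_P m n ((P m ^ j) y)

lemma D_Ps_pow (m n : I) (j : ℕ) (y : H) :
    ‖(star (P m) ^ j) y‖ ^ 2 - ‖P n ((star (P m) ^ j) y)‖ ^ 2 ≤ ‖y‖ ^ 2 - ‖P n y‖ ^ 2 := by
  induction j with
  | zero => simp
  | succ j ih =>
    refine le_trans ?_ ih
    rw [show star (P m) ^ (j + 1) = star (P m) * star (P m) ^ j from pow_succ' _ _]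
    exact F.D_Ps m n ((star (P m) ^ j) y)

/-- decay along powers -/
lemma decay (m : I) (J : ℕ) (y : H) :
    ((J : ℝ) + 1) * (‖(P m ^ J) y‖ ^ 2 - ‖P m ((P m ^ J) y)‖ ^ 2) ≤
      ‖y‖ ^ 2 - ‖(P m ^ (J + 1)) y‖ ^ 2 := by
  induction J with
  | zero => simp
  | succ J ih =>
    have h1 := F.D_P m m ((P m ^ J) y)
    have e : ∀ j, P m ((P m ^ j) y) = (P m ^ (j + 1)) y := by
      intro j
      rw [pow_succ']
      rfl
    rw [e] at ih h1 ⊢
    rw [e] at h1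
    have h2 : (0 : ℝ) ≤ (J : ℝ) + 1 := by positivity
    rw [Nat.cast_succ]
    nlinarith [mul_le_mul_of_nonneg_left h1 h2]

lemma decay' (m : I) (J : ℕ) (y : H) :
    ((J : ℝ) + 1) * (‖(star (P m) ^ J) y‖ ^ 2 - ‖P m ((star (P m) ^ J) y)‖ ^ 2) ≤
      ‖y‖ ^ 2 - ‖(star (P m) ^ (J + 1)) y‖ ^ 2 := by
  induction J with
  | zero => simp [F.normPs]
  | succ J ih =>
    have h1 := F.D_Ps m m ((star (P m) ^ J) y)
    have e : ∀ j, ‖P m ((star (P m) ^ j) y)‖ = ‖(star (P m) ^ (j + 1)) y‖ := by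
      intro j
      rw [← F.normPs, pow_succ']
      rfl
    have e' : (star (P m)) ((star (P m) ^ J) y) = (star (P m) ^ (J + 1)) y := by
      rw [pow_succ']
      rfl
    rw [e'] at h1
    rw [e] at ih h1 ⊢
    rw [e] at h1
    have h2 : (0 : ℝ) ≤ (J : ℝ) + 1 := by positivity
    rw [Nat.cast_succ]
    nlinarith [mul_le_mul_of_nonneg_left h1 h2]

/-- the key inequality: `V b k = V b n * V b d` -/
lemma D_le (n d k : I) (hk : ∀ b, V b k = V b n * V b d) (y : H) :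
    ‖y‖ ^ 2 - ‖P d y‖ ^ 2 ≤
      2 * (‖y‖ ^ 2 - ‖P k y‖ ^ 2) + 2 * (‖y‖ ^ 2 - ‖P n y‖ ^ 2) := by
  set w : H := P k y
  set c : H := (star (P n)) w with hc
  have h1 := (F.w d).norm_sub (fun b => F.norm b d) y c
  have h2 := (F.w k).norm_sub (fun b => F.norm b k) y w
  have h3 := (F.w n).norm_sub (fun b => F.norm b n) c w
  have h4 := le_of_tendsto_of_tendsto h1 ((h2.const_mul 2).add (h3.const_mul 2))
    (Filter.univ_mem' fun b => by
      show ‖V b d y - c‖ ^ 2 ≤ 2 * ‖V b k y - w‖ ^ 2 + 2 * ‖V b n c - w‖ ^ 2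
      have e1 : ‖V b d y - c‖ = ‖(V b k y - w) - (V b n c - w)‖ := by
        rw [← F.norm b n (V b d y - c), map_sub, hk]
        congr 1
        show V b n (V b d y) - V b n c = (V b n (V b d y) - w) - (V b n c - w)
        abel
      have e2 := norm_sub_le (V b k y - w) (V b n c - w)
      rw [← e1] at e2
      have e3 := norm_nonneg (V b d y - c)
      nlinarith [sq_nonneg (‖V b k y - w‖ - ‖V b n c - w‖)])
  have h5 : ⟪P n c, w⟫_ℝ = ‖c‖ ^ 2 := by
    rw [← star_inner_right, ← hc, real_inner_self_eq_norm_sq]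
  have h6 : ⟪P k y, w⟫_ℝ = ‖w‖ ^ 2 := real_inner_self_eq_norm_sq _
  have h7 : ‖c‖ = ‖P n w‖ := F.normPs n w
  have h8 := F.D_P k n y
  have h9 : 0 ≤ ‖P d y - c‖ ^ 2 := sq_nonneg _
  rw [norm_sub_sq_real] at h9
  rw [h5, h6] at h4
  change ‖w‖ ^ 2 - ‖P n w‖ ^ 2 ≤ _ at h8
  rw [h7] at h4 h9
  nlinarith

/-- `D` of the product `star (P n) ^ J * P k ^ L` -/
lemma D_prod (n d k : I) (hk : ∀ b, V b k = V b n * V b d) (J L : ℕ) (h : H) :
    ‖(star (P n) ^ J) ((P k ^ L) h)‖ ^ 2 - ‖P d ((star (P n) ^ J) ((P k ^ L) h))‖ ^ 2 ≤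
      2 * (‖h‖ ^ 2 / (L + 1)) + 2 * (‖h‖ ^ 2 / (J + 1)) := by
  set z : H := (P k ^ L) h with hz
  have hzn : ‖z‖ ^ 2 ≤ ‖h‖ ^ 2 := by
    have h0 : ∀ L : ℕ, ‖(P k ^ L) h‖ ≤ ‖h‖ := by
      intro L
      induction L with
      | zero => simp
      | succ L ih =>
        rw [show P k ^ (L + 1) = P k * P k ^ L from pow_succ' _ _]
        exact (F.normP k _).trans ih
    exact pow_le_pow_left₀ (norm_nonneg _) (h0 L) 2
  have h1 := F.D_le n d k hk ((star (P n) ^ J) z)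
  have h2 := F.D_Ps_pow n k J z
  have h3 := F.decay k L h
  have h4 := F.decay' n J z
  have hL : (0 : ℝ) < (L : ℝ) + 1 := by positivity
  have hJ : (0 : ℝ) < (J : ℝ) + 1 := by positivity
  have h5 : ‖z‖ ^ 2 - ‖P k z‖ ^ 2 ≤ ‖h‖ ^ 2 / (L + 1) := by
    rw [le_div_iff₀ hL]
    have := sq_nonneg ‖(P k ^ (L + 1)) h‖
    linarith
  have h6 : ‖(star (P n) ^ J) z‖ ^ 2 - ‖P n ((star (P n) ^ J) z)‖ ^ 2 ≤ ‖h‖ ^ 2 / (J + 1) := by
    rw [le_div_iff₀ hJ]
    have := sq_nonneg ‖(star (P n) ^ (J + 1)) z‖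
    linarith
  linarith

end Fam

end Pool.Agent.Lib.MP_018e2a_an.SPL
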