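import Mathlib
import Pool.Agent.Lib.MP_018e2a_an.SPL.Fam

/-!
# Orthogonal decompositions
-/

set_option autoImplicit false
set_option linter.unusedSectionVars false

namespace Pool.Agent.Lib.MP_018e2a_an.SPL

open Filter Topology InnerProductSpace
open Pool.Agent.Lib.MP_018e2a_an.TH

variable {H : Type*} [NormedAddCommGroup H] [InnerProductSpace ℝ H] [CompleteSpace H]

/-- decomposition along the common kernel of a family of operators -/
lemma exists_decomp {κ : Type*} (R : κ → (H →L[ℝ] H)) (g : H) :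
    ∃ y z : H, g = y + z ∧ (∀ i, R i y = 0) ∧ ∀ k, (∀ i, R i k = 0) → ⟪z, k⟫_ℝ = 0 := by
  let K : Submodule ℝ H := ⨅ i, LinearMap.ker (R i).toLinearMap
  have hK : ∀ k, k ∈ K ↔ ∀ i, R i k = 0 := by
    intro k
    simp only [K, Submodule.mem_iInf, LinearMap.mem_ker]
    rfl
  have hcl : IsClosed (K : Set H) := by
    have h1 : (K : Set H) = ⋂ i, {k : H | R i k = 0} := by
      ext k
      simp only [SetLike.mem_coe, hK, Set.mem_iInter, Set.mem_ofPred_eq]
    rw [h1]
    exact isClosed_iInter fun i => isClosed_eq (R i).continuous continuous_const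
  have : CompleteSpace K := hcl.completeSpace_coe
  obtain ⟨y, hy, z, hz, hyz⟩ := K.exists_add_mem_mem_orthogonal g
  refine ⟨y, z, hyz, (hK y).mp hy, ?_⟩
  intro k hk
  rw [real_inner_comm]
  exact hz k ((hK k).mpr hk)

/-- contractions tending strongly to zero on the ranges of self-adjoint operators `R i` tend to
zero on the orthogonal complement of their common kernel -/
lemma null_of_perp {ι κ : Type*} {l : Filter ι} (Z : ι → (H →L[ℝ] H))
    (hZ : ∀ i g, ‖Z i g‖ ≤ ‖g‖) (R : κ → (H →L[ℝ] H)) (hR : ∀ i, star (R i) = R i)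
    (h : ∀ j x, Tendsto (fun i => ‖Z i (R j x)‖) l (𝓝 0)) (g : H)
    (hg : ∀ k, (∀ j, R j k = 0) → ⟪g, k⟫_ℝ = 0) :
    Tendsto (fun i => ‖Z i g‖) l (𝓝 0) := by
  let K : Submodule ℝ H :=
    { carrier := {x | Tendsto (fun i => ‖Z i x‖) l (𝓝 0)}
      add_mem' := by
        intro x y hx hy
        have hx' : Tendsto (fun i => ‖Z i x‖) l (𝓝 0) := hx
        have hy' : Tendsto (fun i => ‖Z i y‖) l (𝓝 0) := hy
        have h1 := hx'.add hy'
        rw [add_zero] at h1
        refine squeeze_zero (fun i => norm_nonneg _) (fun i => ?_) h1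
        rw [map_add]
        exact norm_add_le _ _
      zero_mem' := by
        show Tendsto (fun i => ‖Z i 0‖) l (𝓝 0)
        simp only [map_zero, norm_zero]
        exact tendsto_const_nhds
      smul_mem' := by
        intro c x hx
        have hx' : Tendsto (fun i => ‖Z i x‖) l (𝓝 0) := hx
        have h1 := hx'.const_mul ‖c‖
        rw [mul_zero] at h1
        refine h1.congr fun i => ?_
        rw [map_smul, norm_smul] }
  have hK : ∀ x, x ∈ K ↔ Tendsto (fun i => ‖Z i x‖) l (𝓝 0) := fun x => Iff.rfl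
  have hcl : IsClosed (K : Set H) := by
    refine isClosed_of_closure_subset ?_
    intro x hx
    rw [SetLike.mem_coe, hK, Metric.tendsto_nhds]
    intro ε hε
    obtain ⟨y, hy, hxy⟩ := Metric.mem_closure_iff.mp hx (ε / 2) (half_pos hε)
    have hy' : Tendsto (fun i => ‖Z i y‖) l (𝓝 0) := hy
    filter_upwards [Metric.tendsto_nhds.mp hy' (ε / 2) (half_pos hε)] with i hi
    rw [Real.dist_0_eq_abs, abs_norm] at hi ⊢
    have h1 : Z i x = Z i y + Z i (x - y) := by
      rw [map_sub]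
      abel
    rw [h1]
    rw [dist_eq_norm] at hxy
    have h2 := norm_add_le (Z i y) (Z i (x - y))
    have h3 := hZ i (x - y)
    linarith
  have : CompleteSpace K := hcl.completeSpace_coe
  obtain ⟨y, hy, z, hz, hyz⟩ := K.exists_add_mem_mem_orthogonal g
  have h1 : ∀ j, R j z = 0 := by
    intro j
    refine ext_inner_right ℝ fun x => ?_
    rw [inner_zero_left]
    have h2 : ⟪R j x, z⟫_ℝ = 0 := hz (R j x) (h j x)
    rw [← hR j, star_inner_left, real_inner_comm]
    exact h2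
  have h2 := hg z h1
  have h3 : ⟪y, z⟫_ℝ = 0 := hz y hy
  rw [hyz, inner_add_left, h3, zero_add, real_inner_self_eq_norm_sq] at h2
  have h4 : z = 0 := by
    have : ‖z‖ = 0 := by nlinarith [norm_nonneg z]
    exact norm_eq_zero.mp this
  rw [hyz, h4, add_zero]
  exact hy

/-- operator power of a commuting pair -/
lemma pow_app_comm {X Y : H →L[ℝ] H} (h : Commute X Y) (j : ℕ) (g : H) :
    (X ^ j) (Y g) = Y ((X ^ j) g) := Commute.app (h.pow_left j) g

lemma norm_pow_le {X : H →L[ℝ] H} (h : ∀ g, ‖X g‖ ≤ ‖g‖) (j : ℕ) (g : H) :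
    ‖(X ^ j) g‖ ≤ ‖g‖ := by
  induction j with
  | zero => simp
  | succ j ih =>
    rw [show X ^ (j + 1) = X * X ^ j from pow_succ' _ _]
    exact (h _).trans ih

/-- `A` is isometric at `g` -/
def Iso (A : H →L[ℝ] H) (g : H) : Prop := (star A) (A g) = g

lemma Iso.inner {A : H →L[ℝ] H} {g : H} (h : Iso A g) (u : H) : ⟪A u, A g⟫_ℝ = ⟪u, g⟫_ℝ := by
  rw [← star_inner_right, h]

lemma Iso.norm {A : H →L[ℝ] H} {g : H} (h : Iso A g) : ‖A g‖ = ‖g‖ := by
  have h1 := h.inner g
  rw [real_inner_self_eq_norm_sq, real_inner_self_eq_norm_sq] at h1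
  exact (pow_left_inj₀ (norm_nonneg _) (norm_nonneg _) two_ne_zero).mp h1

lemma Iso.map {A B : H →L[ℝ] H} {g : H} (h : Iso A g) (h1 : Commute A B)
    (h2 : Commute (star A) B) : Iso A (B g) := by
  show (star A) (A (B g)) = B g
  rw [Commute.app h1, Commute.app h2, h]

lemma Iso.pow_self {A : H →L[ℝ] H} {g : H} (h : Iso A g) (hA : Commute A (star A)) (j : ℕ) :
    Iso A ((A ^ j) g) := h.map ((Commute.refl A).pow_right j) (hA.symm.pow_right j)

lemma Iso.inner_pow {A : H →L[ℝ] H} {g : H} (h : Iso A g) (hA : Commute A (star A)) (j : ℕ)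
    (u : H) : ⟪(A ^ j) u, (A ^ j) g⟫_ℝ = ⟪u, g⟫_ℝ := by
  induction j with
  | zero => simp
  | succ j ih =>
    rw [show A ^ (j + 1) = A * A ^ j from pow_succ' _ _]
    show ⟪A ((A ^ j) u), A ((A ^ j) g)⟫_ℝ = _
    rw [(h.pow_self hA j).inner, ih]

lemma sub_star_norm {A : H →L[ℝ] H} (hs : ∀ g, ‖(star A) g‖ ≤ ‖g‖)
    (y : H) : ‖y - (star A) (A y)‖ ^ 2 ≤ ‖y‖ ^ 2 - ‖A y‖ ^ 2 := by
  rw [norm_sub_sq_real, star_inner_right, real_inner_self_eq_norm_sq]
  have h1 : ‖(star A) (A y)‖ ^ 2 ≤ ‖A y‖ ^ 2 := pow_le_pow_left₀ (norm_nonneg _) (hs _) 2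
  linarith

end Pool.Agent.Lib.MP_018e2a_an.SPL
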