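import Mathlib
import Pool.Agent.Lib.MP_018e2a_an.SPL.Near

/-!
# The two families `C m = lim W_b ^ m` and `P m = lim E_b W_b ^ m`
-/

set_option autoImplicit false
set_option linter.unusedSectionVars false

namespace Pool.Agent.Lib.MP_018e2a_an.SPL

open Filter Topology InnerProductSpace
open Pool.Agent.Lib.MP_018e2a_an.TH

variable {p : Ultrafilter ℕ}
variable {H : Type*} [NormedAddCommGroup H] [InnerProductSpace ℝ H] [CompleteSpace H]

/-- `X b (false, m) = W_b ^ m` and `X b (true, m) = E_b W_b ^ m` -/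
structure Fam2 (p : Ultrafilter ℕ) (X : ℕ → Bool × ℕ → (H →L[ℝ] H))
    (L : Bool × ℕ → (H →L[ℝ] H)) : Prop extends Fam p X L where
  zero : ∀ b, X b (false, 0) = 1
  add : ∀ b s m n, X b (s, m + n) = X b (s, m) * X b (false, n)

lemma sq_null {ι : Type*} {l : Filter ι} {v : ι → ℝ} (hv : ∀ i, 0 ≤ v i)
    (h : Tendsto (fun i => v i ^ 2) l (𝓝 0)) : Tendsto v l (𝓝 0) := by
  have h1 := h.sqrt
  rw [Real.sqrt_zero] at h1
  refine h1.congr fun i => ?_
  exact Real.sqrt_sq (hv i)

namespace Fam2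

variable {X : ℕ → Bool × ℕ → (H →L[ℝ] H)} {L : Bool × ℕ → (H →L[ℝ] H)} (F : Fam2 p X L)
include F

lemma C0 : L (false, 0) = 1 := by
  refine (F.w (false, 0)).unique ?_
  intro g k
  refine tendsto_const_nhds.congr fun b => ?_
  show ⟪(1 : H →L[ℝ] H) g, k⟫_ℝ = ⟪X b (false, 0) g, k⟫_ℝ
  rw [F.zero]

lemma strong (d : ℕ) (x : H) (hx : Iso (L (false, d)) x) :
    Tendsto (fun b => ‖X b (false, d) x - L (false, d) x‖) p (𝓝 0) := by
  refine sq_null (fun _ => norm_nonneg _) ?_
  have h1 := (F.w (false, d)).norm_sub (fun b => F.norm b _) x (L (false, d) x)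
  rw [real_inner_self_eq_norm_sq, hx.norm] at h1
  have e : ‖x‖ ^ 2 - 2 * ‖x‖ ^ 2 + ‖x‖ ^ 2 = 0 := by ring
  rw [e] at h1
  exact h1

lemma add_near (s : Bool) (m d : ℕ) (x : H) (hx : Iso (L (false, d)) x) :
    L (s, m + d) x = L (s, m) (L (false, d) x) := by
  refine ext_inner_right ℝ fun k => ?_
  refine tendsto_nhds_unique (F.w (s, m + d) x k) ?_
  have h1 := F.w (s, m) (L (false, d) x) k
  have h2 : Tendsto (fun b => ⟪X b (s, m) (X b (false, d) x - L (false, d) x), k⟫_ℝ) p (𝓝 0) := by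
    have h3 := (F.strong d x hx).mul_const ‖k‖
    rw [zero_mul] at h3
    refine squeeze_zero_norm (fun b => ?_) h3
    rw [Real.norm_eq_abs]
    refine (abs_real_inner_le_norm _ _).trans ?_
    rw [F.norm]
  have h3 := h1.add h2
  rw [add_zero] at h3
  refine h3.congr fun b => ?_
  show ⟪X b (s, m) (L (false, d) x), k⟫_ℝ +
    ⟪X b (s, m) (X b (false, d) x - L (false, d) x), k⟫_ℝ = ⟪X b (s, m + d) x, k⟫_ℝ
  rw [← inner_add_left, ← map_add, add_sub_cancel, F.add]
  rfl

lemma mul_near (s : Bool) (a j : ℕ) (x : H) (hx : Iso (L (false, a)) x) :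
    L (s, j * a) x = L (s, 0) ((L (false, a) ^ j) x) := by
  induction j generalizing x with
  | zero => simp
  | succ j ih =>
    have hx1 : Iso (L (false, a)) (L (false, a) x) :=
      hx.map (Commute.refl _) (F.cPPs _ _).symm
    rw [Nat.succ_mul, F.add_near s (j * a) a x hx, ih _ hx1,
      show L (false, a) ^ (j + 1) = L (false, a) ^ j * L (false, a) from pow_succ _ _]
    rfl

/-- powers of `P (j a)` on the near part -/
lemma pow_near (a j m : ℕ) (x : H) (hx : Iso (L (false, a)) x) :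
    (L (true, j * a) ^ m) x = (L (true, 0) ^ m * L (false, a) ^ (j * m)) x := by
  induction m with
  | zero => simp
  | succ m ih =>
    have hx1 : Iso (L (false, a)) ((L (true, 0) ^ m * L (false, a) ^ (j * m)) x) := by
      refine hx.map ?_ ?_
      · exact ((F.cPP _ _).pow_right m).mul_right ((Commute.refl _).pow_right _)
      · exact (((F.cPPs _ _).symm).pow_right m).mul_right (((F.cPPs _ _).symm).pow_right _)
    rw [show L (true, j * a) ^ (m + 1) = L (true, j * a) * L (true, j * a) ^ m from pow_succ' _ _]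
    show L (true, j * a) ((L (true, j * a) ^ m) x) = _
    rw [ih, F.mul_near true a j _ hx1]
    have e : L (true, 0) * (L (false, a) ^ j * (L (true, 0) ^ m * L (false, a) ^ (j * m))) =
        L (true, 0) ^ (m + 1) * L (false, a) ^ (j * (m + 1)) := by
      have h1 : Commute (L (false, a) ^ j) (L (true, 0) ^ m) :=
        ((F.cPP _ _).pow_left j).pow_right m
      rw [← mul_assoc (L (false, a) ^ j), h1.eq, mul_assoc, ← pow_add, ← mul_assoc, ← pow_succ',
        show j + j * m = j * (m + 1) by ring]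
    exact congrArg (fun T : H →L[ℝ] H => T x) e

/-- the product whose inner products enter the van der Corput inequality -/
noncomputable def Z (L : Bool × ℕ → (H →L[ℝ] H)) (a n : ℕ) : H →L[ℝ] H :=
  star (L (true, n)) ^ n * L (true, n + a) ^ (n + a)

/-- the self-adjoint operators whose kernels are the isometric parts -/
noncomputable def R (L : Bool × ℕ → (H →L[ℝ] H)) (i : Bool × ℕ) : H →L[ℝ] H :=
  star (L i) * L i - 1

end Fam2

lemma R_star (L : Bool × ℕ → (H →L[ℝ] H)) (i : Bool × ℕ) : star (Fam2.R L i) = Fam2.R L i := by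
  unfold Fam2.R
  rw [star_sub, star_mul, star_star, star_one]

lemma R_zero (L : Bool × ℕ → (H →L[ℝ] H)) (i : Bool × ℕ) (x : H) :
    Fam2.R L i x = 0 ↔ Iso (L i) x := by
  show (star (L i)) (L i x) - x = 0 ↔ _
  rw [sub_eq_zero]
  rfl

namespace Fam2

variable {X : ℕ → Bool × ℕ → (H →L[ℝ] H)} {L : Bool × ℕ → (H →L[ℝ] H)} (F : Fam2 p X L)
include F

lemma cR (i j : Bool × ℕ) : Commute (R L i) (L j) :=
  (((F.cPPs j i).symm).mul_left (F.cPP i j)).sub_left (Commute.one_left _)

lemma cRs (i j : Bool × ℕ) : Commute (R L i) (star (L j)) := by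
  have h1 : Commute (star (L i) * L i) (star (L j)) := (F.cPsPs i j).mul_left (F.cPPs i j)
  exact h1.sub_left (Commute.one_left _)

lemma cRZ (i : Bool × ℕ) (a n : ℕ) : Commute (R L i) (Z L a n) :=
  ((F.cRs i _).pow_right n).mul_right ((F.cR i _).pow_right _)

lemma normZ (a n : ℕ) (g : H) : ‖Z L a n g‖ ≤ ‖g‖ := by
  refine (norm_pow_le (X := star (L (true, n))) (fun g => ?_) n _).trans
    (norm_pow_le (F.normP _) _ _)
  rw [F.normPs]
  exact F.normP _ _

lemma normR_sq (i : Bool × ℕ) (y : H) : ‖R L i y‖ ^ 2 ≤ ‖y‖ ^ 2 - ‖L i y‖ ^ 2 := by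
  have h1 := sub_star_norm (A := L i) (fun g => by rw [F.normPs]; exact F.normP _ _) y
  have h2 : ‖R L i y‖ = ‖y - (star (L i)) (L i y)‖ := by
    show ‖(star (L i)) (L i y) - y‖ = _
    rw [norm_sub_rev]
  rw [h2]
  exact h1

lemma normR (i : Bool × ℕ) (y : H) : ‖R L i y‖ ≤ ‖y‖ := by
  have h1 := F.normR_sq i y
  have h2 := sq_nonneg ‖L i y‖
  exact (pow_le_pow_iff_left₀ (norm_nonneg _) (norm_nonneg _) two_ne_zero).mp (by linarith)

lemma null_aux {l : Filter ℕ} (hl : l ≤ atTop) (c : ℝ) :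
    Tendsto (fun n : ℕ => c * (1 / ((n : ℝ) + 1))) l (𝓝 0) := by
  have h1 := (tendsto_one_div_add_atTop_nhds_zero_nat (𝕜 := ℝ)).const_mul c
  rw [mul_zero] at h1
  exact h1.mono_left hl

lemma nullC {l : Filter ℕ} (hl : l ≤ atTop) (a : ℕ) (x : H) :
    Tendsto (fun n => ‖Z L a n (R L (false, a) x)‖) l (𝓝 0) := by
  refine sq_null (fun _ => norm_nonneg _) ?_
  refine squeeze_zero (fun n => sq_nonneg _) (fun n => ?_)
    (F.null_aux hl (4 * ‖x‖ ^ 2))
  have h1 : Z L a n (R L (false, a) x) = R L (false, a) (Z L a n x) :=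
    (Commute.app (F.cRZ _ a n) x).symm
  rw [h1]
  have h2 := F.normR_sq (false, a) (Z L a n x)
  have h3 := F.D_prod (true, n) (false, a) (true, n + a) (fun b => F.add b true n a) n (n + a) x
  have h4 : ‖x‖ ^ 2 / (((n + a : ℕ) : ℝ) + 1) ≤ ‖x‖ ^ 2 * (1 / ((n : ℝ) + 1)) := by
    rw [mul_one_div]
    refine div_le_div_of_nonneg_left (sq_nonneg _) (by positivity) ?_
    push_cast
    have : (0 : ℝ) ≤ a := Nat.cast_nonneg a
    linarith
  have h5 : ‖x‖ ^ 2 / ((n : ℝ) + 1) = ‖x‖ ^ 2 * (1 / ((n : ℝ) + 1)) := by rw [mul_one_div]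
  rw [h5] at h3
  change ‖Z L a n x‖ ^ 2 - ‖L (false, a) (Z L a n x)‖ ^ 2 ≤ _ at h3
  linarith

/-- decay of the powers of `P 0` -/
lemma decay0 (m : ℕ) (x : H) :
    ‖(L (true, 0) ^ m) (R L (true, 0) x)‖ ^ 2 ≤ ‖x‖ ^ 2 * (1 / ((m : ℝ) + 1)) := by
  have h1 : (L (true, 0) ^ m) (R L (true, 0) x) = R L (true, 0) ((L (true, 0) ^ m) x) :=
    (Commute.app ((F.cR (true, 0) (true, 0)).pow_right m) x).symm
  rw [h1]
  have h2 := F.normR_sq (true, 0) ((L (true, 0) ^ m) x)
  have h3 := F.decay (true, 0) m x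
  have h4 := sq_nonneg ‖(L (true, 0) ^ (m + 1)) x‖
  rw [mul_one_div, le_div_iff₀ (by positivity : (0 : ℝ) < (m : ℝ) + 1)]
  have h5 : (0 : ℝ) < (m : ℝ) + 1 := by positivity
  nlinarith

lemma nullP {l : Filter ℕ} (hl : l ≤ atTop) (a : ℕ) (ha : ∀ᶠ n in l, a ∣ n) (x : H) :
    Tendsto (fun n => ‖Z L a n (R L (true, 0) x)‖) l (𝓝 0) := by
  obtain ⟨y, z, hyz, hy, hz⟩ := exists_decomp (fun _ : Unit => R L (false, a)) x
  have hy' : Iso (L (false, a)) y := (R_zero L _ y).mp (hy ())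
  have h1 : Tendsto (fun n => ‖Z L a n z‖) l (𝓝 0) :=
    null_of_perp (fun n => Z L a n) (fun n g => F.normZ a n g) (fun _ : Unit => R L (false, a))
      (fun _ => R_star L _) (fun _ x => F.nullC hl a x) z hz
  have h2 : Tendsto (fun n => ‖Z L a n (R L (true, 0) y)‖) l (𝓝 0) := by
    refine sq_null (fun _ => norm_nonneg _) ?_
    refine squeeze_zero' (Filter.Eventually.of_forall fun n => sq_nonneg _) ?_
      (F.null_aux hl (‖y‖ ^ 2))
    filter_upwards [ha] with n hn
    obtain ⟨j, hj⟩ := hn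
    have hj' : n + a = (j + 1) * a := by rw [hj]; ring
    have hR : Iso (L (false, a)) (R L (true, 0) y) :=
      hy'.map (F.cR (true, 0) (false, a)).symm (F.cRs (true, 0) (false, a)).symm
    have h3 : ‖Z L a n (R L (true, 0) y)‖ ≤ ‖(L (true, 0) ^ (n + a)) (R L (true, 0) y)‖ := by
      refine (norm_pow_le (X := star (L (true, n))) (fun g => by
        rw [F.normPs]; exact F.normP _ _) n _).trans ?_
      have h4 : (L (true, n + a) ^ (n + a)) (R L (true, 0) y) =
          (L (false, a) ^ ((j + 1) * (n + a))) ((L (true, 0) ^ (n + a)) (R L (true, 0) y)) := by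
        have h5 := F.pow_near a (j + 1) (n + a) (R L (true, 0) y) hR
        rw [← hj'] at h5
        rw [h5]
        exact Commute.app (((F.cPP _ _).pow_left _).pow_right _) _
      change ‖(L (true, n + a) ^ (n + a)) (R L (true, 0) y)‖ ≤ _
      rw [h4]
      exact norm_pow_le (F.normP _) _ _
    have h4 := F.decay0 (n + a) y
    have h5 := pow_le_pow_left₀ (norm_nonneg _) h3 2
    refine h5.trans (h4.trans ?_)
    refine mul_le_mul_of_nonneg_left ?_ (sq_nonneg _)
    refine one_div_le_one_div_of_le (by positivity) ?_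
    push_cast
    have : (0 : ℝ) ≤ a := Nat.cast_nonneg a
    linarith
  have h3 := h1.add h2
  rw [add_zero] at h3
  refine squeeze_zero (fun n => norm_nonneg _) (fun n => ?_) h3
  rw [hyz, map_add, map_add, add_comm (Z L a n (R L (true, 0) y))]
  refine (norm_add_le _ _).trans ?_
  have h4 : Z L a n (R L (true, 0) z) = R L (true, 0) (Z L a n z) :=
    (Commute.app (F.cRZ _ a n) z).symm
  rw [h4]
  have := F.normR (true, 0) (Z L a n z)
  linarith

/-- the two kernels -/
noncomputable def RR (L : Bool × ℕ → (H →L[ℝ] H)) (a : ℕ) (s : Bool) : H →L[ℝ] H :=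
  R L (if s then (true, 0) else (false, a))

lemma null {l : Filter ℕ} (hl : l ≤ atTop) (a : ℕ) (ha : ∀ᶠ n in l, a ∣ n) (z : H)
    (hz : ∀ k, (∀ s, RR L a s k = 0) → ⟪z, k⟫_ℝ = 0) :
    Tendsto (fun n => ‖Z L a n z‖) l (𝓝 0) := by
  refine null_of_perp (fun n => Z L a n) (fun n g => F.normZ a n g) (RR L a)
    (fun _ => R_star L _) ?_ z hz
  intro s x
  cases s with
  | false => exact F.nullC hl a x
  | true => exact F.nullP hl a ha x

end Fam2

end Pool.Agent.Lib.MP_018e2a_an.SPL
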