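import Mathlib
import Pool.Agent.Lib.MP_018e2a_an.SPL.Two
import Pool.Agent.Lib.MP_018e2a_an.SPL.Proj

/-!
# The operators `x n = V ^ (n choose 2) P_n ^ n` and their limit along an idempotent ultrafilter
-/

set_option autoImplicit false
set_option linter.unusedSectionVars false

namespace Pool.Agent.Lib.MP_018e2a_an.SPL

open Filter Topology InnerProductSpace
open Pool.Agent.Lib.MP_018e2a_an.TH

variable {H : Type*} [NormedAddCommGroup H] [InnerProductSpace ℝ H] [CompleteSpace H]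

lemma choose_two_add (n a : ℕ) : (n + a).choose 2 = n.choose 2 + a.choose 2 + n * a := by
  induction a with
  | zero => simp
  | succ a ih =>
    rw [← add_assoc, Nat.choose_succ_succ' (n + a) 1, Nat.choose_succ_succ' a 1, ih,
      Nat.choose_one_right, Nat.choose_one_right]
    ring

/-- products of powers of three commuting elements -/
lemma mul3 {M : Type*} [Monoid M] {A B C : M} (hAB : Commute A B) (hAC : Commute A C)
    (hBC : Commute B C) (i j k i' j' k' : ℕ) :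
    (A ^ i * (B ^ j * C ^ k)) * (A ^ i' * (B ^ j' * C ^ k')) =
      A ^ (i + i') * (B ^ (j + j') * C ^ (k + k')) := by
  have h1 : Commute (B ^ j * C ^ k) (A ^ i') :=
    ((hAB.symm.pow_left j).pow_right i').mul_left ((hAC.symm.pow_left k).pow_right i')
  have h2 : Commute (C ^ k) (B ^ j') := (hBC.symm.pow_left k).pow_right j'
  calc (A ^ i * (B ^ j * C ^ k)) * (A ^ i' * (B ^ j' * C ^ k'))
      = A ^ i * ((B ^ j * C ^ k) * A ^ i') * (B ^ j' * C ^ k') := by simp only [mul_assoc]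
    _ = A ^ i * (A ^ i' * (B ^ j * C ^ k)) * (B ^ j' * C ^ k') := by rw [h1.eq]
    _ = (A ^ i * A ^ i') * (B ^ j * (C ^ k * B ^ j') * C ^ k') := by simp only [mul_assoc]
    _ = (A ^ i * A ^ i') * (B ^ j * (B ^ j' * C ^ k) * C ^ k') := by rw [h2.eq]
    _ = (A ^ i * A ^ i') * ((B ^ j * B ^ j') * (C ^ k * C ^ k')) := by simp only [mul_assoc]
    _ = _ := by rw [← pow_add, ← pow_add, ← pow_add]

/-- a unitary operator commuting with all the `X b i` -/
structure VC {I : Type*} (X : ℕ → I → (H →L[ℝ] H)) (V : H →L[ℝ] H) : Prop where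
  inner : ∀ g h, ⟪V g, V h⟫_ℝ = ⟪g, h⟫_ℝ
  unit : V * star V = 1
  comm : ∀ b i, Commute (X b i) V

/-- limits of powers of a contraction along an idempotent ultrafilter -/
lemma idem_lim {q : Ultrafilter ℕ} (hq : Idem q) (Y E : H →L[ℝ] H) (hY : ∀ g, ‖Y g‖ ≤ ‖g‖)
    (hE : IsW q (fun n => Y ^ n) E) (u : H) :
    Tendsto (fun n => ‖(Y ^ n) (E u) - E u‖) q (𝓝 0) := by
  have h1 : ∀ k, Tendsto (fun n => ⟪(Y ^ n) (E u), k⟫_ℝ) q (𝓝 ⟪E u, k⟫_ℝ) := by
    intro k
    refine hq.lim (hE u k) ?_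
    intro b
    have h2 := hE u ((star (Y ^ b)) k)
    rw [star_inner_right] at h2
    refine h2.congr fun n => ?_
    rw [star_inner_right]
    show ⟪(Y ^ b) ((Y ^ n) u), k⟫_ℝ = ⟪(Y ^ (b + n)) u, k⟫_ℝ
    rw [pow_add]
    rfl
  refine sq_null (fun _ => norm_nonneg _) ?_
  have h2 := (tendsto_const_nhds (x := 2 * ‖E u‖ ^ 2) (f := (q : Filter ℕ))).sub
    ((h1 (E u)).const_mul 2)
  rw [real_inner_self_eq_norm_sq, sub_self] at h2
  refine squeeze_zero (fun _ => sq_nonneg _) (fun n => ?_) h2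
  rw [norm_sub_sq_real]
  have h3 : ‖(Y ^ n) (E u)‖ ^ 2 ≤ ‖E u‖ ^ 2 :=
    pow_le_pow_left₀ (norm_nonneg _) (norm_pow_le hY n _) 2
  linarith

lemma pow_sub_le {Y : H →L[ℝ] H} (hY : ∀ g, ‖Y g‖ ≤ ‖g‖) (k : ℕ) (g : H) :
    ‖(Y ^ k) g - g‖ ≤ k * ‖Y g - g‖ := by
  induction k with
  | zero => simp
  | succ k ih =>
    have h1 : (Y ^ (k + 1)) g - g = (Y ^ k) (Y g - g) + ((Y ^ k) g - g) := by
      rw [pow_succ, map_sub]
      show (Y ^ k) (Y g) - g = _
      abel
    rw [h1, Nat.cast_succ]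
    have h2 := norm_add_le ((Y ^ k) (Y g - g)) ((Y ^ k) g - g)
    have h3 := norm_pow_le hY k (Y g - g)
    linarith

namespace Fam2

variable {p : Ultrafilter ℕ}
variable {X : ℕ → Bool × ℕ → (H →L[ℝ] H)} {L : Bool × ℕ → (H →L[ℝ] H)} (F : Fam2 p X L)
variable {V : H →L[ℝ] H} (hV : VC X V)
include F hV

lemma cLV (i : Bool × ℕ) : Commute (L i) V := (F.w i).commute fun b => hV.comm b i

lemma unitV : star V * V = 1 := by
  ext g
  refine ext_inner_right ℝ fun k => ?_
  show ⟪(star V) (V g), k⟫_ℝ = ⟪g, k⟫_ℝ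
  rw [star_inner_left, hV.inner]

lemma cXVs (b : ℕ) (i : Bool × ℕ) : Commute (X b i) (star V) := by
  show X b i * star V = star V * X b i
  calc X b i * star V = (star V * V) * (X b i * star V) := by rw [F.unitV hV, one_mul]
    _ = star V * (V * X b i) * star V := by simp only [mul_assoc]
    _ = star V * (X b i * V) * star V := by rw [(hV.comm b i).eq]
    _ = star V * X b i * (V * star V) := by simp only [mul_assoc]
    _ = star V * X b i := by rw [hV.unit, mul_one]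

lemma cLVs (i : Bool × ℕ) : Commute (L i) (star V) := (F.w i).commute fun b => F.cXVs hV b i

lemma cLsV (i : Bool × ℕ) : Commute (star (L i)) V := commute_star_comm.mpr (F.cLVs hV i)

lemma normV (g : H) : ‖V g‖ = ‖g‖ := norm_eq_of_inner hV.inner g

lemma isoV (g : H) : Iso V g := congrArg (fun T : H →L[ℝ] H => T g) (F.unitV hV)

lemma cVVs : Commute V (star V) := by
  show V * star V = star V * V
  rw [hV.unit, F.unitV hV]

/-- monomials in `V`, `P 0`, `C a` -/
noncomputable def T (L : Bool × ℕ → (H →L[ℝ] H)) (V : H →L[ℝ] H) (a i j k : ℕ) : H →L[ℝ] H :=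
  V ^ i * (L (true, 0) ^ j * L (false, a) ^ k)

lemma T_mul (a i j k i' j' k' : ℕ) :
    T L V a i j k * T L V a i' j' k' = T L V a (i + i') (j + j') (k + k') :=
  mul3 (F.cLV hV _).symm (F.cLV hV _).symm (F.cPP _ _) _ _ _ _ _ _

lemma T_commL (a i j k : ℕ) (s : Bool × ℕ) : Commute (L s) (T L V a i j k) :=
  ((F.cLV hV s).pow_right i).mul_right (((F.cPP s _).pow_right j).mul_right
    ((F.cPP s _).pow_right k))

lemma T_commLs (a i j k : ℕ) (s : Bool × ℕ) : Commute (star (L s)) (T L V a i j k) :=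
  ((F.cLsV hV s).pow_right i).mul_right ((((F.cPPs _ s).symm).pow_right j).mul_right
    (((F.cPPs _ s).symm).pow_right k))

/-- the doubly isometric part -/
def S (L : Bool × ℕ → (H →L[ℝ] H)) (a : ℕ) (g : H) : Prop :=
  Iso (L (false, a)) g ∧ Iso (L (true, 0)) g

lemma T_S (a i j k a' : ℕ) (g : H) (hg : S L a' g) : S L a' (T L V a i j k g) :=
  ⟨hg.1.map (F.T_commL hV a i j k _) (F.T_commLs hV a i j k _),
    hg.2.map (F.T_commL hV a i j k _) (F.T_commLs hV a i j k _)⟩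

lemma T_inner (a i j k : ℕ) (g u : H) (hg : S L a g) :
    ⟪T L V a i j k u, T L V a i j k g⟫_ℝ = ⟪u, g⟫_ℝ := by
  have h1 : ∀ x y : H, ⟪(V ^ i) x, (V ^ i) y⟫_ℝ = ⟪x, y⟫_ℝ := fun x y =>
    (F.isoV hV y).inner_pow (F.cVVs hV) i x
  have h2 : Iso (L (true, 0)) ((L (false, a) ^ k) g) :=
    hg.2.map ((F.cPP _ _).pow_right k) (((F.cPPs _ _).symm).pow_right k)
  show ⟪(V ^ i) ((L (true, 0) ^ j) ((L (false, a) ^ k) u)),
    (V ^ i) ((L (true, 0) ^ j) ((L (false, a) ^ k) g))⟫_ℝ = _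
  rw [h1, h2.inner_pow (F.cPPs _ _) j, hg.1.inner_pow (F.cPPs _ _) k]

/-- the operators whose quadratic form is studied -/
noncomputable def x (L : Bool × ℕ → (H →L[ℝ] H)) (V : H →L[ℝ] H) (n : ℕ) : H →L[ℝ] H :=
  V ^ (n.choose 2) * L (true, n) ^ n

lemma norm_x (n : ℕ) (g : H) : ‖x L V n g‖ ≤ ‖g‖ :=
  (norm_pow_le (X := V) (fun g => (F.normV hV g).le) _ _).trans (norm_pow_le (F.normP _) _ _)

/-- on the near part `x n` is a monomial -/
lemma x_near (a j n : ℕ) (hn : n = j * a) (g : H) (hg : Iso (L (false, a)) g) :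
    x L V n g = T L V a (n.choose 2) n (j * n) g := by
  show (V ^ (n.choose 2)) ((L (true, n) ^ n) g) =
    (V ^ (n.choose 2)) ((L (true, 0) ^ n * L (false, a) ^ (j * n)) g)
  have h1 := F.pow_near a j n g hg
  rw [← hn] at h1
  rw [h1]

/-- the linear operator of the van der Corput step -/
noncomputable def Y (L : Bool × ℕ → (H →L[ℝ] H)) (V : H →L[ℝ] H) (a : ℕ) : H →L[ℝ] H :=
  T L V a a 0 2

lemma Y_pow (a n : ℕ) : Y L V a ^ n = T L V a (a * n) 0 (2 * n) := by
  induction n with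
  | zero => simp [T]
  | succ n ih =>
    rw [pow_succ, ih]
    unfold Y
    rw [F.T_mul hV]
    congr 1

lemma norm_T (a i j k : ℕ) (g : H) : ‖T L V a i j k g‖ ≤ ‖g‖ :=
  (norm_pow_le (X := V) (fun g => (F.normV hV g).le) _ _).trans
    ((norm_pow_le (F.normP _) _ _).trans (norm_pow_le (F.normP _) _ _))

lemma norm_Y (a : ℕ) (g : H) : ‖Y L V a g‖ ≤ ‖g‖ := F.norm_T hV _ _ _ _ _

/-- `x (n + d) g = x n (Y ^ (k n) (x d g))` for `a ∣ n`, `d = k a` -/
lemma x_add_near (a j k n d : ℕ) (hn : n = j * a) (hd : d = k * a) (g : H)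
    (hg : Iso (L (false, a)) g) :
    x L V (n + d) g = T L V a (n.choose 2) n (j * n)
      ((Y L V a ^ (k * n)) (T L V a (d.choose 2) d (k * d) g)) := by
  rw [F.x_near hV a (j + k) (n + d) (by rw [hn, hd]; ring) g hg, F.Y_pow hV]
  have e : T L V a (n.choose 2) n (j * n) * (T L V a (a * (k * n)) 0 (2 * (k * n)) *
      T L V a (d.choose 2) d (k * d)) =
      T L V a ((n + d).choose 2) (n + d) ((j + k) * (n + d)) := by
    rw [F.T_mul hV, F.T_mul hV]
    congr 1
    · rw [choose_two_add, hd]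
      ring
    · ring
    · rw [hn, hd]
      ring
  exact (congrArg (fun T : H →L[ℝ] H => T g) e).symm

/-- the inner products of the van der Corput step on the doubly isometric part -/
lemma inner_near (a j n : ℕ) (hn : n = j * a) (g : H) (hg : S L a g) :
    ⟪x L V (a + n) g, x L V n g⟫_ℝ =
      ⟪(Y L V a ^ n) (T L V a (a.choose 2) a (1 * a) g), g⟫_ℝ := by
  rw [add_comm a n, F.x_add_near hV a j 1 n a hn (by ring) g hg.1, F.x_near hV a j n hn g hg.1,
    F.T_inner hV _ _ _ _ _ _ hg, one_mul]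

/-- rewriting the inner products with `Z` -/
lemma inner_Z (a n : ℕ) (g h : H) :
    ⟪x L V (a + n) g, x L V n h⟫_ℝ = ⟪(V ^ (a.choose 2 + n * a)) (Z L a n g), h⟫_ℝ := by
  have h1 : ∀ (i : ℕ) (x y : H), ⟪(V ^ i) x, (V ^ i) y⟫_ℝ = ⟪x, y⟫_ℝ := fun i x y =>
    (F.isoV hV y).inner_pow (F.cVVs hV) i x
  have h2 : x L V (a + n) g = (V ^ (n.choose 2))
      ((V ^ (a.choose 2 + n * a)) ((L (true, n + a) ^ (n + a)) g)) := by
    show (V ^ ((a + n).choose 2) * L (true, a + n) ^ (a + n)) g =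
      (V ^ (n.choose 2) * (V ^ (a.choose 2 + n * a) * L (true, n + a) ^ (n + a))) g
    rw [← mul_assoc, ← pow_add, add_comm a n, choose_two_add, add_assoc]
  rw [h2]
  show ⟪(V ^ (n.choose 2)) ((V ^ (a.choose 2 + n * a)) ((L (true, n + a) ^ (n + a)) g)),
    (V ^ (n.choose 2)) ((L (true, n) ^ n) h)⟫_ℝ = _
  rw [h1]
  have h3 : (V ^ (a.choose 2 + n * a)) (Z L a n g) = (star (L (true, n)) ^ n)
      ((V ^ (a.choose 2 + n * a)) ((L (true, n + a) ^ (n + a)) g)) :=
    (Commute.app (((F.cLsV hV (true, n)).pow_left n).pow_right _) _).symm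
  rw [h3, ← star_pow, star_inner_left]

end Fam2

end Pool.Agent.Lib.MP_018e2a_an.SPL
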