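import Mathlib
import Pool.Agent.Lib.MP_018e2a_an.SPL.Quad

/-!
# The monoid generated by the weak limits and their adjoints
-/

set_option autoImplicit false
set_option linter.unusedSectionVars false

namespace Pool.Agent.Lib.MP_018e2a_an.SPL

open Filter Topology InnerProductSpace
open Pool.Agent.Lib.MP_018e2a_an.TH

variable {p : Ultrafilter ℕ}
variable {H : Type*} [NormedAddCommGroup H] [InnerProductSpace ℝ H] [CompleteSpace H]

/-- the monoid generated by the operators `P i` and their adjoints -/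
def KM {I : Type*} (P : I → (H →L[ℝ] H)) : Submonoid (H →L[ℝ] H) :=
  Submonoid.closure (Set.range P ∪ Set.range (fun i => star (P i)))

section basic

variable {I : Type*} {P : I → (H →L[ℝ] H)}

lemma KM_mem (i : I) : P i ∈ KM P := Submonoid.subset_closure (Or.inl ⟨i, rfl⟩)

lemma KM_comm_of {Y : H →L[ℝ] H} (h1 : ∀ i, Commute Y (P i)) (h2 : ∀ i, Commute Y (star (P i)))
    {A : H →L[ℝ] H} (hA : A ∈ KM P) : Commute Y A := by
  unfold KM at hA
  induction hA using Submonoid.closure_induction with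
  | mem x hx =>
    rcases hx with ⟨i, rfl⟩ | ⟨i, rfl⟩
    · exact h1 i
    · exact h2 i
  | one => exact Commute.one_right _
  | mul x y _ _ hx hy => exact hx.mul_right hy

lemma KM_star {A : H →L[ℝ] H} (hA : A ∈ KM P) : star A ∈ KM P := by
  unfold KM at hA
  induction hA using Submonoid.closure_induction with
  | mem x hx =>
    rcases hx with ⟨i, rfl⟩ | ⟨i, rfl⟩
    · exact Submonoid.subset_closure (Or.inr ⟨i, rfl⟩)
    · show star (star (P i)) ∈ KM P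
      rw [star_star]
      exact KM_mem i
  | one =>
    rw [star_one]
    exact (KM P).one_mem
  | mul x y _ _ hx hy =>
    rw [star_mul]
    exact (KM P).mul_mem hy hx

/-- products `P (φ (n-1)) ⋯ P (φ 0)` -/
noncomputable def pr (P : I → (H →L[ℝ] H)) (φ : ℕ → I) : ℕ → (H →L[ℝ] H)
  | 0 => 1
  | n + 1 => P (φ n) * pr P φ n

lemma pr_mem (φ : ℕ → I) (n : ℕ) : pr P φ n ∈ KM P := by
  induction n with
  | zero => exact (KM P).one_mem
  | succ n ih => exact (KM P).mul_mem (KM_mem _) ih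

lemma pr_congr (φ ψ : ℕ → I) (n : ℕ) (h : ∀ s, s < n → φ s = ψ s) : pr P φ n = pr P ψ n := by
  induction n with
  | zero => rfl
  | succ n ih =>
    show P (φ n) * pr P φ n = P (ψ n) * pr P ψ n
    rw [h n (Nat.lt_succ_self n), ih fun s hs => h s (Nat.lt_succ_of_lt hs)]

lemma pr_add (φ : ℕ → I) (n d : ℕ) :
    pr P φ (n + d) = pr P (fun s => φ (n + s)) d * pr P φ n := by
  induction d with
  | zero =>
    show pr P φ n = 1 * pr P φ n
    rw [one_mul]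
  | succ d ih =>
    show P (φ (n + d)) * pr P φ (n + d) = P (φ (n + d)) * pr P (fun s => φ (n + s)) d * pr P φ n
    rw [ih, mul_assoc]

/-- the self-adjoint operator whose kernel is the isometric part of `A` -/
noncomputable def RK (A : H →L[ℝ] H) : H →L[ℝ] H := star A * A - 1

lemma RK_star (A : H →L[ℝ] H) : star (RK A) = RK A := by
  unfold RK
  rw [star_sub, star_mul, star_star, star_one]

lemma RK_zero (A : H →L[ℝ] H) (x : H) : RK A x = 0 ↔ Iso A x := by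
  show (star A) (A x) - x = 0 ↔ _
  rw [sub_eq_zero]
  rfl

end basic

namespace Fam

variable {I : Type*} {V : ℕ → I → (H →L[ℝ] H)} {P : I → (H →L[ℝ] H)} (F : Fam p V P)
include F

lemma KM_comm {A B : H →L[ℝ] H} (hA : A ∈ KM P) (hB : B ∈ KM P) : Commute A B := by
  have h1 : ∀ i, Commute (P i) A := fun i => KM_comm_of (F.cPP i) (F.cPPs i) hA
  have h2 : ∀ i, Commute (star (P i)) A := fun i =>
    KM_comm_of (fun j => (F.cPPs j i).symm) (fun j => F.cPsPs i j) hA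
  exact KM_comm_of (fun i => (h1 i).symm) (fun i => (h2 i).symm) hB

lemma KM_V {A : H →L[ℝ] H} (hA : A ∈ KM P) (b : ℕ) (m : I) : Commute (V b m) A :=
  KM_comm_of (fun i => (F.cPV i b m).symm) (fun i => F.cVPs b m i) hA

lemma KM_Vs {A : H →L[ℝ] H} (hA : A ∈ KM P) (b : ℕ) (m : I) : Commute (star (V b m)) A :=
  KM_comm_of (fun i => (F.cPVs i b m).symm) (fun i => commute_star_star.mpr (F.cPV i b m).symm) hA

lemma KM_norm {A : H →L[ℝ] H} (hA : A ∈ KM P) (g : H) : ‖A g‖ ≤ ‖g‖ := by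
  unfold KM at hA
  induction hA using Submonoid.closure_induction generalizing g with
  | mem x hx =>
    rcases hx with ⟨i, rfl⟩ | ⟨i, rfl⟩
    · exact F.normP i g
    · show ‖(star (P i)) g‖ ≤ ‖g‖
      rw [F.normPs]
      exact F.normP i g
  | one => exact le_rfl
  | mul x y _ _ hx hy => exact (hx (y g)).trans (hy g)

lemma KM_norm_star {A : H →L[ℝ] H} (hA : A ∈ KM P) (g : H) : ‖(star A) g‖ = ‖A g‖ :=
  norm_star_of_commute (F.KM_comm hA (KM_star hA)) g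

lemma DK_mono {X : ℕ → (H →L[ℝ] H)} {Z : H →L[ℝ] H} (hX : ∀ b g, ‖X b g‖ = ‖g‖)
    (hZ : IsW p X Z) {A : H →L[ℝ] H} (hA : A ∈ KM P) (hc : ∀ b, Commute (X b) A) (y : H) :
    ‖Z y‖ ^ 2 - ‖A (Z y)‖ ^ 2 ≤ ‖y‖ ^ 2 - ‖A y‖ ^ 2 := by
  have h1 := hZ.norm_sub hX y (Z y)
  have h2 := hZ.norm_sub hX (A y) (Z (A y))
  rw [real_inner_self_eq_norm_sq] at h1 h2
  have h3 := le_of_tendsto_of_tendsto h2 h1 (Filter.univ_mem' fun b => by
    show ‖X b (A y) - Z (A y)‖ ^ 2 ≤ ‖X b y - Z y‖ ^ 2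
    rw [Commute.app (hc b), Commute.app (hZ.commute hc), ← map_sub]
    exact pow_le_pow_left₀ (norm_nonneg _) (F.KM_norm hA _) 2)
  rw [Commute.app (hZ.commute hc)] at h3
  linarith

/-- the deficit `‖y‖² - ‖A y‖²` does not increase under the monoid -/
lemma DK {A B : H →L[ℝ] H} (hA : A ∈ KM P) (hB : B ∈ KM P) (y : H) :
    ‖B y‖ ^ 2 - ‖A (B y)‖ ^ 2 ≤ ‖y‖ ^ 2 - ‖A y‖ ^ 2 := by
  unfold KM at hB
  induction hB using Submonoid.closure_induction generalizing y with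
  | mem x hx =>
    rcases hx with ⟨i, rfl⟩ | ⟨i, rfl⟩
    · exact F.DK_mono (fun b => F.norm b i) (F.w i) hA (fun b => F.KM_V hA b i) y
    · exact F.DK_mono (fun b => F.norm_star b i) (F.ws i) hA (fun b => F.KM_Vs hA b i) y
  | one => exact le_rfl
  | mul x z _ _ hx hz => exact (hx (z y)).trans (hz y)

/-- the deficit at `star B y` is the deficit at `B y` -/
lemma DK_star {A B : H →L[ℝ] H} (hA : A ∈ KM P) (hB : B ∈ KM P) (y : H) :
    ‖(star B) y‖ ^ 2 - ‖A ((star B) y)‖ ^ 2 = ‖B y‖ ^ 2 - ‖A (B y)‖ ^ 2 := by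
  rw [Commute.app (F.KM_comm hA (KM_star hB)), F.KM_norm_star hB, F.KM_norm_star hB,
    Commute.app (F.KM_comm hA hB)]

lemma DK_nonneg {A : H →L[ℝ] H} (hA : A ∈ KM P) (y : H) : 0 ≤ ‖y‖ ^ 2 - ‖A y‖ ^ 2 := by
  have h1 := pow_le_pow_left₀ (norm_nonneg _) (F.KM_norm hA y) 2
  linarith

/-- summed deficits along a product -/
lemma DK_sum (φ : ℕ → I) (n : ℕ) (h : H) :
    ∑ s ∈ Finset.range n, (‖pr P φ n h‖ ^ 2 - ‖P (φ s) (pr P φ n h)‖ ^ 2) ≤
      ‖h‖ ^ 2 - ‖pr P φ n h‖ ^ 2 := by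
  induction n with
  | zero =>
    rw [Finset.range_zero, Finset.sum_empty]
    exact F.DK_nonneg (pr_mem φ 0) h
  | succ n ih =>
    rw [Finset.sum_range_succ]
    have h1 : ∑ s ∈ Finset.range n, (‖pr P φ (n + 1) h‖ ^ 2 - ‖P (φ s) (pr P φ (n + 1) h)‖ ^ 2) ≤
        ∑ s ∈ Finset.range n, (‖pr P φ n h‖ ^ 2 - ‖P (φ s) (pr P φ n h)‖ ^ 2) :=
      Finset.sum_le_sum fun s _ => F.DK (KM_mem (φ s)) (KM_mem (φ n)) (pr P φ n h)
    have h2 : ‖pr P φ (n + 1) h‖ ^ 2 - ‖P (φ n) (pr P φ (n + 1) h)‖ ^ 2 ≤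
        ‖pr P φ n h‖ ^ 2 - ‖pr P φ (n + 1) h‖ ^ 2 :=
      F.DK (KM_mem (φ n)) (KM_mem (φ n)) (pr P φ n h)
    linarith

/-- decay of the deficit along powers -/
lemma DK_decay {A : H →L[ℝ] H} (hA : A ∈ KM P) (J : ℕ) (y : H) :
    ((J : ℝ) + 1) * (‖(A ^ J) y‖ ^ 2 - ‖A ((A ^ J) y)‖ ^ 2) ≤
      ‖y‖ ^ 2 - ‖(A ^ (J + 1)) y‖ ^ 2 := by
  induction J with
  | zero => simp
  | succ J ih =>
    have h1 := F.DK hA hA ((A ^ J) y)
    have e : ∀ j, A ((A ^ j) y) = (A ^ (j + 1)) y := by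
      intro j
      rw [pow_succ']
      rfl
    rw [e] at ih h1 ⊢
    rw [e] at h1
    have h2 : (0 : ℝ) ≤ (J : ℝ) + 1 := by positivity
    rw [Nat.cast_succ]
    nlinarith [mul_le_mul_of_nonneg_left h1 h2]

lemma cRK {A B : H →L[ℝ] H} (hA : A ∈ KM P) (hB : B ∈ KM P) : Commute (RK A) B :=
  (F.KM_comm ((KM P).mul_mem (KM_star hA) hA) hB).sub_left (Commute.one_left _)

lemma normRK_sq {A : H →L[ℝ] H} (hA : A ∈ KM P) (y : H) :
    ‖RK A y‖ ^ 2 ≤ ‖y‖ ^ 2 - ‖A y‖ ^ 2 := by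
  have h1 := sub_star_norm (A := A) (fun g => F.KM_norm (KM_star hA) g) y
  have h2 : ‖RK A y‖ = ‖y - (star A) (A y)‖ := by
    show ‖(star A) (A y) - y‖ = _
    rw [norm_sub_rev]
  rw [h2]
  exact h1

lemma normRK {A : H →L[ℝ] H} (hA : A ∈ KM P) (y : H) : ‖RK A y‖ ≤ ‖y‖ := by
  have h1 := F.normRK_sq hA y
  have h2 := sq_nonneg ‖A y‖
  exact (pow_le_pow_iff_left₀ (norm_nonneg _) (norm_nonneg _) two_ne_zero).mp (by linarith)

lemma KM_iso {A B : H →L[ℝ] H} (hA : A ∈ KM P) (hB : B ∈ KM P) {g : H} (h : Iso A g) :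
    Iso A (B g) := h.map (F.KM_comm hA hB) (F.KM_comm (KM_star hA) hB)

lemma KM_iso_of_norm {A : H →L[ℝ] H} (hA : A ∈ KM P) {g : H} (h : ‖A g‖ = ‖g‖) : Iso A g := by
  have h1 := sub_star_norm (A := A) (fun g => F.KM_norm (KM_star hA) g) g
  rw [h, sub_self] at h1
  have h2 : ‖g - (star A) (A g)‖ = 0 := by
    have := sq_nonneg ‖g - (star A) (A g)‖
    exact pow_eq_zero_iff two_ne_zero |>.mp (le_antisymm h1 this)
  exact (sub_eq_zero.mp (norm_eq_zero.mp h2)).symm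

/-- the decay of powers on the range of `RK A` -/
lemma RK_decay {A : H →L[ℝ] H} (hA : A ∈ KM P) (m : ℕ) (x : H) :
    ‖(A ^ m) (RK A x)‖ ^ 2 ≤ ‖x‖ ^ 2 * (1 / ((m : ℝ) + 1)) := by
  have h1 : (A ^ m) (RK A x) = RK A ((A ^ m) x) :=
    (Commute.app ((F.cRK hA hA).pow_right m) x).symm
  rw [h1]
  have h2 := F.normRK_sq hA ((A ^ m) x)
  have h3 := F.DK_decay hA m x
  have h4 := sq_nonneg ‖(A ^ (m + 1)) x‖
  rw [mul_one_div, le_div_iff₀ (by positivity : (0 : ℝ) < (m : ℝ) + 1)]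
  have h5 : (0 : ℝ) < (m : ℝ) + 1 := by positivity
  nlinarith

/-- the two-sided estimate behind the correlations: all `n` triples `k s = u s * d` -/
lemma DK_two (φ ψ : ℕ → I) (n m : ℕ) (σ : ℕ → ℕ) (hσ : ∀ s, s < n → σ s < m)
    (hσi : ∀ s t, s < n → t < n → σ s = σ t → s = t) (d : I)
    (hk : ∀ s, s < n → ∀ b, V b (ψ (σ s)) = V b (φ s) * V b d) (h : H) :
    (n : ℝ) * (‖(star (pr P φ n)) (pr P ψ m h)‖ ^ 2 -
      ‖P d ((star (pr P φ n)) (pr P ψ m h))‖ ^ 2) ≤ 4 * ‖h‖ ^ 2 := by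
  set w : H := pr P ψ m h with hw
  set y : H := (star (pr P φ n)) w with hy
  have h1 : ∑ s ∈ Finset.range n, (‖y‖ ^ 2 - ‖P d y‖ ^ 2) ≤
      ∑ s ∈ Finset.range n, (2 * (‖w‖ ^ 2 - ‖P (ψ (σ s)) w‖ ^ 2) +
        2 * (‖y‖ ^ 2 - ‖P (φ s) y‖ ^ 2)) := by
    refine Finset.sum_le_sum fun s hs => ?_
    have h2 := F.D_le (φ s) d (ψ (σ s)) (hk s (Finset.mem_range.mp hs)) y
    have h3 := F.DK (KM_mem (ψ (σ s))) (KM_star (pr_mem (P := P) φ n)) w
    rw [← hy] at h3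
    linarith
  rw [Finset.sum_const, Finset.card_range, nsmul_eq_mul, Finset.sum_add_distrib,
    ← Finset.mul_sum, ← Finset.mul_sum] at h1
  have h2 : ∑ s ∈ Finset.range n, (‖w‖ ^ 2 - ‖P (ψ (σ s)) w‖ ^ 2) ≤ ‖h‖ ^ 2 := by
    have h3 : ∑ s ∈ Finset.range n, (‖w‖ ^ 2 - ‖P (ψ (σ s)) w‖ ^ 2) =
        ∑ t ∈ (Finset.range n).image σ, (‖w‖ ^ 2 - ‖P (ψ t) w‖ ^ 2) := by
      rw [Finset.sum_image]
      intro s hs t ht hst
      exact hσi s t (Finset.mem_range.mp (Finset.mem_coe.mp hs))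
        (Finset.mem_range.mp (Finset.mem_coe.mp ht)) hst
    rw [h3]
    have h4 : ∑ t ∈ (Finset.range n).image σ, (‖w‖ ^ 2 - ‖P (ψ t) w‖ ^ 2) ≤
        ∑ t ∈ Finset.range m, (‖w‖ ^ 2 - ‖P (ψ t) w‖ ^ 2) := by
      refine Finset.sum_le_sum_of_subset_of_nonneg ?_ ?_
      · intro t ht
        obtain ⟨s, hs, rfl⟩ := Finset.mem_image.mp ht
        exact Finset.mem_range.mpr (hσ s (Finset.mem_range.mp hs))
      · intro t _ _
        exact F.DK_nonneg (KM_mem _) w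
    have h5 := F.DK_sum ψ m h
    rw [← hw] at h5
    have := sq_nonneg ‖w‖
    linarith
  have h3 : ∑ s ∈ Finset.range n, (‖y‖ ^ 2 - ‖P (φ s) y‖ ^ 2) ≤ ‖h‖ ^ 2 := by
    have h4 := F.DK_sum φ n w
    have h5 : ∀ s, ‖y‖ ^ 2 - ‖P (φ s) y‖ ^ 2 =
        ‖pr P φ n w‖ ^ 2 - ‖P (φ s) (pr P φ n w)‖ ^ 2 := fun s =>
      F.DK_star (KM_mem (φ s)) (pr_mem (P := P) φ n) w
    rw [Finset.sum_congr rfl fun s _ => h5 s]
    have h6 := sq_nonneg ‖pr P φ n w‖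
    have h7 : ‖w‖ ^ 2 ≤ ‖h‖ ^ 2 :=
      pow_le_pow_left₀ (norm_nonneg _) (F.KM_norm (pr_mem (P := P) ψ m) h) 2
    linarith
  linarith

end Fam

end Pool.Agent.Lib.MP_018e2a_an.SPL
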