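import Mathlib
import Pool.Agent.Lib.MP_018e2a_an.SPL.KMon
import Pool.Agent.Lib.MP_018e2a_an.SPL.Extract

/-!
# The operators `x n = P (n-1,0) P (n-2,1) ⋯ P (0,n-1)`, `P (k,l) = lim D_b E_b ^ k F_b ^ l`
-/

set_option autoImplicit false
set_option linter.unusedSectionVars false

namespace Pool.Agent.Lib.MP_018e2a_an.SPL

open Filter Topology InnerProductSpace
open Pool.Agent.Lib.MP_018e2a_an.TH

variable {p : Ultrafilter ℕ}
variable {H : Type*} [NormedAddCommGroup H] [InnerProductSpace ℝ H] [CompleteSpace H]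

/-- `X b (false, k, l) = E_b ^ k F_b ^ l` and `X b (true, k, l) = D_b E_b ^ k F_b ^ l` -/
structure Fam3 (p : Ultrafilter ℕ) (X : ℕ → Bool × ℕ × ℕ → (H →L[ℝ] H))
    (L : Bool × ℕ × ℕ → (H →L[ℝ] H)) : Prop extends Fam p X L where
  add : ∀ b s k l k' l', X b (s, k + k', l + l') = X b (s, k, l) * X b (false, k', l')

namespace Fam3

variable {X : ℕ → Bool × ℕ × ℕ → (H →L[ℝ] H)} {L : Bool × ℕ × ℕ → (H →L[ℝ] H)}
variable (F : Fam3 p X L)

/-- the indices of the factors of `x n` -/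
def ix (n s : ℕ) : Bool × ℕ × ℕ := (true, n - 1 - s, s)

/-- the product of the `n` limits -/
noncomputable def x (L : Bool × ℕ × ℕ → (H →L[ℝ] H)) (n : ℕ) : H →L[ℝ] H := pr L (ix n) n

lemma x_mem (n : ℕ) : x L n ∈ KM L := pr_mem _ n

/-- the product whose inner products enter the van der Corput inequality -/
noncomputable def Z (L : Bool × ℕ × ℕ → (H →L[ℝ] H)) (a n : ℕ) : H →L[ℝ] H :=
  star (x L n) * x L (n + a)

lemma Z_mem (a n : ℕ) : Z L a n ∈ KM L := (KM L).mul_mem (KM_star (x_mem n)) (x_mem _)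

/-- the three operators whose isometric parts make up the good space -/
noncomputable def A3 (L : Bool × ℕ × ℕ → (H →L[ℝ] H)) (a : ℕ) : Fin 3 → (H →L[ℝ] H)
  | 0 => L (false, a, 0)
  | 1 => L (false, 0, a)
  | 2 => x L a

lemma A3_mem (a : ℕ) (i : Fin 3) : A3 L a i ∈ KM L := by
  match i with
  | 0 => exact KM_mem _
  | 1 => exact KM_mem _
  | 2 => exact x_mem a

/-- near part -/
def N (L : Bool × ℕ × ℕ → (H →L[ℝ] H)) (a : ℕ) (g : H) : Prop :=
  Iso (L (false, a, 0)) g ∧ Iso (L (false, 0, a)) g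

/-- good part -/
def S (L : Bool × ℕ × ℕ → (H →L[ℝ] H)) (a : ℕ) (g : H) : Prop :=
  N L a g ∧ Iso (x L a) g

/-- the linear operator of the van der Corput step -/
noncomputable def Y (L : Bool × ℕ × ℕ → (H →L[ℝ] H)) (a : ℕ) : H →L[ℝ] H :=
  L (false, a, 0) * L (false, 0, a)

lemma Y_mem (a : ℕ) : Y L a ∈ KM L := (KM L).mul_mem (KM_mem _) (KM_mem _)

include F

lemma strong (d d' : ℕ) (g : H) (hg : Iso (L (false, d, d')) g) :
    Tendsto (fun b => ‖X b (false, d, d') g - L (false, d, d') g‖) p (𝓝 0) := by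
  refine sq_null (fun _ => norm_nonneg _) ?_
  have h1 := (F.w (false, d, d')).norm_sub (fun b => F.norm b _) g (L (false, d, d') g)
  rw [real_inner_self_eq_norm_sq, hg.norm] at h1
  have e : ‖g‖ ^ 2 - 2 * ‖g‖ ^ 2 + ‖g‖ ^ 2 = 0 := by ring
  rw [e] at h1
  exact h1

lemma add_near (s : Bool) (k l d d' : ℕ) (g : H) (hg : Iso (L (false, d, d')) g) :
    L (s, k + d, l + d') g = L (s, k, l) (L (false, d, d') g) := by
  refine ext_inner_right ℝ fun u => ?_
  refine tendsto_nhds_unique (F.w (s, k + d, l + d') g u) ?_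
  have h1 := F.w (s, k, l) (L (false, d, d') g) u
  have h2 : Tendsto (fun b => ⟪X b (s, k, l) (X b (false, d, d') g - L (false, d, d') g), u⟫_ℝ)
      p (𝓝 0) := by
    have h3 := (F.strong d d' g hg).mul_const ‖u‖
    rw [zero_mul] at h3
    refine squeeze_zero_norm (fun b => ?_) h3
    rw [Real.norm_eq_abs]
    refine (abs_real_inner_le_norm _ _).trans ?_
    rw [F.norm]
  have h3 := h1.add h2
  rw [add_zero] at h3
  refine h3.congr fun b => ?_
  show ⟪X b (s, k, l) (L (false, d, d') g), u⟫_ℝ +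
    ⟪X b (s, k, l) (X b (false, d, d') g - L (false, d, d') g), u⟫_ℝ =
      ⟪X b (s, k + d, l + d') g, u⟫_ℝ
  rw [← inner_add_left, ← map_add, add_sub_cancel, F.add]
  rfl

lemma N_K (a : ℕ) {B : H →L[ℝ] H} (hB : B ∈ KM L) (g : H) (hg : N L a g) : N L a (B g) :=
  ⟨F.KM_iso (KM_mem _) hB hg.1, F.KM_iso (KM_mem _) hB hg.2⟩

lemma S_K (a : ℕ) {B : H →L[ℝ] H} (hB : B ∈ KM L) (g : H) (hg : S L a g) : S L a (B g) :=
  ⟨F.N_K a hB g hg.1, F.KM_iso (x_mem _) hB hg.2⟩

lemma near1 (s : Bool) (a j k l : ℕ) (g : H) (hg : N L a g) :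
    L (s, k + j * a, l) g = L (s, k, l) ((L (false, a, 0) ^ j) g) := by
  induction j generalizing g with
  | zero => simp
  | succ j ih =>
    have h1 := F.add_near s (k + j * a) l a 0 g hg.1
    rw [add_zero] at h1
    rw [show k + (j + 1) * a = k + j * a + a by ring, h1, ih _ (F.N_K a (KM_mem _) g hg),
      show L (false, a, 0) ^ (j + 1) = L (false, a, 0) ^ j * L (false, a, 0) from pow_succ _ _]
    rfl

lemma near2 (s : Bool) (a j k l : ℕ) (g : H) (hg : N L a g) :
    L (s, k, l + j * a) g = L (s, k, l) ((L (false, 0, a) ^ j) g) := by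
  induction j generalizing g with
  | zero => simp
  | succ j ih =>
    have h1 := F.add_near s k (l + j * a) 0 a g hg.2
    rw [add_zero] at h1
    rw [show l + (j + 1) * a = l + j * a + a by ring, h1, ih _ (F.N_K a (KM_mem _) g hg),
      show L (false, 0, a) ^ (j + 1) = L (false, 0, a) ^ j * L (false, 0, a) from pow_succ _ _]
    rfl

/-- products of limits whose indices are shifted by the same amount -/
lemma pr_near (a : ℕ) (φ ψ : ℕ → Bool × ℕ × ℕ) (n : ℕ) {Q : H →L[ℝ] H} (hQ : Q ∈ KM L)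
    (h : ∀ s, s < n → ∀ g, N L a g → L (φ s) g = L (ψ s) (Q g)) (g : H) (hg : N L a g) :
    pr L φ n g = pr L ψ n ((Q ^ n) g) := by
  induction n with
  | zero => simp [pr]
  | succ n ih =>
    show L (φ n) (pr L φ n g) = L (ψ n) (pr L ψ n ((Q ^ (n + 1)) g))
    rw [ih fun s hs => h s (Nat.lt_succ_of_lt hs)]
    have hQn : Q ^ n ∈ KM L := (KM L).pow_mem hQ n
    rw [h n (Nat.lt_succ_self n) _ (F.N_K a (pr_mem ψ n) _ (F.N_K a hQn g hg))]
    congr 1
    rw [Commute.app (F.KM_comm hQ (pr_mem ψ n)), pow_succ']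
    rfl

/-- `x (n + d) g = x n (Y ^ (k n) (x d g))` for `n = j a`, `d = k a` -/
lemma x_add_near (a j k n d : ℕ) (hn : n = j * a) (hd : d = k * a) (g : H) (hg : N L a g) :
    x L (n + d) g = x L n ((Y L a ^ (k * n)) (x L d g)) := by
  have hE : L (false, a, 0) ∈ KM L := KM_mem _
  have hF : L (false, 0, a) ∈ KM L := KM_mem _
  have h1 : x L (n + d) g = pr L (fun s => ix (n + d) (n + s)) d (pr L (ix (n + d)) n g) := by
    unfold x
    rw [pr_add]
    rfl
  have h2 : pr L (ix (n + d)) n g = x L n (((L (false, a, 0) ^ k) ^ n) g) := by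
    refine F.pr_near a _ _ n ((KM L).pow_mem hE k) ?_ g hg
    intro s hs u hu
    have e : ix (n + d) s = (true, (n - 1 - s) + k * a, s) := by
      unfold ix
      rw [← hd]
      congr 2
      omega
    rw [e, F.near1 true a k (n - 1 - s) s u hu]
    rfl
  have h3 : ∀ u, N L a u → pr L (fun s => ix (n + d) (n + s)) d u =
      x L d (((L (false, 0, a) ^ j) ^ d) u) := by
    intro u hu
    refine F.pr_near a _ _ d ((KM L).pow_mem hF j) ?_ u hu
    intro s hs u hu
    have e : ix (n + d) (n + s) = (true, d - 1 - s, s + j * a) := by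
      unfold ix
      rw [← hn]
      congr 2
      · omega
      · omega
    show L (ix (n + d) (n + s)) u = _
    rw [e, F.near2 true a j (d - 1 - s) s u hu]
    rfl
  have hEk : (L (false, a, 0) ^ k) ^ n ∈ KM L := (KM L).pow_mem ((KM L).pow_mem hE k) n
  have hFj : (L (false, 0, a) ^ j) ^ d ∈ KM L := (KM L).pow_mem ((KM L).pow_mem hF j) d
  rw [h1, h2, h3 _ (F.N_K a (x_mem n) _ (F.N_K a hEk g hg))]
  have e : x L d * ((L (false, 0, a) ^ j) ^ d * (x L n * (L (false, a, 0) ^ k) ^ n)) =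
      x L n * (Y L a ^ (k * n) * x L d) := by
    have c1 := F.KM_comm hFj (x_mem (L := L) n)
    have c2 := F.KM_comm (x_mem (L := L) d) (x_mem (L := L) n)
    have c3 := F.KM_comm (x_mem (L := L) d) hFj
    have c4 := F.KM_comm (x_mem (L := L) d) hEk
    have c5 := F.KM_comm hFj hEk
    have e1 : Y L a ^ (k * n) = (L (false, a, 0) ^ k) ^ n * (L (false, 0, a) ^ j) ^ d := by
      unfold Y
      rw [(F.KM_comm hE hF).mul_pow, ← pow_mul, ← pow_mul]
      congr 2
      rw [hn, hd]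
      ring
    rw [e1]
    calc x L d * ((L (false, 0, a) ^ j) ^ d * (x L n * (L (false, a, 0) ^ k) ^ n))
        = x L d * (((L (false, 0, a) ^ j) ^ d * x L n) * (L (false, a, 0) ^ k) ^ n) := by
          simp only [mul_assoc]
      _ = (x L d * x L n) * ((L (false, 0, a) ^ j) ^ d * (L (false, a, 0) ^ k) ^ n) := by
          rw [c1.eq]
          simp only [mul_assoc]
      _ = x L n * (x L d * ((L (false, a, 0) ^ k) ^ n * (L (false, 0, a) ^ j) ^ d)) := by
          rw [c2.eq, c5.eq]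
          simp only [mul_assoc]
      _ = x L n * (((L (false, a, 0) ^ k) ^ n * (L (false, 0, a) ^ j) ^ d) * x L d) := by
          rw [(c4.mul_right c3).eq]
  exact congrArg (fun T : H →L[ℝ] H => T g) e

lemma norm_Y_near (a m : ℕ) (g : H) (hg : N L a g) : ‖(Y L a ^ m) g‖ = ‖g‖ := by
  induction m with
  | zero => simp
  | succ m ih =>
    have hYm : Y L a ^ m ∈ KM L := (KM L).pow_mem (Y_mem a) m
    have h1 := F.N_K a hYm g hg
    rw [show Y L a ^ (m + 1) = Y L a * Y L a ^ m from pow_succ' _ _]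
    show ‖L (false, a, 0) (L (false, 0, a) ((Y L a ^ m) g))‖ = _
    rw [(F.N_K a (KM_mem (false, 0, a)) _ h1).1.norm, h1.2.norm, ih]

/-- on the good part all the `x (j a)` are isometric -/
lemma x_iso (a j : ℕ) (g : H) (hg : S L a g) : Iso (x L (j * a)) g := by
  refine F.KM_iso_of_norm (x_mem _) ?_
  induction j generalizing g with
  | zero =>
    rw [Nat.zero_mul]
    rfl
  | succ j ih =>
    have hY : Y L a ^ (1 * (j * a)) ∈ KM L := (KM L).pow_mem (Y_mem a) _
    rw [Nat.succ_mul, F.x_add_near a j 1 (j * a) a rfl (by ring) g hg.1,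
      ih _ (F.S_K a hY _ (F.S_K a (x_mem a) g hg)),
      F.norm_Y_near a _ _ (F.N_K a (x_mem a) g hg.1), hg.2.norm]

/-- on the near part `x (j a)` is dominated by `x a ^ j` -/
lemma x_le (a j : ℕ) (g : H) (hg : N L a g) : ‖x L (j * a) g‖ ≤ ‖(x L a ^ j) g‖ := by
  induction j generalizing g with
  | zero =>
    rw [Nat.zero_mul]
    exact le_rfl
  | succ j ih =>
    have hY : Y L a ^ (1 * (j * a)) ∈ KM L := (KM L).pow_mem (Y_mem a) _
    have hxj : x L a ^ j ∈ KM L := (KM L).pow_mem (x_mem a) j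
    rw [Nat.succ_mul, F.x_add_near a j 1 (j * a) a rfl (by ring) g hg]
    refine (ih _ (F.N_K a hY _ (F.N_K a (x_mem a) g hg))).trans ?_
    rw [Commute.app (F.KM_comm hxj hY)]
    refine (F.KM_norm hY _).trans (le_of_eq ?_)
    rw [show x L a ^ (j + 1) = x L a ^ j * x L a from pow_succ _ _]
    rfl

lemma null_aux {l : Filter ℕ} (hl : l ≤ atTop) (c : ℝ) :
    Tendsto (fun n : ℕ => c * (1 / ((n : ℝ) + 1))) l (𝓝 0) := by
  have h1 := (tendsto_one_div_add_atTop_nhds_zero_nat (𝕜 := ℝ)).const_mul c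
  rw [mul_zero] at h1
  exact h1.mono_left hl

lemma null_E {l : Filter ℕ} (hl : l ≤ atTop) (d : Bool × ℕ × ℕ) (a : ℕ)
    (σ : ℕ → ℕ → ℕ) (hσ : ∀ n s, s < n → σ n s < n + a)
    (hσi : ∀ n s t, s < n → t < n → σ n s = σ n t → s = t)
    (hk : ∀ n s, s < n → ∀ b, X b (ix (n + a) (σ n s)) = X b (ix n s) * X b d) (g : H) :
    Tendsto (fun n => ‖Z L a n (RK (L d) g)‖) l (𝓝 0) := by
  refine sq_null (fun _ => norm_nonneg _) ?_
  refine squeeze_zero (fun n => sq_nonneg _) (fun n => ?_) (F.null_aux hl (5 * ‖g‖ ^ 2))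
  have h1 : Z L a n (RK (L d) g) = RK (L d) (Z L a n g) :=
    (Commute.app (F.cRK (KM_mem d) (Z_mem a n)) g).symm
  rw [h1]
  have h2 := F.normRK_sq (KM_mem d) (Z L a n g)
  have h3 := F.DK_two (ix n) (ix (n + a)) n (n + a) (σ n) (hσ n) (hσi n) d (hk n) g
  change (n : ℝ) * (‖Z L a n g‖ ^ 2 - ‖L d (Z L a n g)‖ ^ 2) ≤ _ at h3
  have h4 : ‖Z L a n g‖ ^ 2 ≤ ‖g‖ ^ 2 :=
    pow_le_pow_left₀ (norm_nonneg _) (F.KM_norm (Z_mem a n) g) 2
  have h5 := sq_nonneg ‖L d (Z L a n g)‖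
  rw [mul_one_div, le_div_iff₀ (by positivity : (0 : ℝ) < (n : ℝ) + 1)]
  have h6 : (0 : ℝ) ≤ (n : ℝ) + 1 := by positivity
  nlinarith [mul_le_mul_of_nonneg_left h2 h6]

lemma null0 {l : Filter ℕ} (hl : l ≤ atTop) (a : ℕ) (g : H) :
    Tendsto (fun n => ‖Z L a n (RK (A3 L a 0) g)‖) l (𝓝 0) := by
  refine F.null_E hl (false, a, 0) a (fun _ s => s) (fun n s hs => by omega)
    (fun n s t _ _ h => h) ?_ g
  intro n s hs b
  have h1 := F.add b true (n - 1 - s) s a 0
  refine Eq.trans ?_ h1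
  have e : ix (n + a) s = (true, n - 1 - s + a, s + 0) := by
    unfold ix
    congr 2
    omega
  rw [e]

lemma null1 {l : Filter ℕ} (hl : l ≤ atTop) (a : ℕ) (g : H) :
    Tendsto (fun n => ‖Z L a n (RK (A3 L a 1) g)‖) l (𝓝 0) := by
  refine F.null_E hl (false, 0, a) a (fun _ s => s + a) (fun n s hs => by omega)
    (fun n s t _ _ h => by omega) ?_ g
  intro n s hs b
  have h1 := F.add b true (n - 1 - s) s 0 a
  refine Eq.trans ?_ h1
  have e : ix (n + a) (s + a) = (true, n - 1 - s + 0, s + a) := by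
    unfold ix
    congr 2
    omega
  show X b (ix (n + a) (s + a)) = _
  rw [e]

lemma null2 {l : Filter ℕ} (hl : l ≤ atTop) (a : ℕ) (ha1 : 1 ≤ a) (ha : ∀ᶠ n in l, a ∣ n)
    (g : H) : Tendsto (fun n => ‖Z L a n (RK (A3 L a 2) g)‖) l (𝓝 0) := by
  show Tendsto (fun n => ‖Z L a n (RK (x L a) g)‖) l (𝓝 0)
  obtain ⟨y, z, hyz, hy, hz⟩ := exists_decomp
    (fun i : Bool => RK (A3 L a (if i then 0 else 1))) g
  have hy' : N L a y := ⟨(RK_zero _ y).mp (hy true), (RK_zero _ y).mp (hy false)⟩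
  have h1 : Tendsto (fun n => ‖Z L a n z‖) l (𝓝 0) :=
    null_of_perp (fun n => Z L a n) (fun n g => F.KM_norm (Z_mem a n) g)
      (fun i : Bool => RK (A3 L a (if i then 0 else 1)))
      (fun _ => RK_star _) (fun i x => by
        cases i with
        | true => exact F.null0 hl a x
        | false => exact F.null1 hl a x) z hz
  have h2 : Tendsto (fun n => ‖Z L a n (RK (x L a) y)‖) l (𝓝 0) := by
    refine sq_null (fun _ => norm_nonneg _) ?_
    refine squeeze_zero' (Filter.Eventually.of_forall fun n => sq_nonneg _) ?_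
      (F.null_aux hl (‖y‖ ^ 2 * a))
    filter_upwards [ha] with n hn
    obtain ⟨j, hj⟩ := hn
    have hj' : n + a = (j + 1) * a := by rw [hj]; ring
    have hR : N L a (RK (x L a) y) :=
      ⟨hy'.1.map (F.cRK (x_mem a) (KM_mem _)).symm (F.cRK (x_mem a) (KM_star (KM_mem _))).symm,
        hy'.2.map (F.cRK (x_mem a) (KM_mem _)).symm (F.cRK (x_mem a) (KM_star (KM_mem _))).symm⟩
    have h3 : ‖Z L a n (RK (x L a) y)‖ ≤ ‖(x L a ^ (j + 1)) (RK (x L a) y)‖ := by
      refine (F.KM_norm (KM_star (x_mem n)) _).trans ?_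
      rw [hj']
      exact F.x_le a (j + 1) _ hR
    have h4 := F.RK_decay (x_mem a) (j + 1) y
    have h5 := pow_le_pow_left₀ (norm_nonneg _) h3 2
    refine h5.trans (h4.trans ?_)
    rw [mul_assoc]
    refine mul_le_mul_of_nonneg_left ?_ (sq_nonneg _)
    rw [mul_one_div, div_le_div_iff₀ (by positivity) (by positivity)]
    rw [hj]
    push_cast
    have e1 : (1 : ℝ) ≤ a := by exact_mod_cast ha1
    nlinarith
  have h3 := h1.add h2
  rw [add_zero] at h3
  refine squeeze_zero (fun n => norm_nonneg _) (fun n => ?_) h3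
  rw [hyz, map_add, map_add, add_comm (Z L a n (RK (x L a) y))]
  refine (norm_add_le _ _).trans ?_
  have h4 : Z L a n (RK (x L a) z) = RK (x L a) (Z L a n z) :=
    (Commute.app (F.cRK (x_mem a) (Z_mem a n)) z).symm
  rw [h4]
  have := F.normRK (x_mem (L := L) a) (Z L a n z)
  linarith

lemma null {l : Filter ℕ} (hl : l ≤ atTop) (a : ℕ) (ha1 : 1 ≤ a) (ha : ∀ᶠ n in l, a ∣ n) (z : H)
    (hz : ∀ k, (∀ i, RK (A3 L a i) k = 0) → ⟪z, k⟫_ℝ = 0) :
    Tendsto (fun n => ‖Z L a n z‖) l (𝓝 0) := by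
  refine null_of_perp (fun n => Z L a n) (fun n g => F.KM_norm (Z_mem a n) g)
    (fun i => RK (A3 L a i)) (fun _ => RK_star _) ?_ z hz
  intro i x
  match i with
  | 0 => exact F.null0 hl a x
  | 1 => exact F.null1 hl a x
  | 2 => exact F.null2 hl a ha1 ha x

omit F in
lemma A3_S (a : ℕ) (g : H) : (∀ i, RK (A3 L a i) g = 0) ↔ S L a g := by
  constructor
  · intro h
    exact ⟨⟨(RK_zero _ g).mp (h 0), (RK_zero _ g).mp (h 1)⟩, (RK_zero _ g).mp (h 2)⟩
  · intro h i
    match i with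
    | 0 => exact (RK_zero _ g).mpr h.1.1
    | 1 => exact (RK_zero _ g).mpr h.1.2
    | 2 => exact (RK_zero _ g).mpr h.2

end Fam3

end Pool.Agent.Lib.MP_018e2a_an.SPL
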