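import Mathlib
import Pool.Agent.Lib.MP_018e2a_an.SPL.Three

/-!
# The limit of `x n` along an idempotent ultrafilter is a projection
-/

set_option autoImplicit false
set_option linter.unusedSectionVars false

namespace Pool.Agent.Lib.MP_018e2a_an.SPL

open Filter Topology InnerProductSpace
open Pool.Agent.Lib.MP_018e2a_an.TH

variable {H : Type*} [NormedAddCommGroup H] [InnerProductSpace ℝ H] [CompleteSpace H]

namespace Fam3

variable {p : Ultrafilter ℕ}
variable {X : ℕ → Bool × ℕ × ℕ → (H →L[ℝ] H)} {L : Bool × ℕ × ℕ → (H →L[ℝ] H)}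
variable (F : Fam3 p X L)
variable {q : Ultrafilter ℕ} (hq : Idem q)
  (hqa : ∀ a : ℕ, 1 ≤ a → ∀ᶠ n in (q : Filter ℕ), 0 < n ∧ a ∣ n)
include F

/-- vectors moved little by the powers of `Y a` -/
def Gd (q : Ultrafilter ℕ) (L : Bool × ℕ × ℕ → (H →L[ℝ] H)) (a : ℕ) (g : H) : Prop :=
  S L a g ∧ Tendsto (fun n => ‖(Y L a ^ n) g - g‖) q (𝓝 0)

lemma norm_x (n : ℕ) (g : H) : ‖x L n g‖ ≤ ‖g‖ := F.KM_norm (x_mem n) g

include hq in
lemma Gd_lim (a : ℕ) (E : H →L[ℝ] H) (hE : IsW q (fun n => Y L a ^ n) E) (u : H)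
    (hu : S L a u) : Gd q L a (E u) := by
  have h1 : ∀ {A : H →L[ℝ] H}, A ∈ KM L → Commute A E := fun {A} hA =>
    (hE.commute fun n => (F.KM_comm hA ((KM L).pow_mem (Y_mem a) n)).symm).symm
  have h2 : ∀ {A : H →L[ℝ] H}, A ∈ KM L → Commute (star A) E := fun {A} hA => h1 (KM_star hA)
  exact ⟨⟨⟨hu.1.1.map (h1 (KM_mem _)) (h2 (KM_mem _)), hu.1.2.map (h1 (KM_mem _)) (h2 (KM_mem _))⟩,
    hu.2.map (h1 (x_mem a)) (h2 (x_mem a))⟩, idem_lim hq _ E (F.KM_norm (Y_mem a)) hE u⟩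

include hq hqa in
/-- the limits of the correlations vanish off the spaces `Gd` -/
lemma corr (hl : (q : Filter ℕ) ≤ atTop) (a : ℕ) (ha : 1 ≤ a) (g : H)
    (hg : ∀ z, Gd q L a z → ⟪g, z⟫_ℝ = 0) :
    Tendsto (fun n => ⟪x L (a + n) g, x L n g⟫_ℝ) q (𝓝 0) := by
  have hdiv : ∀ᶠ n in (q : Filter ℕ), a ∣ n := (hqa a ha).mono fun n hn => hn.2
  obtain ⟨y, z, hyz, hy, hz⟩ := exists_decomp (fun i => RK (A3 L a i)) g
  have hyS : S L a y := (A3_S a y).mp hy
  have h1 := F.null hl a ha hdiv z hz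
  obtain ⟨E, hE⟩ := exists_isW q (fun n => Y L a ^ n)
    (fun n g => norm_pow_le (F.KM_norm (Y_mem a)) n g)
  set u : H := x L a y with hu
  have huS : S L a u := F.S_K a (x_mem a) y hyS
  have hEu : Gd q L a (E u) := F.Gd_lim hq a E hE u huS
  -- the limit of the near part
  have h2 : Tendsto (fun n => ⟪(Y L a ^ n) u, y⟫_ℝ) q (𝓝 0) := by
    have h3 := hE u y
    have h4 : ⟪E u, y⟫_ℝ = 0 := by
      have h5 : ⟪z, E u⟫_ℝ = 0 := hz _ ((A3_S a _).mpr hEu.1)
      have h6 := hg _ hEu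
      rw [hyz, inner_add_left, h5, add_zero, real_inner_comm] at h6
      exact h6
    rw [h4] at h3
    exact h3
  -- the far part
  have h3 : Tendsto (fun n => ⟪Z L a n z, g⟫_ℝ) q (𝓝 0) := by
    have h4 := h1.mul_const ‖g‖
    rw [zero_mul] at h4
    refine squeeze_zero_norm (fun n => ?_) h4
    rw [Real.norm_eq_abs]
    exact abs_real_inner_le_norm _ _
  have h4 := h3.add h2
  rw [add_zero] at h4
  refine h4.congr' ?_
  filter_upwards [hdiv] with n hn
  obtain ⟨j, hj⟩ := hn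
  have hj' : n = j * a := by rw [hj]; ring
  have e0 : ⟪x L (a + n) g, x L n g⟫_ℝ = ⟪Z L a n g, g⟫_ℝ := by
    rw [add_comm a n, ← star_inner_left]
    rfl
  rw [e0]
  have h5 : ⟪Z L a n g, g⟫_ℝ = ⟪Z L a n z, g⟫_ℝ + ⟪Z L a n y, g⟫_ℝ := by
    conv_lhs => rw [hyz, map_add, inner_add_left]
    rw [← hyz, add_comm]
  rw [h5]
  congr 1
  -- the near part
  have h6 : S L a (Z L a n y) := F.S_K a (Z_mem a n) y hyS
  have h7 : ⟪Z L a n y, g⟫_ℝ = ⟪Z L a n y, y⟫_ℝ := by
    have h8 : ⟪z, Z L a n y⟫_ℝ = 0 := hz _ ((A3_S a _).mpr h6)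
    have h9 : ⟪Z L a n y, z⟫_ℝ = 0 := by
      rw [real_inner_comm]
      exact h8
    conv_lhs => rw [hyz, inner_add_right, h9, add_zero]
  rw [h7]
  have h8 : ⟪Z L a n y, y⟫_ℝ = ⟪x L (n + a) y, x L n y⟫_ℝ := by
    rw [← star_inner_left]
    rfl
  rw [h8, F.x_add_near a j 1 n a hj' (by ring) y hyS.1, one_mul]
  have h9 : Iso (x L n) y := by
    rw [hj']
    exact F.x_iso a j y hyS
  exact (h9.inner _).symm

include hq hqa in
/-- van der Corput: the limit vanishes off the spaces `Gd` -/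
lemma zero_of_perp (hl : (q : Filter ℕ) ≤ atTop) (g : H)
    (hg : ∀ a, 1 ≤ a → ∀ z, Gd q L a z → ⟪g, z⟫_ℝ = 0) (h : H) (t : ℝ)
    (ht : Tendsto (fun n => ⟪x L n g, h⟫_ℝ) q (𝓝 t)) : t = 0 := by
  obtain ⟨r, -, hr⟩ := exists_lim q (fun n => ⟪x L (0 + n) g, x L n g⟫_ℝ) (‖g‖ * ‖g‖) (by
    intro m
    refine (abs_real_inner_le_norm _ _).trans ?_
    exact mul_le_mul (F.norm_x _ _) (F.norm_x _ _) (norm_nonneg _) (norm_nonneg _))
  have h1 := vdc hq (fun n => x L n g) ‖g‖ (fun n => F.norm_x n g) h t ht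
    (fun a => if a = 0 then r else 0) (by
      intro a
      by_cases ha : a = 0
      · subst ha
        rw [if_pos rfl]
        exact hr
      · rw [if_neg ha]
        exact F.corr hq hqa hl a (Nat.one_le_iff_ne_zero.mpr ha) g
          (hg a (Nat.one_le_iff_ne_zero.mpr ha))) 0 (by
      refine tendsto_const_nhds.congr' ?_
      filter_upwards [hqa 1 le_rfl] with a ha
      rw [if_neg ha.1.ne'])
  rw [mul_zero] at h1
  have h2 : t ^ 2 = 0 := le_antisymm h1 (sq_nonneg t)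
  exact pow_eq_zero_iff two_ne_zero |>.mp h2

include hq hqa in
/-- on `Gd` the limit is idempotent -/
lemma idem_Gd (Q : H →L[ℝ] H) (hQ : IsW q (fun n => x L n) Q) (a : ℕ) (ha : 1 ≤ a) (g : H)
    (hg : Gd q L a g) : Q (Q g) = Q g := by
  refine ext_inner_right ℝ fun k => ?_
  have h1 : ∀ d, ∃ r : ℝ, |r| ≤ ‖g‖ * ‖k‖ ∧
      Tendsto (fun n => ⟪x L (d + n) g, k⟫_ℝ) q (𝓝 r) := by
    intro d
    refine exists_lim q _ _ ?_
    intro m
    refine (abs_real_inner_le_norm _ _).trans ?_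
    exact mul_le_mul_of_nonneg_right (F.norm_x _ _) (norm_nonneg _)
  choose y hy hy' using h1
  have h2 : Tendsto y q (𝓝 ⟪Q g, k⟫_ℝ) := hq.lim (hQ g k) hy'
  have h3 : ∀ᶠ d in (q : Filter ℕ), y d = ⟪x L d g, (star Q) k⟫_ℝ := by
    filter_upwards [hqa a ha] with d hd
    obtain ⟨m, hm⟩ := hd.2
    have hm' : d = m * a := by rw [hm]; ring
    have h4 := hQ (x L d g) k
    rw [← star_inner_right] at h4
    refine tendsto_nhds_unique (hy' d) ?_
    -- difference
    have h5 : Tendsto (fun n => ⟪x L (d + n) g - x L n (x L d g), k⟫_ℝ) q (𝓝 0) := by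
      have h6 := (hg.2.const_mul (m : ℝ)).mul_const ‖k‖
      rw [mul_zero, zero_mul] at h6
      refine squeeze_zero_norm' ?_ h6
      filter_upwards [hqa a ha] with n hn
      obtain ⟨j, hj⟩ := hn.2
      have hj' : n = j * a := by rw [hj]; ring
      rw [Real.norm_eq_abs]
      refine (abs_real_inner_le_norm _ _).trans ?_
      refine mul_le_mul_of_nonneg_right ?_ (norm_nonneg _)
      have e3 : x L (d + n) g = x L n ((Y L a ^ (m * n)) (x L d g)) := by
        rw [add_comm d n, F.x_add_near a j m n d hj' hm' g hg.1.1]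
      rw [e3, ← map_sub]
      refine (F.norm_x _ _).trans ?_
      have e5 : (Y L a ^ (m * n)) (x L d g) - x L d g =
          x L d (((Y L a ^ n) ^ m) g - g) := by
        rw [map_sub, ← pow_mul, mul_comm n m]
        congr 1
        exact (Commute.app (F.KM_comm (x_mem d) ((KM L).pow_mem (Y_mem a) (m * n))) g).symm
      rw [e5]
      refine (F.norm_x _ _).trans ?_
      exact pow_sub_le (fun g => norm_pow_le (F.KM_norm (Y_mem a)) n g) m g
    have h6 := h5.add h4
    rw [zero_add] at h6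
    refine h6.congr fun n => ?_
    show ⟪x L (d + n) g - x L n (x L d g), k⟫_ℝ + ⟪x L n (x L d g), k⟫_ℝ = _
    rw [← inner_add_left, sub_add_cancel]
  have h4 : Tendsto y q (𝓝 ⟪Q g, (star Q) k⟫_ℝ) := (hQ g ((star Q) k)).congr' (by
    filter_upwards [h3] with d hd
    exact hd.symm)
  rw [tendsto_nhds_unique h2 h4, star_inner_right]

include hq hqa in
theorem idem (hl : (q : Filter ℕ) ≤ atTop) (Q : H →L[ℝ] H) (hQ : IsW q (fun n => x L n) Q) :
    Q * Q = Q := by
  ext g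
  obtain ⟨y, z, hyz, hy, hz⟩ := exists_decomp (fun _ : Unit => Q * Q - Q) g
  have h2 : Q z = 0 := by
    refine ext_inner_right ℝ fun k => ?_
    rw [inner_zero_left]
    refine F.zero_of_perp hq hqa hl z ?_ k _ (hQ z k)
    intro a ha w hw
    refine hz w fun _ => ?_
    show Q (Q w) - Q w = 0
    rw [F.idem_Gd hq hqa Q hQ a ha w hw, sub_self]
  have h3 : z = 0 := by
    have h4 : ⟪z, z⟫_ℝ = 0 := by
      refine hz z fun _ => ?_
      show Q (Q z) - Q z = 0
      rw [h2, map_zero, sub_self]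
    exact inner_self_eq_zero.mp h4
  have h4 : (Q * Q - Q) y = 0 := hy ()
  have h5 : Q (Q y) = Q y := sub_eq_zero.mp h4
  rw [hyz, h3, add_zero]
  exact h5

end Fam3

/-- extraction of an increasing sequence from a product of weak limits -/
lemma extract3 {G I : Type*} [CommMonoid G] (U : G → (H →L[ℝ] H)) (hU1 : ∀ g, U 1 g = g)
    (hUm : ∀ c d g, U (c * d) g = U c (U d g)) (v : ℕ → I → G) (P : I → (H →L[ℝ] H))
    (hc : ∀ i j, Commute (P i) (P j))
    (h : ∀ i, IsW (hyperfilter ℕ) (fun b => U (v b i)) (P i)) (n : ℕ) (φ : ℕ → I) (f g : H)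
    (c : ℝ) (hcc : c < ⟪pr P φ n g, f⟫_ℝ) (M : ℕ) :
    ∃ b : ℕ → ℕ, StrictMono b ∧ (∀ s, M < b s) ∧
      c < ⟪U (∏ s ∈ Finset.range n, v (b s) (φ s)) g, f⟫_ℝ := by
  induction n generalizing φ f M with
  | zero =>
    refine ⟨fun s => M + 1 + s, fun s t h => Nat.add_lt_add_left h _, fun s => by
      show M < M + 1 + s
      omega, ?_⟩
    rw [Finset.range_zero, Finset.prod_empty, hU1]
    exact hcc
  | succ n ih =>
    have hpc : ∀ (ψ : ℕ → I) (m : ℕ) (i : I), Commute (pr P ψ m) (P i) := by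
      intro ψ m i
      induction m with
      | zero => exact Commute.one_left _
      | succ m ihm => exact (hc _ _).mul_left ihm
    have e0 : pr P φ (n + 1) = P (φ 0) * pr P (fun s => φ (1 + s)) n := by
      rw [add_comm n 1, pr_add]
      have : pr P φ 1 = P (φ 0) := mul_one _
      rw [this, (hpc _ _ _).eq]
    have h2 : c < ⟪P (φ 0) (pr P (fun s => φ (1 + s)) n g), f⟫_ℝ := by
      rw [e0] at hcc
      exact hcc
    have h4 : ∀ᶠ b in (hyperfilter ℕ : Filter ℕ),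
        c < ⟪U (v b (φ 0)) (pr P (fun s => φ (1 + s)) n g), f⟫_ℝ :=
      (h (φ 0) _ _).eventually (lt_mem_nhds h2)
    have h5 : ∀ᶠ b in (hyperfilter ℕ : Filter ℕ), M < b := by
      have h6 : (hyperfilter ℕ : Filter ℕ) ≤ atTop := by
        rw [← Nat.cofinite_eq_atTop]
        exact hyperfilter_le_cofinite
      exact h6 (Filter.eventually_gt_atTop M)
    obtain ⟨b0, hb, hbM⟩ := (h4.and h5).exists
    rw [← ContinuousLinearMap.adjoint_inner_right] at hb
    obtain ⟨b, hb1, hb2, hb3⟩ := ih (fun s => φ (1 + s)) _ hb b0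
    refine ⟨fun s => Nat.casesOn s b0 b, ?_, ?_, ?_⟩
    · refine strictMono_nat_of_lt_succ fun s => ?_
      cases s with
      | zero => exact hb2 0
      | succ s => exact hb1 (Nat.lt_succ_self s)
    · intro s
      cases s with
      | zero => exact hbM
      | succ s => exact hbM.trans (hb2 s)
    · rw [Finset.prod_range_succ', mul_comm, hUm, ← ContinuousLinearMap.adjoint_inner_right]
      have e1 : ∏ k ∈ Finset.range n, v (b k) (φ (1 + k)) =
          ∏ k ∈ Finset.range n, v (b k) (φ (k + 1)) :=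
        Finset.prod_congr rfl fun k _ => by rw [add_comm]
      rw [e1] at hb3
      exact hb3

/-- **Positivity**: the Hilbert space form of the theorem. -/
theorem hilb2 {G : Type*} [CommMonoid G] (U : G → (H →L[ℝ] H))
    (hU : ∀ c g h, ⟪U c g, U c h⟫_ℝ = ⟪g, h⟫_ℝ) (hU1 : ∀ g, U 1 g = g)
    (hUm : ∀ c d g, U (c * d) g = U c (U d g)) (hUs : ∀ c g, ∃ g', U c g' = g)
    (D E F : ℕ → G) (f o : H) (ho : ∀ c, U c o = o) (hn : ‖o‖ = 1) (ε : ℝ) (hε : 0 < ε) :
    ∃ n, 1 ≤ n ∧ ∃ b : ℕ → ℕ, StrictMono b ∧ ⟪f, o⟫_ℝ ^ 2 - ε ≤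
      ⟪U (∏ s ∈ Finset.range n, D (b s) * E (b s) ^ (n - 1 - s) * F (b s) ^ s) f, f⟫_ℝ := by
  have hUmul : ∀ c d, U (c * d) = U c * U d := by
    intro c d
    ext g
    exact hUm c d g
  have hcomm : ∀ c d, Commute (U c) (U d) := by
    intro c d
    show U c * U d = U d * U c
    rw [← hUmul, ← hUmul, mul_comm]
  have hstar : ∀ c, star (U c) * U c = 1 := by
    intro c
    ext g
    refine ext_inner_right ℝ fun k => ?_
    show ⟪(star (U c)) (U c g), k⟫_ℝ = ⟪g, k⟫_ℝ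
    rw [star_inner_left, hU]
  have hunit : ∀ c, U c * star (U c) = 1 := by
    intro c
    ext g
    obtain ⟨g', hg'⟩ := hUs c g
    show U c ((star (U c)) g) = g
    rw [← hg']
    have : (star (U c)) (U c g') = g' := congrArg (fun T : H →L[ℝ] H => T g') (hstar c)
    rw [this]
  have hnorm : ∀ c g, ‖U c g‖ = ‖g‖ := fun c g => norm_eq_of_inner (hU c) g
  let v : ℕ → Bool × ℕ × ℕ → G := fun b i => (if i.1 then D b else 1) * E b ^ i.2.1 * F b ^ i.2.2
  have hL : ∀ i : Bool × ℕ × ℕ,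
      ∃ Z : H →L[ℝ] H, IsW (hyperfilter ℕ) (fun b => U (v b i)) Z := fun i =>
    exists_isW _ _ fun b g => (hnorm _ g).le
  choose L hL' using hL
  have F3 : Fam3 (hyperfilter ℕ) (fun b i => U (v b i)) L :=
    { inner := fun b i g h => hU _ g h
      unit := fun b i => hunit _
      comm := fun b m c n => hcomm _ _
      w := hL'
      add := by
        intro b s k l k' l'
        rw [← hUmul]
        congr 1
        show _ * E b ^ (k + k') * F b ^ (l + l') = (_ * E b ^ k * F b ^ l) *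
          ((if false = true then D b else 1) * E b ^ k' * F b ^ l')
        simp only [pow_add]
        simp only [Bool.false_eq_true, if_false, one_mul]
        ac_rfl }
  obtain ⟨q, hq, hqa⟩ := exists_idem
  have hl : (q : Filter ℕ) ≤ atTop := by
    rw [Filter.le_def]
    intro s hs
    obtain ⟨N, hN⟩ := Filter.mem_atTop_sets.mp hs
    have h1 := hqa (N + 1) (by omega)
    refine h1.mono fun n hn => hN n ?_
    have := Nat.le_of_dvd hn.1 hn.2
    omega
  obtain ⟨Q, hQ⟩ := exists_isW q (fun n => Fam3.x L n) (fun n g => F3.norm_x n g)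
  have hQQ := F3.idem hq hqa hl Q hQ
  have hQn : ∀ g, ‖Q g‖ ≤ ‖g‖ := hQ.norm_le fun n g => F3.norm_x n g
  have hLo : ∀ i, L i o = o := by
    intro i
    refine ext_inner_right ℝ fun k => ?_
    refine tendsto_nhds_unique (hL' i o k) ?_
    refine tendsto_const_nhds.congr fun b => ?_
    rw [ho]
  have hpro : ∀ (φ : ℕ → Bool × ℕ × ℕ) (n : ℕ), pr L φ n o = o := by
    intro φ n
    induction n with
    | zero => rfl
    | succ n ih =>
      show L (φ n) (pr L φ n o) = o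
      rw [ih, hLo]
  have hQo : Q o = o := by
    refine ext_inner_right ℝ fun k => ?_
    refine tendsto_nhds_unique (hQ o k) ?_
    refine tendsto_const_nhds.congr fun n => ?_
    show ⟪o, k⟫_ℝ = ⟪Fam3.x L n o, k⟫_ℝ
    rw [show Fam3.x L n o = o from hpro _ _]
  have h1 := proj_ge Q hQn hQQ o hQo hn f
  have h2 : ⟪f, o⟫_ℝ ^ 2 - ε < ⟪Q f, f⟫_ℝ := by linarith
  obtain ⟨n, hn1, hn2⟩ := (((hQ f f).eventually (lt_mem_nhds h2)).and (hqa 1 le_rfl)).exists
  obtain ⟨b, hb1, -, hb3⟩ := extract3 U hU1 hUm v L (fun i j => F3.cPP i j) hL' n (Fam3.ix n) f f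
    _ hn1 0
  refine ⟨n, hn2.1, b, hb1, ?_⟩
  have e1 : ∏ s ∈ Finset.range n, v (b s) (Fam3.ix n s) =
      ∏ s ∈ Finset.range n, D (b s) * E (b s) ^ (n - 1 - s) * F (b s) ^ s :=
    Finset.prod_congr rfl fun s _ => by
      show (if true = true then D (b s) else 1) * E (b s) ^ (n - 1 - s) * F (b s) ^ s = _
      rw [if_pos rfl]
  rw [e1] at hb3
  exact hb3.le

end Pool.Agent.Lib.MP_018e2a_an.SPL
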