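import Mathlib
import Pool.Agent.Lib.MP_018e2a_an.SPL.Limit

/-!
# Unitary dilation of commuting isometries: `hilb2` without invertibility
-/

set_option autoImplicit false

namespace Pool.Agent.Lib.MP_018e2a_an.SPL.Dil

open Filter Topology InnerProductSpace

set_option linter.unusedSectionVars false

section dil

variable {G : Type*} [CommMonoid G] {H : Type*} [NormedAddCommGroup H] [InnerProductSpace ℝ H]

/-- multiplicative family of isometries -/
structure Good (U : G → (H →L[ℝ] H)) : Prop where
  hU : ∀ c g h, ⟪U c g, U c h⟫_ℝ = ⟪g, h⟫_ℝ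
  hUm : ∀ c d g, U (c * d) g = U c (U d g)

/-- formal sums of `U g ⁻¹ h` -/
def Pre (_U : G → (H →L[ℝ] H)) := G →₀ H

noncomputable instance (U : G → (H →L[ℝ] H)) : AddCommGroup (Pre U) :=
  inferInstanceAs (AddCommGroup (G →₀ H))

noncomputable instance (U : G → (H →L[ℝ] H)) : Module ℝ (Pre U) :=
  inferInstanceAs (Module ℝ (G →₀ H))

/-- the form on formal sums -/
noncomputable def form (U : G → (H →L[ℝ] H)) (x y : G →₀ H) : ℝ :=
  x.sum fun g h => y.sum fun g' h' => ⟪U g' h, U g h'⟫_ℝ

lemma form_comm (U : G → (H →L[ℝ] H)) (x y : G →₀ H) : form U x y = form U y x := by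
  unfold form
  rw [Finsupp.sum_comm]
  simp only [real_inner_comm]

lemma form_add_left (U : G → (H →L[ℝ] H)) (x y z : G →₀ H) :
    form U (x + y) z = form U x z + form U y z := by
  unfold form
  rw [Finsupp.sum_add_index']
  · intro g; simp
  · intro g h h'
    rw [← Finsupp.sum_add]
    simp only [map_add, inner_add_left]

lemma form_smul_left (U : G → (H →L[ℝ] H)) (r : ℝ) (x y : G →₀ H) :
    form U (r • x) y = r * form U x y := by
  unfold form
  rw [Finsupp.sum_smul_index']
  · simp only [Finsupp.sum, map_smul, real_inner_smul_left, Finset.mul_sum]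
  · intro g; simp

lemma form_single (U : G → (H →L[ℝ] H)) (g g' : G) (h h' : H) :
    form U (Finsupp.single g h) (Finsupp.single g' h') = ⟪U g' h, U g h'⟫_ℝ := by
  unfold form
  rw [Finsupp.sum_single_index, Finsupp.sum_single_index] <;> simp

lemma form_nonneg {U : G → (H →L[ℝ] H)} (hG : Good U) (x : G →₀ H) : 0 ≤ form U x x := by
  classical
  have h1 : ∀ g : G, ∃ r : G, g ∈ x.support → ∏ a ∈ x.support, a = g * r := by
    intro g
    by_cases hg : g ∈ x.support
    · obtain ⟨r, hr⟩ := Finset.dvd_prod_of_mem (fun a : G => a) hg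
      exact ⟨r, fun _ => hr⟩
    · exact ⟨1, fun h => absurd h hg⟩
  choose r hr using h1
  set P := ∏ a ∈ x.support, a
  have key : ∀ g ∈ x.support, ∀ g' ∈ x.support,
      ⟪U g' (x g), U g (x g')⟫_ℝ = ⟪U (r g) (x g), U (r g') (x g')⟫_ℝ := by
    intro g hg g' hg'
    rw [← hG.hU (g * g') (U (r g) (x g)) (U (r g') (x g')), ← hG.hUm, ← hG.hUm]
    have e1 : g * g' * r g = P * g' := by
      rw [hr g hg]
      exact mul_right_comm _ _ _
    have e2 : g * g' * r g' = P * g := by
      rw [hr g' hg', mul_assoc, mul_comm]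
    rw [e1, e2, hG.hUm, hG.hUm, hG.hU]
  have h2 : form U x x = ⟪∑ g ∈ x.support, U (r g) (x g), ∑ g ∈ x.support, U (r g) (x g)⟫_ℝ := by
    unfold form Finsupp.sum
    rw [sum_inner]
    refine Finset.sum_congr rfl fun g hg => ?_
    rw [inner_sum]
    exact Finset.sum_congr rfl fun g' hg' => key g hg g' hg'
  rw [h2]
  exact real_inner_self_nonneg

/-- `U_a` followed by `U_b ⁻¹` on formal sums -/
noncomputable def Lab (U : G → (H →L[ℝ] H)) (a b : G) : (G →₀ H) →ₗ[ℝ] (G →₀ H) :=
  (Finsupp.lmapDomain H ℝ (fun g => b * g)) ∘ₗ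
    (Finsupp.mapRange.linearMap (U a : H →ₗ[ℝ] H))

lemma Lab_single (U : G → (H →L[ℝ] H)) (a b g : G) (h : H) :
    Lab U a b (Finsupp.single g h) = Finsupp.single (b * g) (U a h) := by
  unfold Lab
  rw [LinearMap.comp_apply, Finsupp.mapRange.linearMap_apply, Finsupp.mapRange_single,
    Finsupp.lmapDomain_apply, Finsupp.mapDomain_single]
  rfl

lemma form_add_right (U : G → (H →L[ℝ] H)) (x y z : G →₀ H) :
    form U x (y + z) = form U x y + form U x z := by
  rw [form_comm, form_add_left, form_comm, form_comm U z]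

lemma form_zero_left (U : G → (H →L[ℝ] H)) (y : G →₀ H) : form U 0 y = 0 := by
  unfold form
  exact Finsupp.sum_zero_index

lemma form_zero_right (U : G → (H →L[ℝ] H)) (y : G →₀ H) : form U y 0 = 0 := by
  rw [form_comm, form_zero_left]

lemma form_Lab {U : G → (H →L[ℝ] H)} (hG : Good U) (a b : G) (x y : G →₀ H) :
    form U (Lab U a b x) (Lab U a b y) = form U x y := by
  induction x using Finsupp.induction_linear with
  | zero => rw [map_zero, form_zero_left, form_zero_left]
  | add x x' hx hx' => rw [map_add, form_add_left, form_add_left, hx, hx']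
  | single g h =>
    induction y using Finsupp.induction_linear with
    | zero => rw [map_zero, form_zero_right, form_zero_right]
    | add x x' hx hx' => rw [map_add, form_add_right, form_add_right, hx, hx']
    | single g' h' =>
      rw [Lab_single, Lab_single, form_single, form_single, ← hG.hUm, ← hG.hUm]
      have e1 : b * g' * a = a * b * g' := by
        rw [mul_comm (b * g') a, mul_assoc]
      have e2 : b * g * a = a * b * g := by
        rw [mul_comm (b * g) a, mul_assoc]
      rw [e1, e2, hG.hUm (a * b) g' h, hG.hUm (a * b) g h', hG.hU]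

lemma form_Lab_diag {U : G → (H →L[ℝ] H)} (hG : Good U) (a : G) (x y : G →₀ H) :
    form U (Lab U a a x) y = form U x y := by
  induction x using Finsupp.induction_linear with
  | zero => rw [map_zero]
  | add x x' hx hx' => rw [map_add, form_add_left, form_add_left, hx, hx']
  | single g h =>
    induction y using Finsupp.induction_linear with
    | zero => rw [form_zero_right, form_zero_right]
    | add x x' hx hx' => rw [form_add_right, form_add_right, hx, hx']
    | single g' h' =>
      rw [Lab_single, form_single, form_single, ← hG.hUm, mul_comm g' a, hG.hUm, hG.hUm, hG.hU]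

lemma Lab_mul {U : G → (H →L[ℝ] H)} (hG : Good U) (a b a' b' : G) (x : G →₀ H) :
    Lab U (a * a') (b * b') x = Lab U a b (Lab U a' b' x) := by
  induction x using Finsupp.induction_linear with
  | zero => simp only [map_zero]
  | add x x' hx hx' => simp only [map_add, hx, hx']
  | single g h => rw [Lab_single, Lab_single, Lab_single, hG.hUm, mul_assoc]

lemma Good.one {U : G → (H →L[ℝ] H)} (hG : Good U) (h : H) : U 1 h = h := by
  have h1 : U 1 (U 1 h) = U 1 h := by rw [← hG.hUm, mul_one]
  have h2 : ⟪U 1 h - h, U 1 h - h⟫_ℝ = 0 := by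
    rw [← hG.hU 1, map_sub, h1, sub_self, inner_zero_left]
  exact sub_eq_zero.mp (inner_self_eq_zero.mp h2)

lemma Lab_one {U : G → (H →L[ℝ] H)} (hG : Good U) (x : G →₀ H) : Lab U 1 1 x = x := by
  induction x using Finsupp.induction_linear with
  | zero => simp only [map_zero]
  | add x x' hx hx' => simp only [map_add, hx, hx']
  | single g h => rw [Lab_single, hG.one, one_mul]

variable (U : G → (H →L[ℝ] H)) [hG : Fact (Good U)]

noncomputable instance : PreInnerProductSpace.Core ℝ (Pre U) where
  inner x y := form U x y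
  conj_inner_symm x y := form_comm U y x
  re_inner_nonneg x := form_nonneg hG.out x
  add_left x y z := form_add_left U x y z
  smul_left x y r := form_smul_left U r x y

noncomputable instance : SeminormedAddCommGroup (Pre U) :=
  InnerProductSpace.Core.toSeminormedAddCommGroup (𝕜 := ℝ)

noncomputable instance : InnerProductSpace ℝ (Pre U) := .ofCore _

lemma inner_pre (x y : Pre U) : ⟪x, y⟫_ℝ = form U x y := rfl

/-- `Lab` as a bounded operator -/
noncomputable def LL (a b : G) : Pre U →L[ℝ] Pre U :=
  LinearMap.mkContinuous (show Pre U →ₗ[ℝ] Pre U from Lab U a b) 1 (by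
    intro x
    rw [one_mul, norm_eq_sqrt_real_inner, norm_eq_sqrt_real_inner]
    refine Real.sqrt_le_sqrt ?_
    exact (form_Lab hG.out a b x x).le)

/-- the dilated operators -/
noncomputable def VV (c : G × G) :
    UniformSpace.Completion (Pre U) →L[ℝ] UniformSpace.Completion (Pre U) :=
  (LL U c.1 c.2).completion

lemma VV_coe (c : G × G) (x : Pre U) : VV U c (x : UniformSpace.Completion (Pre U)) =
    ((LL U c.1 c.2 x : Pre U) : UniformSpace.Completion (Pre U)) :=
  ContinuousLinearMap.completion_apply_coe _ _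

lemma VV_inner (c : G × G) (x y : UniformSpace.Completion (Pre U)) :
    ⟪VV U c x, VV U c y⟫_ℝ = ⟪x, y⟫_ℝ := by
  induction x, y using UniformSpace.Completion.induction_on₂ with
  | hp => exact isClosed_eq (by fun_prop) (by fun_prop)
  | ih x y =>
    rw [VV_coe, VV_coe, UniformSpace.Completion.inner_coe, UniformSpace.Completion.inner_coe]
    exact form_Lab hG.out _ _ x y

lemma VV_mul (c d : G × G) (x : UniformSpace.Completion (Pre U)) :
    VV U (c * d) x = VV U c (VV U d x) := by
  induction x using UniformSpace.Completion.induction_on with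
  | hp => exact isClosed_eq (by fun_prop) (by fun_prop)
  | ih x =>
    rw [VV_coe, VV_coe, VV_coe]
    congr 1
    exact Lab_mul hG.out _ _ _ _ x

lemma VV_one (x : UniformSpace.Completion (Pre U)) : VV U 1 x = x := by
  induction x using UniformSpace.Completion.induction_on with
  | hp => exact isClosed_eq (by fun_prop) (by fun_prop)
  | ih x =>
    rw [VV_coe]
    congr 1
    exact Lab_one hG.out x

lemma VV_diag (a : G) (x : UniformSpace.Completion (Pre U)) : VV U (a, a) x = x := by
  induction x using UniformSpace.Completion.induction_on with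
  | hp => exact isClosed_eq (by fun_prop) (by fun_prop)
  | ih x =>
    rw [VV_coe]
    refine UniformSpace.Completion.denseRange_coe.eq_of_inner_left ℝ fun y => ?_
    rw [UniformSpace.Completion.inner_coe, UniformSpace.Completion.inner_coe]
    exact form_Lab_diag hG.out a x y

end dil

theorem hilb3 {G : Type*} [CommMonoid G] {H : Type*} [NormedAddCommGroup H]
    [InnerProductSpace ℝ H] (U : G → (H →L[ℝ] H))
    (hU : ∀ c g h, ⟪U c g, U c h⟫_ℝ = ⟪g, h⟫_ℝ)
    (hUm : ∀ c d g, U (c * d) g = U c (U d g))
    (D E F : ℕ → G) (f o : H) (ho : ∀ c, U c o = o) (hn : ‖o‖ = 1) (ε : ℝ) (hε : 0 < ε) :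
    ∃ n : ℕ, 1 ≤ n ∧ ∃ b : ℕ → ℕ, StrictMono b ∧ ⟪f, o⟫_ℝ ^ 2 - ε ≤
      ⟪U (∏ s ∈ Finset.range n, D (b s) * E (b s) ^ (n - 1 - s) * F (b s) ^ s) f, f⟫_ℝ := by
  have hG : Good U := ⟨hU, hUm⟩
  have : Fact (Good U) := ⟨hG⟩
  let f' : Pre U := Finsupp.single (1 : G) f
  let o' : Pre U := Finsupp.single (1 : G) o
  have hinner : ∀ x y : H, form U (Finsupp.single (1 : G) x) (Finsupp.single (1 : G) y) =
      ⟪x, y⟫_ℝ := by
    intro x y
    rw [form_single, hU]
  have ho' : ∀ c : G × G, VV U c (o' : UniformSpace.Completion (Pre U)) =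
      (o' : UniformSpace.Completion (Pre U)) := by
    intro c
    rw [VV_coe]
    refine UniformSpace.Completion.denseRange_coe.eq_of_inner_left ℝ fun y => ?_
    rw [UniformSpace.Completion.inner_coe, UniformSpace.Completion.inner_coe]
    show form U (Lab U c.1 c.2 (Finsupp.single (1 : G) o)) y =
      form U (Finsupp.single (1 : G) o) y
    rw [Lab_single, ho, mul_one]
    induction y using Finsupp.induction_linear with
    | zero => rw [form_zero_right, form_zero_right]
    | add x x' hx hx' => rw [form_add_right, form_add_right, hx, hx']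
    | single g h =>
      rw [form_single, form_single, ho, hG.one]
      have h1 := hU c.2 o h
      rw [ho] at h1
      exact h1
  have hn' : ‖(o' : UniformSpace.Completion (Pre U))‖ = 1 := by
    rw [UniformSpace.Completion.norm_coe, norm_eq_sqrt_real_inner]
    show Real.sqrt (form U (Finsupp.single (1 : G) o) (Finsupp.single (1 : G) o)) = 1
    rw [hinner, real_inner_self_eq_norm_sq, hn, one_pow, Real.sqrt_one]
  have hs' : ∀ (c : G × G) (g : UniformSpace.Completion (Pre U)), ∃ g', VV U c g' = g := by
    intro c g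
    refine ⟨VV U (c.2, c.1) g, ?_⟩
    rw [← VV_mul]
    have e : c * (c.2, c.1) = (c.1 * c.2, c.1 * c.2) := by
      refine Prod.ext rfl ?_
      show c.2 * c.1 = c.1 * c.2
      exact mul_comm _ _
    rw [e, VV_diag]
  obtain ⟨n, hn1, b, hb, h⟩ := hilb2 (VV U) (VV_inner U) (VV_one U) (VV_mul U) hs'
    (fun i => ((D i, 1) : G × G)) (fun i => ((E i, 1) : G × G)) (fun i => ((F i, 1) : G × G))
    (f' : UniformSpace.Completion (Pre U)) (o' : UniformSpace.Completion (Pre U)) ho' hn' ε hε
  refine ⟨n, hn1, b, hb, ?_⟩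
  have e1 : ∏ s ∈ Finset.range n, ((D (b s), 1) : G × G) * ((E (b s), 1) : G × G) ^ (n - 1 - s) *
      ((F (b s), 1) : G × G) ^ s =
      ((∏ s ∈ Finset.range n, D (b s) * E (b s) ^ (n - 1 - s) * F (b s) ^ s, 1) : G × G) := by
    refine Prod.ext ?_ ?_
    · rw [Prod.fst_prod]
      rfl
    · rw [Prod.snd_prod]
      refine Finset.prod_eq_one fun s _ => ?_
      show (1 : G) * 1 ^ (n - 1 - s) * 1 ^ s = 1
      rw [one_pow, one_pow, mul_one, mul_one]
  rw [e1, VV_coe, UniformSpace.Completion.inner_coe, UniformSpace.Completion.inner_coe] at h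
  have e2 : ⟪f', o'⟫_ℝ = ⟪f, o⟫_ℝ := hinner f o
  rw [e2] at h
  refine h.trans_eq ?_
  show form U (Lab U _ 1 (Finsupp.single (1 : G) f)) (Finsupp.single (1 : G) f) = _
  rw [Lab_single, mul_one, hinner]

end Pool.Agent.Lib.MP_018e2a_an.SPL.Dil
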