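import Mathlib
import Pool.Agent.Lib.MP_018e2a_an.SPL.Limit

/-!
# The Hilbert space theorem with all indices beyond a prescribed bound
-/

set_option autoImplicit false
set_option linter.unusedSectionVars false

namespace Pool.Agent.Lib.MP_018e2a_an.SPL

open Filter Topology InnerProductSpace
open Pool.Agent.Lib.MP_018e2a_an.TH

variable {H : Type*} [NormedAddCommGroup H] [InnerProductSpace ℝ H] [CompleteSpace H]

/-- **Positivity**: the Hilbert space form of the theorem. -/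
theorem hilb2M {G : Type*} [CommMonoid G] (U : G → (H →L[ℝ] H))
    (hU : ∀ c g h, ⟪U c g, U c h⟫_ℝ = ⟪g, h⟫_ℝ) (hU1 : ∀ g, U 1 g = g)
    (hUm : ∀ c d g, U (c * d) g = U c (U d g)) (hUs : ∀ c g, ∃ g', U c g' = g)
    (D E F : ℕ → G) (f o : H) (ho : ∀ c, U c o = o) (hn : ‖o‖ = 1) (ε : ℝ) (hε : 0 < ε) :
    ∃ n, 1 ≤ n ∧ ∀ M : ℕ, ∃ b : ℕ → ℕ, StrictMono b ∧ (∀ s, M < b s) ∧ ⟪f, o⟫_ℝ ^ 2 - ε ≤
      ⟪U (∏ s ∈ Finset.range n, D (b s) * E (b s) ^ (n - 1 - s) * F (b s) ^ s) f, f⟫_ℝ := by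
  have hUmul : ∀ c d, U (c * d) = U c * U d := by
    intro c d
    ext g
    exact hUm c d g
  have hcomm : ∀ c d, Commute (U c) (U d) := by
    intro c d
    show U c * U d = U d * U c
    rw [← hUmul, ← hUmul, mul_comm]
  have hstar : ∀ c, star (U c) * U c = 1 := by
    intro c
    ext g
    refine ext_inner_right ℝ fun k => ?_
    show ⟪(star (U c)) (U c g), k⟫_ℝ = ⟪g, k⟫_ℝ
    rw [star_inner_left, hU]
  have hunit : ∀ c, U c * star (U c) = 1 := by
    intro c
    ext g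
    obtain ⟨g', hg'⟩ := hUs c g
    show U c ((star (U c)) g) = g
    rw [← hg']
    have : (star (U c)) (U c g') = g' := congrArg (fun T : H →L[ℝ] H => T g') (hstar c)
    rw [this]
  have hnorm : ∀ c g, ‖U c g‖ = ‖g‖ := fun c g => norm_eq_of_inner (hU c) g
  let v : ℕ → Bool × ℕ × ℕ → G := fun b i => (if i.1 then D b else 1) * E b ^ i.2.1 * F b ^ i.2.2
  have hL : ∀ i : Bool × ℕ × ℕ,
      ∃ Z : H →L[ℝ] H, IsW (hyperfilter ℕ) (fun b => U (v b i)) Z := fun i =>
    exists_isW _ _ fun b g => (hnorm _ g).le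
  choose L hL' using hL
  have F3 : Fam3 (hyperfilter ℕ) (fun b i => U (v b i)) L :=
    { inner := fun b i g h => hU _ g h
      unit := fun b i => hunit _
      comm := fun b m c n => hcomm _ _
      w := hL'
      add := by
        intro b s k l k' l'
        rw [← hUmul]
        congr 1
        show _ * E b ^ (k + k') * F b ^ (l + l') = (_ * E b ^ k * F b ^ l) *
          ((if false = true then D b else 1) * E b ^ k' * F b ^ l')
        simp only [pow_add]
        simp only [Bool.false_eq_true, if_false, one_mul]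
        ac_rfl }
  obtain ⟨q, hq, hqa⟩ := exists_idem
  have hl : (q : Filter ℕ) ≤ atTop := by
    rw [Filter.le_def]
    intro s hs
    obtain ⟨N, hN⟩ := Filter.mem_atTop_sets.mp hs
    have h1 := hqa (N + 1) (by omega)
    refine h1.mono fun n hn => hN n ?_
    have := Nat.le_of_dvd hn.1 hn.2
    omega
  obtain ⟨Q, hQ⟩ := exists_isW q (fun n => Fam3.x L n) (fun n g => F3.norm_x n g)
  have hQQ := F3.idem hq hqa hl Q hQ
  have hQn : ∀ g, ‖Q g‖ ≤ ‖g‖ := hQ.norm_le fun n g => F3.norm_x n g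
  have hLo : ∀ i, L i o = o := by
    intro i
    refine ext_inner_right ℝ fun k => ?_
    refine tendsto_nhds_unique (hL' i o k) ?_
    refine tendsto_const_nhds.congr fun b => ?_
    rw [ho]
  have hpro : ∀ (φ : ℕ → Bool × ℕ × ℕ) (n : ℕ), pr L φ n o = o := by
    intro φ n
    induction n with
    | zero => rfl
    | succ n ih =>
      show L (φ n) (pr L φ n o) = o
      rw [ih, hLo]
  have hQo : Q o = o := by
    refine ext_inner_right ℝ fun k => ?_
    refine tendsto_nhds_unique (hQ o k) ?_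
    refine tendsto_const_nhds.congr fun n => ?_
    show ⟪o, k⟫_ℝ = ⟪Fam3.x L n o, k⟫_ℝ
    rw [show Fam3.x L n o = o from hpro _ _]
  have h1 := proj_ge Q hQn hQQ o hQo hn f
  have h2 : ⟪f, o⟫_ℝ ^ 2 - ε < ⟪Q f, f⟫_ℝ := by linarith
  obtain ⟨n, hn1, hn2⟩ := (((hQ f f).eventually (lt_mem_nhds h2)).and (hqa 1 le_rfl)).exists
  refine ⟨n, hn2.1, fun M => ?_⟩
  obtain ⟨b, hb1, hb2, hb3⟩ := extract3 U hU1 hUm v L (fun i j => F3.cPP i j) hL' n (Fam3.ix n)
    f f _ hn1 M
  refine ⟨b, hb1, hb2, ?_⟩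
  have e1 : ∏ s ∈ Finset.range n, v (b s) (Fam3.ix n s) =
      ∏ s ∈ Finset.range n, D (b s) * E (b s) ^ (n - 1 - s) * F (b s) ^ s :=
    Finset.prod_congr rfl fun s _ => by
      show (if true = true then D (b s) else 1) * E (b s) ^ (n - 1 - s) * F (b s) ^ s = _
      rw [if_pos rfl]
  rw [e1] at hb3
  exact hb3.le

end Pool.Agent.Lib.MP_018e2a_an.SPL
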