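import Mathlib
import Pool.Agent.Lib.MP_018e2a_an.SPL.Dil
import Pool.Agent.Lib.MP_018e2a_an.SPL.HilbM

/-!
# `hilb2M` without invertibility
-/

set_option autoImplicit false

namespace Pool.Agent.Lib.MP_018e2a_an.SPL.Dil

open Filter Topology InnerProductSpace

theorem hilb3M {G : Type*} [CommMonoid G] {H : Type*} [NormedAddCommGroup H]
    [InnerProductSpace ℝ H] (U : G → (H →L[ℝ] H))
    (hU : ∀ c g h, ⟪U c g, U c h⟫_ℝ = ⟪g, h⟫_ℝ)
    (hUm : ∀ c d g, U (c * d) g = U c (U d g))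
    (D E F : ℕ → G) (f o : H) (ho : ∀ c, U c o = o) (hn : ‖o‖ = 1) (ε : ℝ) (hε : 0 < ε) :
    ∃ n : ℕ, 1 ≤ n ∧ ∀ M : ℕ, ∃ b : ℕ → ℕ, StrictMono b ∧ (∀ s, M < b s) ∧
      ⟪f, o⟫_ℝ ^ 2 - ε ≤
      ⟪U (∏ s ∈ Finset.range n, D (b s) * E (b s) ^ (n - 1 - s) * F (b s) ^ s) f, f⟫_ℝ := by
  have hG : Good U := ⟨hU, hUm⟩
  have : Fact (Good U) := ⟨hG⟩
  let f' : Pre U := Finsupp.single (1 : G) f
  let o' : Pre U := Finsupp.single (1 : G) o
  have hinner : ∀ x y : H, form U (Finsupp.single (1 : G) x) (Finsupp.single (1 : G) y) =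
      ⟪x, y⟫_ℝ := by
    intro x y
    rw [form_single, hU]
  have ho' : ∀ c : G × G, VV U c (o' : UniformSpace.Completion (Pre U)) =
      (o' : UniformSpace.Completion (Pre U)) := by
    intro c
    rw [VV_coe]
    refine UniformSpace.Completion.denseRange_coe.eq_of_inner_left ℝ fun y => ?_
    rw [UniformSpace.Completion.inner_coe, UniformSpace.Completion.inner_coe]
    show form U (Lab U c.1 c.2 (Finsupp.single (1 : G) o)) y =
      form U (Finsupp.single (1 : G) o) y
    rw [Lab_single, ho, mul_one]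
    induction y using Finsupp.induction_linear with
    | zero => rw [form_zero_right, form_zero_right]
    | add x x' hx hx' => rw [form_add_right, form_add_right, hx, hx']
    | single g h =>
      rw [form_single, form_single, ho, hG.one]
      have h1 := hU c.2 o h
      rw [ho] at h1
      exact h1
  have hn' : ‖(o' : UniformSpace.Completion (Pre U))‖ = 1 := by
    rw [UniformSpace.Completion.norm_coe, norm_eq_sqrt_real_inner]
    show Real.sqrt (form U (Finsupp.single (1 : G) o) (Finsupp.single (1 : G) o)) = 1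
    rw [hinner, real_inner_self_eq_norm_sq, hn, one_pow, Real.sqrt_one]
  have hs' : ∀ (c : G × G) (g : UniformSpace.Completion (Pre U)), ∃ g', VV U c g' = g := by
    intro c g
    refine ⟨VV U (c.2, c.1) g, ?_⟩
    rw [← VV_mul]
    have e : c * (c.2, c.1) = (c.1 * c.2, c.1 * c.2) := by
      refine Prod.ext rfl ?_
      show c.2 * c.1 = c.1 * c.2
      exact mul_comm _ _
    rw [e, VV_diag]
  obtain ⟨n, hn1, hM⟩ := hilb2M (VV U) (VV_inner U) (VV_one U) (VV_mul U) hs'
    (fun i => ((D i, 1) : G × G)) (fun i => ((E i, 1) : G × G)) (fun i => ((F i, 1) : G × G))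
    (f' : UniformSpace.Completion (Pre U)) (o' : UniformSpace.Completion (Pre U)) ho' hn' ε hε
  refine ⟨n, hn1, fun M => ?_⟩
  obtain ⟨b, hb, hbM, h⟩ := hM M
  refine ⟨b, hb, hbM, ?_⟩
  have e1 : ∏ s ∈ Finset.range n, ((D (b s), 1) : G × G) * ((E (b s), 1) : G × G) ^ (n - 1 - s) *
      ((F (b s), 1) : G × G) ^ s =
      ((∏ s ∈ Finset.range n, D (b s) * E (b s) ^ (n - 1 - s) * F (b s) ^ s, 1) : G × G) := by
    refine Prod.ext ?_ ?_
    · rw [Prod.fst_prod]
      rfl
    · rw [Prod.snd_prod]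
      refine Finset.prod_eq_one fun s _ => ?_
      show (1 : G) * 1 ^ (n - 1 - s) * 1 ^ s = 1
      rw [one_pow, one_pow, mul_one, mul_one]
  rw [e1, VV_coe, UniformSpace.Completion.inner_coe, UniformSpace.Completion.inner_coe] at h
  have e2 : ⟪f', o'⟫_ℝ = ⟪f, o⟫_ℝ := hinner f o
  rw [e2] at h
  refine h.trans_eq ?_
  show form U (Lab U _ 1 (Finsupp.single (1 : G) f)) (Finsupp.single (1 : G) f) = _
  rw [Lab_single, mul_one, hinner]

end Pool.Agent.Lib.MP_018e2a_an.SPL.Dil
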