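import Mathlib

/-!
# A diagonal form of Ramsey's theorem for pairs
-/

set_option autoImplicit false

namespace Pool.Agent.Lib.MP_018e2a_an.SPL

open Filter

lemma ramsey_diag {r : ℕ} (κ : ℕ → ℕ → Fin r) (R : ℕ → ℕ → Prop)
    (hR : ∀ i, ∀ᶠ j in (hyperfilter ℕ : Filter ℕ), R i j) :
    ∃ e : ℕ → ℕ, StrictMono e ∧ ∃ k, ∀ i j, i < j → κ (e i) (e j) = k ∧ R (e i) (e j) := by
  set p : Ultrafilter ℕ := hyperfilter ℕ
  have hp : ∀ K : ℕ, ∀ᶠ i in (p : Filter ℕ), K < i := by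
    intro K
    have h1 : (p : Filter ℕ) ≤ atTop := by
      rw [← Nat.cofinite_eq_atTop]
      exact hyperfilter_le_cofinite
    exact h1 (eventually_gt_atTop K)
  have hfin : ∀ f : ℕ → Fin r, ∃ k, ∀ᶠ i in (p : Filter ℕ), f i = k := by
    intro f
    have h1 : ∃ k ∈ (Set.univ : Set (Fin r)), ∀ᶠ i in (p : Filter ℕ), f i = k := by
      rw [← Ultrafilter.eventually_exists_mem_iff Set.finite_univ]
      exact Filter.univ_mem' fun i => ⟨f i, Set.mem_univ _, rfl⟩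
    obtain ⟨k, -, hk⟩ := h1
    exact ⟨k, hk⟩
  choose c hc using fun i => hfin (κ i)
  obtain ⟨k, hk⟩ := hfin c
  obtain ⟨e, he1, he2⟩ := exists_seq_of_forall_finset_exists
    (fun i => ∀ᶠ j in (p : Filter ℕ), κ i j = k) (fun i j => i < j ∧ κ i j = k ∧ R i j) (by
      intro s hs
      have h1 : ∀ᶠ j in (p : Filter ℕ), ∀ x ∈ s, x < j ∧ κ x j = k ∧ R x j := by
        rw [Filter.eventually_all_finset]
        intro x hx
        exact (hp x).and ((hs x hx).and (hR x))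
      have h2 : ∀ᶠ i in (p : Filter ℕ), ∀ᶠ j in (p : Filter ℕ), κ i j = k := by
        filter_upwards [hk] with i hi
        rw [← hi]
        exact hc i
      obtain ⟨y, hy1, hy2⟩ := (h2.and h1).exists
      exact ⟨y, hy1, hy2⟩)
  exact ⟨e, fun i j hij => (he2 i j hij).1, k, fun i j hij => (he2 i j hij).2⟩

/-- for functions with totally bounded rows -/
lemma exists_ref {α : Type*} (p : Ultrafilter ℕ) (v : ℕ → α) (d : α → α → ℝ)
    (hsym : ∀ a b, d a b = d b a)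
    (htri : ∀ a b c, d a c ≤ d a b + d b c) (δ : ℝ)
    (h : ∃ B : Finset α, ∀ᶠ j in (p : Filter ℕ), ∃ b ∈ B, d (v j) b ≤ δ / 2) :
    ∃ c : ℕ, ∀ᶠ j in (p : Filter ℕ), d (v j) (v c) ≤ δ := by
  obtain ⟨B, hB⟩ := h
  have h1 : ∃ b ∈ (B : Set α), ∀ᶠ j in (p : Filter ℕ), d (v j) b ≤ δ / 2 := by
    rw [← Ultrafilter.eventually_exists_mem_iff B.finite_toSet]
    exact hB
  obtain ⟨b, -, hb⟩ := h1
  obtain ⟨c, hc⟩ := hb.exists
  refine ⟨c, hb.mono fun j hj => ?_⟩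
  have h2 := htri (v j) b (v c)
  rw [hsym b (v c)] at h2
  linarith

end Pool.Agent.Lib.MP_018e2a_an.SPL
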