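import Mathlib
import Pool.Agent.Lib.MP_018e2a_an.TH.Meas
import Pool.Agent.Lib.MP_018e2a_an.SPL.DilM
import Pool.Agent.Lib.MP_018e2a_an.SPL.AlgThree
import Pool.Agent.Lib.MP_018e2a_an.SPL.RamTwo
import Pool.Agent.Lib.MP_018e2a_an.SPL.Cmp

/-!
# Return times of `T_{γ × γ}` when `T_ij T_ji = E_ij F_{j, κ(i,j)}`, the `E_ij⁻¹ A` totally
bounded for each `i`
-/

set_option autoImplicit false

namespace Pool.Agent.Lib.MP_018e2a_an.SPL

open Filter Topology InnerProductSpace MeasureTheory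
open scoped IsMulCommutative
open Pool.Agent.Lib.MP_018e2a_an.TH (foldr_comp)

section sd

variable {X : Type*} [MeasurableSpace X] (μ : Measure X) [IsProbabilityMeasure μ]

lemma sd_tri (a b c : Set X) :
    μ.real (symmDiff a c) ≤ μ.real (symmDiff a b) + μ.real (symmDiff b c) :=
  (measureReal_mono (symmDiff_triangle a b c)).trans (measureReal_union_le _ _)

lemma sd_norm (a b : Set X) (ha : MeasurableSet a) (hb : MeasurableSet b) :
    ‖indicatorConstLp 2 ha (measure_ne_top μ a) (1 : ℝ) -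
      indicatorConstLp 2 hb (measure_ne_top μ b) (1 : ℝ)‖ ^ 2 = μ.real (symmDiff a b) := by
  rw [norm_sub_sq_real, ← real_inner_self_eq_norm_sq, ← real_inner_self_eq_norm_sq,
    L2.real_inner_indicatorConstLp_one_indicatorConstLp_one,
    L2.real_inner_indicatorConstLp_one_indicatorConstLp_one,
    L2.real_inner_indicatorConstLp_one_indicatorConstLp_one, Set.inter_self, Set.inter_self]
  have h1 : μ.real (symmDiff a b) = μ.real (a \ b) + μ.real (b \ a) := by
    rw [Set.symmDiff_def]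
    exact measureReal_union (disjoint_sdiff_sdiff) (hb.diff ha)
  have h2 := measureReal_inter_add_sdiff (μ := μ) (s := a) hb
  have h3 := measureReal_inter_add_sdiff (μ := μ) (s := b) ha
  rw [Set.inter_comm b a] at h3
  linarith

end sd

theorem ret3 {X : Type*} [MeasurableSpace X] (μ : Measure X) [IsProbabilityMeasure μ]
    (C : Set (X → X)) (hmpC : ∀ f ∈ C, MeasurePreserving f μ μ)
    (hcC : ∀ f ∈ C, ∀ g ∈ C, f ∘ g = g ∘ f)
    (T : ℕ → ℕ → X → X) (hT : ∀ i j, T i j ∈ C)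
    (I : Set ℕ) (hI : I.Infinite) {r : ℕ} (κ : ℕ → ℕ → Fin r) (E : ℕ → ℕ → X → X)
    (F : ℕ → Fin r → X → X) (hE : ∀ i j, E i j ∈ C) (hF : ∀ i k, F i k ∈ C)
    (hTEF : ∀ i ∈ I, ∀ j ∈ I, i < j → T i j ∘ T j i = E i j ∘ F j (κ i j))
    (A : Set X) (hA : MeasurableSet A)
    (htb : ∀ i ∈ I, ∀ δ : ℝ, 0 < δ → ∃ B : Finset (Set X), ∀ j ∈ I, i < j →
      ∃ b ∈ B, μ.real (symmDiff (E i j ⁻¹' A) b) ≤ δ)
    (ε : ℝ) (hε : 0 < ε) :
    ∃ γ : Finset ℕ, γ.Nonempty ∧ ↑γ ⊆ I ∧ μ.real A ^ 2 - ε ≤ μ.real (A ∩ TH.sq T γ ⁻¹' A) := by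
  classical
  have hIinf : Infinite I := hI.to_subtype
  set d0 : ℕ → ℕ := fun i => Nat.orderEmbeddingOfSet I i with hd0
  have hd0m : StrictMono d0 := fun i j hij => (Nat.orderEmbeddingOfSet I).strictMono hij
  have hd0I : ∀ i, d0 i ∈ I := by
    intro i
    have h1 : Nat.orderEmbeddingOfSet I i ∈ Set.range (Nat.orderEmbeddingOfSet I) := ⟨_, rfl⟩
    rwa [Nat.orderEmbeddingOfSet_range] at h1
  -- reference indices
  have hR : ∀ i, ∃ c : ℕ, ∀ᶠ j in (hyperfilter ℕ : Filter ℕ),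
      μ.real (symmDiff (E (d0 i) (d0 j) ⁻¹' A) (E (d0 i) (d0 c) ⁻¹' A)) ≤
        (1 / ((i : ℝ) + 1)) ^ 2 := by
    intro i
    refine exists_ref (hyperfilter ℕ) (fun j => E (d0 i) (d0 j) ⁻¹' A)
      (fun a b => μ.real (symmDiff a b)) (fun a b => by rw [symmDiff_comm]) (sd_tri μ) _ ?_
    obtain ⟨B, hB⟩ := htb (d0 i) (hd0I i) ((1 / ((i : ℝ) + 1)) ^ 2 / 2) (by positivity)
    refine ⟨B, ?_⟩
    have h1 : (hyperfilter ℕ : Filter ℕ) ≤ atTop := by
      rw [← Nat.cofinite_eq_atTop]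
      exact hyperfilter_le_cofinite
    have h2 : ∀ᶠ j in (hyperfilter ℕ : Filter ℕ), i < j := h1 (eventually_gt_atTop i)
    exact h2.mono fun j hj => hB (d0 j) (hd0I j) (hd0m hj)
  choose c hc using hR
  obtain ⟨e, he, k, hk⟩ := ramsey_diag (fun i j => κ (d0 i) (d0 j)) (fun i j =>
    μ.real (symmDiff (E (d0 i) (d0 j) ⁻¹' A) (E (d0 i) (d0 (c i)) ⁻¹' A)) ≤
        (1 / ((i : ℝ) + 1)) ^ 2) hc
  set d : ℕ → ℕ := fun i => d0 (e i) with hd
  have hdm : StrictMono d := hd0m.comp he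
  have hdI : ∀ i, d i ∈ I := fun i => hd0I _
  have hdT : ∀ i j, i < j → T (d i) (d j) ∘ T (d j) (d i) = E (d i) (d j) ∘ F (d j) k := by
    intro i j hij
    rw [hTEF _ (hdI i) _ (hdI j) (hdm hij)]
    have := (hk i j hij).1
    show E (d i) (d j) ∘ F (d j) (κ (d i) (d j)) = _
    rw [show κ (d i) (d j) = k from this]
  let S : Set (Function.End X) := C
  have hS : ∀ a ∈ S, ∀ b ∈ S, a * b = b * a := fun a ha b hb => hcC a ha b hb
  have hcm : IsMulCommutative (Submonoid.closure S) :=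
    Submonoid.isMulCommutative_closure (Function.End X) hS
  have hmp : ∀ c : Submonoid.closure S, MeasurePreserving (c.1 : X → X) μ μ := by
    rintro ⟨c, hc'⟩
    refine Submonoid.closure_induction (motive := fun (c : Function.End X) _ =>
      MeasurePreserving (c : X → X) μ μ) ?_ ?_ ?_ hc'
    · exact fun c hc => hmpC c hc
    · exact MeasurePreserving.id μ
    · intro x y _ _ hx hy
      exact hx.comp hy
  let t : ℕ → ℕ → Submonoid.closure S := fun i j =>
    ⟨(T i j : Function.End X), Submonoid.subset_closure (hT i j)⟩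
  let E2 : ℕ → ℕ → Submonoid.closure S := fun i j =>
    ⟨(E i j : Function.End X), Submonoid.subset_closure (hE i j)⟩
  let F' : ℕ → Submonoid.closure S := fun i =>
    ⟨(F i k : Function.End X), Submonoid.subset_closure (hF i k)⟩
  let E' : ℕ → Submonoid.closure S := fun i => E2 (d i) (d0 (c (e i)))
  let U : Submonoid.closure S → (Lp ℝ 2 μ →L[ℝ] Lp ℝ 2 μ) := fun c =>
    (Lp.compMeasurePreservingₗᵢ ℝ (c.1 : X → X) (hmp c)).toContinuousLinearMap
  have hUapp : ∀ c g, U c g = Lp.compMeasurePreserving (c.1 : X → X) (hmp c) g := fun _ _ => rfl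
  have hU : ∀ c g h, ⟪U c g, U c h⟫_ℝ = ⟪g, h⟫_ℝ := fun c g h =>
    LinearIsometry.inner_map_map (Lp.compMeasurePreservingₗᵢ ℝ (c.1 : X → X) (hmp c)) g h
  have hUm : ∀ c d g, U (c * d) g = U c (U d g) := by
    intro c d g
    rw [mul_comm c d, hUapp, hUapp, hUapp]
    exact Lp.compMeasurePreserving_comp_apply g (hmp d) (hmp c)
  have hUn : ∀ c g, ‖U c g‖ = ‖g‖ := fun c g => norm_eq_of_inner (hU c) g
  have hα : μ A ≠ ⊤ := measure_ne_top μ A
  let f : Lp ℝ 2 μ := indicatorConstLp 2 hA hα (1 : ℝ)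
  let o : Lp ℝ 2 μ := indicatorConstLp 2 MeasurableSet.univ (measure_ne_top μ _) (1 : ℝ)
  set α : ℝ := μ.real A with hαdef
  have hUf : ∀ c, U c f = indicatorConstLp 2 (hA.preimage (hmp c).measurable)
      (measure_ne_top μ _) (1 : ℝ) := fun c => rfl
  have hUo : ∀ c, U c o = o := fun c => rfl
  have e2 : ⟪f, o⟫_ℝ = α := by
    rw [L2.real_inner_indicatorConstLp_one_indicatorConstLp_one, Set.inter_univ]
  have e3 : ⟪o, o⟫_ℝ = 1 := by
    rw [L2.real_inner_indicatorConstLp_one_indicatorConstLp_one, Set.inter_univ]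
    simp
  have e4 : ∀ c, ⟪U c f, f⟫_ℝ = μ.real (A ∩ (c.1 : X → X) ⁻¹' A) := by
    intro c
    rw [hUf, L2.real_inner_indicatorConstLp_one_indicatorConstLp_one, Set.inter_comm]
  have ho1 : ‖o‖ = 1 := by
    have h1 : ‖o‖ ^ 2 = 1 := by rw [← real_inner_self_eq_norm_sq, e3]
    exact (pow_eq_one_iff_of_nonneg (norm_nonneg _) two_ne_zero).mp h1
  have hf1 : ‖f‖ ≤ 1 := by
    have h1 : ‖f‖ ^ 2 = μ.real A := by
      rw [← real_inner_self_eq_norm_sq, L2.real_inner_indicatorConstLp_one_indicatorConstLp_one,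
        Set.inter_self]
    have h2 : μ.real A ≤ 1 := measureReal_le_one
    rw [← h1] at h2
    exact (sq_le_one_iff₀ (norm_nonneg _)).mp h2
  obtain ⟨n, hn, hM⟩ := Dil.hilb3M U hU hUm (fun i => t (d i) (d i)) E' (fun i => F' (d i)) f o
    hUo ho1 (ε / 2) (half_pos hε)
  obtain ⟨M, hMn⟩ := exists_nat_gt ((n : ℝ) ^ 2 * (2 / ε))
  obtain ⟨b, hb, hbM, hl3⟩ := hM M
  rw [e2, prod_DEF (fun s => t (d (b s)) (d (b s))) (fun s => E' (b s)) (fun s => F' (d (b s)))]
    at hl3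
  refine ⟨(Finset.range n).image (fun s => d (b s)), ?_, ?_, ?_⟩
  · exact (Finset.nonempty_range_iff.mpr (by omega)).image _
  · intro x hx
    obtain ⟨s, -, rfl⟩ := Finset.mem_image.mp (Finset.mem_coe.mp hx)
    exact hdI _
  set γ : Finset ℕ := (Finset.range n).image (fun s => d (b s)) with hγ
  have hprod := prod_sq_gen t (fun s => d (b s)) (hdm.comp hb) n
  rw [← hγ] at hprod
  have hprod2 : ∏ s ∈ Finset.range n, ∏ u ∈ Finset.range s,
      (t (d (b u)) (d (b s)) * t (d (b s)) (d (b u))) =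
      ∏ s ∈ Finset.range n, ∏ u ∈ Finset.range s, (E2 (d (b u)) (d (b s)) * F' (d (b s))) := by
    refine Finset.prod_congr rfl fun s _ => Finset.prod_congr rfl fun u hu => ?_
    exact Subtype.ext (hdT _ _ (hb (Finset.mem_range.mp hu)))
  have hcmp := cmp U hUn hUm f (fun u s => E2 (d (b u)) (d (b s)) * F' (d (b s)))
    (fun u s => E' (b u) * F' (d (b s))) (∏ s ∈ Finset.range n, t (d (b s)) (d (b s))) n
    (1 / ((M : ℝ) + 1)) (by positivity) (by
      intro s u hs hu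
      show ‖U (E2 (d (b u)) (d (b s)) * F' (d (b s))) f - U (E' (b u) * F' (d (b s))) f‖ ≤ _
      rw [mul_comm (E2 (d (b u)) (d (b s))), mul_comm (E' (b u)), hUm, hUm, ← map_sub, hUn]
      have h1 := (hk (b u) (b s) (hb hu)).2
      have h2 : ‖U (E2 (d (b u)) (d (b s))) f - U (E' (b u)) f‖ ^ 2 ≤
          (1 / (((e (b u) : ℕ) : ℝ) + 1)) ^ 2 := by
        rw [hUf, hUf, sd_norm]
        exact h1
      have h3 : ‖U (E2 (d (b u)) (d (b s))) f - U (E' (b u)) f‖ ≤
          1 / (((e (b u) : ℕ) : ℝ) + 1) :=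
        (pow_le_pow_iff_left₀ (norm_nonneg _) (by positivity) two_ne_zero).mp h2
      refine h3.trans ?_
      refine one_div_le_one_div_of_le (by positivity) ?_
      have h4 : M ≤ e (b u) := (hbM u).le.trans (he.id_le (b u))
      have h5 : (M : ℝ) ≤ ((e (b u) : ℕ) : ℝ) := by exact_mod_cast h4
      linarith)
  rw [← hprod2, ← hprod] at hcmp
  have h2 : (((∏ i ∈ γ, ∏ j ∈ γ, t i j : Submonoid.closure S)).1 : X → X) = TH.sq T γ := by
    have h3 : ∀ (g : ℕ → Submonoid.closure S), ((∏ i ∈ γ, g i : Submonoid.closure S) :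
        Function.End X) = (γ.toList.map fun i => ((g i : Submonoid.closure S) :
          Function.End X)).prod := by
      intro g
      rw [← Finset.prod_map_toList]
      have h6 := map_list_prod (Submonoid.closure S).subtype (γ.toList.map g)
      rw [List.map_map] at h6
      exact h6
    show ((∏ i ∈ γ, ∏ j ∈ γ, t i j : Submonoid.closure S) : Function.End X) = _
    rw [h3]
    unfold TH.sq
    have h4 : ∀ i, List.foldr (fun (j : ℕ) (g : X → X) => T i j ∘ g) (id : X → X) γ.toList =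
        ((∏ j ∈ γ, t i j : Submonoid.closure S) : Function.End X) := by
      intro i
      rw [h3]
      exact foldr_comp (fun j => ((t i j : Submonoid.closure S) : Function.End X)) γ.toList
    simp only [h4]
    exact (foldr_comp (fun i => ((∏ j ∈ γ, t i j : Submonoid.closure S) : Function.End X))
      γ.toList).symm
  rw [← h2, ← e4]
  set c1 : Submonoid.closure S := ∏ i ∈ γ, ∏ j ∈ γ, t i j
  set c2 : Submonoid.closure S := (∏ s ∈ Finset.range n, t (d (b s)) (d (b s))) *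
    ∏ s ∈ Finset.range n, ∏ u ∈ Finset.range s, (E' (b u) * F' (d (b s)))
  have h5 : (n : ℝ) ^ 2 * (1 / ((M : ℝ) + 1)) ≤ ε / 2 := by
    have h6 : (0 : ℝ) < (M : ℝ) + 1 := by positivity
    rw [mul_one_div, div_le_iff₀ h6]
    have h7 : (n : ℝ) ^ 2 * (2 / ε) * (ε / 2) < (M : ℝ) * (ε / 2) :=
      mul_lt_mul_of_pos_right hMn (half_pos hε)
    have h8 : (n : ℝ) ^ 2 * (2 / ε) * (ε / 2) = (n : ℝ) ^ 2 := by
      field_simp
    rw [h8] at h7
    nlinarith [half_pos hε]
  have h6 : |⟪U c1 f - U c2 f, f⟫_ℝ| ≤ ε / 2 := by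
    refine (abs_real_inner_le_norm _ _).trans ?_
    have h7 := hcmp.trans h5
    calc ‖U c1 f - U c2 f‖ * ‖f‖ ≤ (ε / 2) * 1 :=
          mul_le_mul h7 hf1 (norm_nonneg _) (half_pos hε).le
      _ = ε / 2 := mul_one _
  rw [inner_sub_left] at h6
  have h7 := (abs_le.mp h6).1
  have h8 : α ^ 2 - ε / 2 ≤ ⟪U c2 f, f⟫_ℝ := hl3
  linarith

end Pool.Agent.Lib.MP_018e2a_an.SPL
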