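import Mathlib
import Pool.Agent.Lib.MP_018e2a_an.SPL.MeasThree

/-!
# Arbitrary elements of a mixing group
-/

set_option autoImplicit false

namespace Pool.Agent.Lib.MP_018e2a_an.SPL

open Filter Topology InnerProductSpace MeasureTheory
open scoped IsMulCommutative
open Pool.Agent.Lib.MP_018e2a_an.TH (foldr_comp)

/-- one of many nearly orthogonal vectors is nearly orthogonal to a given vector -/
lemma bessel {H : Type*} [NormedAddCommGroup H] [InnerProductSpace ℝ H] (P : Finset ℕ)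
    (w : ℕ → H) (f : H) (hf : ‖f‖ ≤ 1) (hw : ∀ k ∈ P, ‖w k‖ ≤ 1) (δ ε : ℝ) (hδ : 0 ≤ δ)
    (hε : 0 < ε) (hP : P.Nonempty)
    (h : ∀ k ∈ P, ∀ l ∈ P, k ≠ l → |⟪w k, w l⟫_ℝ| ≤ δ)
    (hm : 1 / (P.card : ℝ) + δ < ε ^ 2) : ∃ k ∈ P, -ε ≤ ⟪w k, f⟫_ℝ := by
  by_contra hne
  push Not at hne
  set m : ℝ := (P.card : ℝ) with hmdef
  have hm0 : 0 < m := by
    rw [hmdef]
    exact_mod_cast P.card_pos.mpr hP
  have h1 : ⟪∑ k ∈ P, w k, f⟫_ℝ ≤ -(m * ε) := by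
    rw [sum_inner]
    have h2 : ∑ k ∈ P, ⟪w k, f⟫_ℝ ≤ ∑ k ∈ P, (-ε) := Finset.sum_le_sum fun k hk => (hne k hk).le
    rw [Finset.sum_const, nsmul_eq_mul] at h2
    linarith
  have h2 : ‖∑ k ∈ P, w k‖ ^ 2 ≤ m + m ^ 2 * δ := by
    rw [← real_inner_self_eq_norm_sq, sum_inner]
    have h3 : ∀ k ∈ P, ⟪w k, ∑ l ∈ P, w l⟫_ℝ ≤ 1 + m * δ := by
      intro k hk
      rw [inner_sum]
      have h4 : ∑ l ∈ P, ⟪w k, w l⟫_ℝ ≤ ∑ l ∈ P, ((if k = l then (1 : ℝ) else 0) + δ) := by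
        refine Finset.sum_le_sum fun l hl => ?_
        by_cases hkl : k = l
        · subst hkl
          rw [if_pos rfl, real_inner_self_eq_norm_sq]
          have := pow_le_pow_left₀ (norm_nonneg _) (hw k hk) 2
          rw [one_pow] at this
          linarith
        · rw [if_neg hkl, zero_add]
          exact (le_abs_self _).trans (h k hk l hl hkl)
      rw [Finset.sum_add_distrib, Finset.sum_ite_eq, if_pos hk, Finset.sum_const,
        nsmul_eq_mul] at h4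
      exact h4
    refine (Finset.sum_le_sum h3).trans (le_of_eq ?_)
    rw [Finset.sum_const, nsmul_eq_mul]
    ring
  have h3 : m * ε ≤ ‖∑ k ∈ P, w k‖ := by
    have h4 := abs_real_inner_le_norm (∑ k ∈ P, w k) f
    have h5 := neg_abs_le ⟪∑ k ∈ P, w k, f⟫_ℝ
    have h6 : ‖∑ k ∈ P, w k‖ * ‖f‖ ≤ ‖∑ k ∈ P, w k‖ * 1 :=
      mul_le_mul_of_nonneg_left hf (norm_nonneg _)
    linarith
  have h4 := pow_le_pow_left₀ (by positivity) h3 2
  have h5 : (m * ε) ^ 2 ≤ m + m ^ 2 * δ := h4.trans h2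
  have h6 : m ^ 2 * (1 / m + δ) < m ^ 2 * ε ^ 2 := mul_lt_mul_of_pos_left hm (by positivity)
  have h7 : m ^ 2 * (1 / m + δ) = m + m ^ 2 * δ := by
    field_simp
  rw [h7] at h6
  nlinarith

/-- the outer measure of preimages -/
lemma mp_preimage_le {X : Type*} [MeasurableSpace X] (μ : Measure X) [IsProbabilityMeasure μ]
    (s : X → X) (hs : MeasurePreserving s μ μ) (b : Set X) : μ.real (s ⁻¹' b) ≤ μ.real b := by
  have h1 : μ (s ⁻¹' b) ≤ μ b := by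
    calc μ (s ⁻¹' b) ≤ μ (s ⁻¹' (toMeasurable μ b)) :=
          measure_mono (Set.preimage_mono (subset_toMeasurable μ b))
      _ = μ (toMeasurable μ b) := hs.measure_preimage (measurableSet_toMeasurable μ b).nullMeasurableSet
      _ = μ b := measure_toMeasurable b
  exact ENNReal.toReal_mono (measure_ne_top μ b) h1

section four

variable {X : Type*} [MeasurableSpace X] (μ : Measure X) [IsProbabilityMeasure μ]
  (C : Set (X → X)) (hmpC : ∀ f ∈ C, MeasurePreserving f μ μ)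
  (hcC : ∀ f ∈ C, ∀ g ∈ C, f ∘ g = g ∘ f)
  {Λ : Type*} [CommGroup Λ] (σ : Λ → X → X) (hσC : ∀ g, σ g ∈ C)
  (hσm : ∀ g h, σ (g * h) = σ g ∘ σ h)
  (T : ℕ → ℕ → X → X) (hT : ∀ i j, T i j ∈ C)
  (I : Set ℕ) (hI : I.Infinite) {r : ℕ} (κ : ℕ → ℕ → Fin r) (E : ℕ → ℕ → X → X)
  (F : ℕ → Fin r → X → X) (m : ℕ → ℕ → Λ) (hE : ∀ i j, E i j ∈ C) (hF : ∀ i k, F i k ∈ C)
  (hTEF : ∀ i ∈ I, ∀ j ∈ I, i < j → T i j ∘ T j i = E i j ∘ F j (κ i j) ∘ σ (m i j))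
  (A : Set X) (hA : MeasurableSet A)
  (htb : ∀ i ∈ I, ∀ δ : ℝ, 0 < δ → ∃ B : Finset (Set X), ∀ j ∈ I, i < j →
    ∃ b ∈ B, μ.real (symmDiff (E i j ⁻¹' A) b) ≤ δ)
include hmpC hcC hσC hσm hT hI hE hF hTEF hA htb

/-- the first case: most indices are equivalent -/
lemma case1 (d0 : ℕ → ℕ) (hd0m : StrictMono d0) (hd0I : ∀ i, d0 i ∈ I) (i0 : ℕ)
    (h0 : ∀ᶠ a in (hyperfilter ℕ : Filter ℕ), ∃ g : Λ, ∀ᶠ b in (hyperfilter ℕ : Filter ℕ),
      m (d0 a) (d0 b) = g * m i0 (d0 b)) (ε : ℝ) (hε : 0 < ε) :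
    ∃ γ : Finset ℕ, γ.Nonempty ∧ ↑γ ⊆ I ∧ μ.real A ^ 2 - ε ≤ μ.real (A ∩ TH.sq T γ ⁻¹' A) := by
  classical
  have hG : ∀ i : ℕ, ∃ g : Λ, (∃ g' : Λ, ∀ᶠ b in (hyperfilter ℕ : Filter ℕ),
      m i (d0 b) = g' * m i0 (d0 b)) → ∀ᶠ b in (hyperfilter ℕ : Filter ℕ),
      m i (d0 b) = g * m i0 (d0 b) := by
    intro i
    by_cases h : ∃ g' : Λ, ∀ᶠ b in (hyperfilter ℕ : Filter ℕ), m i (d0 b) = g' * m i0 (d0 b)
    · obtain ⟨g, hg⟩ := h
      exact ⟨g, fun _ => hg⟩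
    · exact ⟨1, fun h' => absurd h' h⟩
  choose G hG using hG
  have hp : ∀ K : ℕ, ∀ᶠ i in (hyperfilter ℕ : Filter ℕ), K < i := by
    intro K
    have h1 : (hyperfilter ℕ : Filter ℕ) ≤ atTop := by
      rw [← Nat.cofinite_eq_atTop]
      exact hyperfilter_le_cofinite
    exact h1 (eventually_gt_atTop K)
  obtain ⟨e, he1, he2⟩ := exists_seq_of_forall_finset_exists
    (fun a => ∃ g : Λ, ∀ᶠ b in (hyperfilter ℕ : Filter ℕ), m (d0 a) (d0 b) = g * m i0 (d0 b))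
    (fun a b => a < b ∧ m (d0 a) (d0 b) = G (d0 a) * m i0 (d0 b)) (by
      intro s hs
      have h1 : ∀ᶠ b in (hyperfilter ℕ : Filter ℕ), ∀ a ∈ s,
          a < b ∧ m (d0 a) (d0 b) = G (d0 a) * m i0 (d0 b) := by
        rw [Filter.eventually_all_finset]
        intro a ha
        exact (hp a).and (hG (d0 a) (hs a ha))
      obtain ⟨y, hy1, hy2⟩ := (h0.and h1).exists
      exact ⟨y, hy1, hy2⟩)
  have hem : StrictMono e := fun i j hij => (he2 i j hij).1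
  have hdm : StrictMono (fun i => d0 (e i)) := hd0m.comp hem
  let S : Set (Function.End X) := C
  have hS : ∀ a ∈ S, ∀ b ∈ S, a * b = b * a := fun a ha b hb => hcC a ha b hb
  have hcm : IsMulCommutative (Submonoid.closure S) :=
    Submonoid.isMulCommutative_closure (Function.End X) hS
  let C' : Set (X → X) := fun f => @Membership.mem (Function.End X) _ _ (Submonoid.closure S) f
  have hsub : ∀ f : Function.End X, f ∈ S → f ∈ Submonoid.closure S :=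
    fun f hf => Submonoid.subset_closure hf
  have hCC' : ∀ f ∈ C, f ∈ C' := fun f hf => hsub f hf
  have hcomp0 : ∀ f g : Function.End X, f ∈ Submonoid.closure S → g ∈ Submonoid.closure S →
      f * g ∈ Submonoid.closure S := fun f g hf hg => mul_mem hf hg
  have hcomp : ∀ f ∈ C', ∀ g ∈ C', f ∘ g ∈ C' := fun f hf g hg => hcomp0 f g hf hg
  have hmp' : ∀ f ∈ C', MeasurePreserving f μ μ := by
    intro c hc'
    have hc2 : @Membership.mem (Function.End X) _ _ (Submonoid.closure S) c := hc'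
    refine Submonoid.closure_induction (motive := fun (c : Function.End X) _ =>
      MeasurePreserving (c : X → X) μ μ) ?_ ?_ ?_ hc2
    · exact fun c hc => hmpC c hc
    · exact MeasurePreserving.id μ
    · intro x y _ _ hx hy
      exact hx.comp hy
  have hc' : ∀ f ∈ C', ∀ g ∈ C', f ∘ g = g ∘ f := by
    intro f hf g hg
    have h1 : (⟨f, hf⟩ : Submonoid.closure S) * ⟨g, hg⟩ = ⟨g, hg⟩ * ⟨f, hf⟩ := mul_comm _ _
    exact congrArg Subtype.val h1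
  obtain ⟨γ, h1, h2, h3⟩ := ret3 μ C' hmp' hc' T (fun i j => hCC' _ (hT i j))
    (Set.range fun i => d0 (e i)) (Set.infinite_range_of_injective hdm.injective) κ
    (fun i j => E i j ∘ σ (G i)) (fun j k => F j k ∘ σ (m i0 j))
    (fun i j => hcomp _ (hCC' _ (hE i j)) _ (hCC' _ (hσC _)))
    (fun j k => hcomp _ (hCC' _ (hF j k)) _ (hCC' _ (hσC _))) (by
      rintro i ⟨x, rfl⟩ j ⟨y, rfl⟩ hij
      have hxy : x < y := hdm.lt_iff_lt.mp hij
      show T (d0 (e x)) (d0 (e y)) ∘ T (d0 (e y)) (d0 (e x)) = _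
      rw [hTEF _ (hd0I _) _ (hd0I _) hij, (he2 x y hxy).2, hσm]
      show E (d0 (e x)) (d0 (e y)) ∘ F (d0 (e y)) (κ (d0 (e x)) (d0 (e y))) ∘
        (σ (G (d0 (e x))) ∘ σ (m i0 (d0 (e y)))) = (E (d0 (e x)) (d0 (e y)) ∘ σ (G (d0 (e x)))) ∘
        (F (d0 (e y)) (κ (d0 (e x)) (d0 (e y))) ∘ σ (m i0 (d0 (e y))))
      have e1 := hcC _ (hF (d0 (e y)) (κ (d0 (e x)) (d0 (e y)))) _ (hσC (G (d0 (e x))))
      calc E (d0 (e x)) (d0 (e y)) ∘ F (d0 (e y)) (κ (d0 (e x)) (d0 (e y))) ∘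
            (σ (G (d0 (e x))) ∘ σ (m i0 (d0 (e y))))
          = E (d0 (e x)) (d0 (e y)) ∘ (F (d0 (e y)) (κ (d0 (e x)) (d0 (e y))) ∘
            σ (G (d0 (e x)))) ∘ σ (m i0 (d0 (e y))) := rfl
        _ = E (d0 (e x)) (d0 (e y)) ∘ (σ (G (d0 (e x))) ∘
            F (d0 (e y)) (κ (d0 (e x)) (d0 (e y)))) ∘ σ (m i0 (d0 (e y))) := by rw [e1]
        _ = _ := rfl) A hA (by
      rintro i ⟨x, rfl⟩ δ hδ
      obtain ⟨B, hB⟩ := htb _ (hd0I (e x)) δ hδ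
      refine ⟨B.image (fun b => σ (G (d0 (e x))) ⁻¹' b), ?_⟩
      rintro j ⟨y, rfl⟩ hij
      obtain ⟨b, hb, hb'⟩ := hB _ (hd0I (e y)) hij
      refine ⟨_, Finset.mem_image_of_mem _ hb, ?_⟩
      refine le_trans ?_ hb'
      have e2 : symmDiff ((E (d0 (e x)) (d0 (e y)) ∘ σ (G (d0 (e x)))) ⁻¹' A)
          (σ (G (d0 (e x))) ⁻¹' b) = σ (G (d0 (e x))) ⁻¹'
            (symmDiff (E (d0 (e x)) (d0 (e y)) ⁻¹' A) b) := rfl
      show μ.real (symmDiff ((E (d0 (e x)) (d0 (e y)) ∘ σ (G (d0 (e x)))) ⁻¹' A)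
          (σ (G (d0 (e x))) ⁻¹' b)) ≤ _
      rw [e2]
      exact mp_preimage_le μ _ (hmpC _ (hσC _)) _) ε hε
  refine ⟨γ, h1, ?_, h3⟩
  intro x hx
  obtain ⟨a, rfl⟩ := h2 hx
  exact hd0I _

end four

end Pool.Agent.Lib.MP_018e2a_an.SPL
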