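import Mathlib
import Pool.Agent.Lib.MP_018e2a_an.SPL.MixFour

/-!
# Arbitrary elements of a mixing group: the second case and the theorem
-/

set_option autoImplicit false

namespace Pool.Agent.Lib.MP_018e2a_an.SPL

open Filter Topology InnerProductSpace MeasureTheory
open scoped IsMulCommutative
open Pool.Agent.Lib.MP_018e2a_an.TH (foldr_comp)

lemma inner_sub_le {H : Type*} [NormedAddCommGroup H] [InnerProductSpace ℝ H] (a b a0 b0 : H)
    (hb : ‖b‖ ≤ 1) (ha : ‖a0‖ ≤ 1) (η : ℝ) (h1 : ‖a - a0‖ ≤ η) (h2 : ‖b - b0‖ ≤ η) :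
    |⟪a, b⟫_ℝ| ≤ |⟪a0, b0⟫_ℝ| + 2 * η := by
  have e1 : ⟪a, b⟫_ℝ = ⟪a - a0, b⟫_ℝ + ⟪a0, b - b0⟫_ℝ + ⟪a0, b0⟫_ℝ := by
    rw [inner_sub_left, inner_sub_right]
    ring
  have h3 := abs_real_inner_le_norm (a - a0) b
  have h4 := abs_real_inner_le_norm a0 (b - b0)
  have h5 : ‖a - a0‖ * ‖b‖ ≤ η * 1 :=
    mul_le_mul h1 hb (norm_nonneg _) ((norm_nonneg _).trans h1)
  have h6 : ‖a0‖ * ‖b - b0‖ ≤ 1 * η := mul_le_mul ha h2 (norm_nonneg _) zero_le_one
  have h7 := abs_add_le (⟪a - a0, b⟫_ℝ + ⟪a0, b - b0⟫_ℝ) ⟪a0, b0⟫_ℝ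
  have h8 := abs_add_le ⟪a - a0, b⟫_ℝ ⟪a0, b - b0⟫_ℝ
  rw [e1]
  linarith

section five

variable {X : Type*} [MeasurableSpace X] (μ : Measure X) [IsProbabilityMeasure μ]
  (C : Set (X → X)) (hmpC : ∀ f ∈ C, MeasurePreserving f μ μ)
  (hcC : ∀ f ∈ C, ∀ g ∈ C, f ∘ g = g ∘ f)
  {Λ : Type*} [CommGroup Λ] (σ : Λ → X → X) (hσC : ∀ g, σ g ∈ C)
  (hσm : ∀ g h, σ (g * h) = σ g ∘ σ h)
  (hmix : ∀ A' B : Set X, MeasurableSet A' → MeasurableSet B → ∀ δ : ℝ, 0 < δ →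
    {g : Λ | δ < |μ.real (A' ∩ σ g ⁻¹' B) - μ.real A' * μ.real B|}.Finite)
  (T : ℕ → ℕ → X → X) (hT : ∀ i j, T i j ∈ C)
  (I : Set ℕ) (hI : I.Infinite) {r : ℕ} (κ : ℕ → ℕ → Fin r) (E : ℕ → ℕ → X → X)
  (F : ℕ → Fin r → X → X) (m : ℕ → ℕ → Λ) (hE : ∀ i j, E i j ∈ C) (hF : ∀ i k, F i k ∈ C)
  (hTEF : ∀ i ∈ I, ∀ j ∈ I, i < j → T i j ∘ T j i = E i j ∘ F j (κ i j) ∘ σ (m i j))
  (A : Set X) (hA : MeasurableSet A)
  (htb : ∀ i ∈ I, ∀ δ : ℝ, 0 < δ → ∃ B : Finset (Set X), ∀ j ∈ I, i < j →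
    ∃ b ∈ B, μ.real (symmDiff (E i j ⁻¹' A) b) ≤ δ)
include hmpC hcC hσC hσm hmix hT hI hE hF hTEF hA htb

/-- the second case: most indices are not equivalent -/
lemma case2 (d0 : ℕ → ℕ) (hd0m : StrictMono d0) (hd0I : ∀ i, d0 i ∈ I)
    (hne : ∀ a0, ∀ᶠ a in (hyperfilter ℕ : Filter ℕ), ¬ ∃ g : Λ,
      ∀ᶠ b in (hyperfilter ℕ : Filter ℕ), m (d0 a) (d0 b) = g * m (d0 a0) (d0 b))
    (ε : ℝ) (hε : 0 < ε) :
    ∃ γ : Finset ℕ, γ.Nonempty ∧ ↑γ ⊆ I ∧ μ.real A ^ 2 - ε ≤ μ.real (A ∩ TH.sq T γ ⁻¹' A) := by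
  classical
  set p : Ultrafilter ℕ := hyperfilter ℕ with hpdef
  have hp : ∀ K : ℕ, ∀ᶠ i in (p : Filter ℕ), K < i := by
    intro K
    have h1 : (p : Filter ℕ) ≤ atTop := by
      rw [← Nat.cofinite_eq_atTop]
      exact hyperfilter_le_cofinite
    exact h1 (eventually_gt_atTop K)
  have hfin : ∀ f : ℕ → Fin r, ∃ k, ∀ᶠ i in (p : Filter ℕ), f i = k := by
    intro f
    have h1 : ∃ k ∈ (Set.univ : Set (Fin r)), ∀ᶠ i in (p : Filter ℕ), f i = k := by
      rw [← Ultrafilter.eventually_exists_mem_iff Set.finite_univ]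
      exact Filter.univ_mem' fun i => ⟨f i, Set.mem_univ _, rfl⟩
    obtain ⟨k, -, hk⟩ := h1
    exact ⟨k, hk⟩
  choose col hcol using fun a => hfin (fun b => κ (d0 a) (d0 b))
  obtain ⟨k, hk⟩ := hfin col
  obtain ⟨e, he1, he2⟩ := exists_seq_of_forall_finset_exists
    (fun a => col a = k) (fun a b => a < b ∧ ¬ ∃ g : Λ,
      ∀ᶠ c in (p : Filter ℕ), m (d0 b) (d0 c) = g * m (d0 a) (d0 c)) (by
      intro s hs
      have h1 : ∀ᶠ b in (p : Filter ℕ), ∀ a ∈ s, a < b ∧ ¬ ∃ g : Λ,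
          ∀ᶠ c in (p : Filter ℕ), m (d0 b) (d0 c) = g * m (d0 a) (d0 c) := by
        rw [Filter.eventually_all_finset]
        intro a _
        exact (hp a).and (hne a)
      obtain ⟨y, hy1, hy2⟩ := (hk.and h1).exists
      exact ⟨y, hy1, hy2⟩)
  have hem : StrictMono e := fun i j hij => (he2 i j hij).1
  let S : Set (Function.End X) := C
  have hS : ∀ a ∈ S, ∀ b ∈ S, a * b = b * a := fun a ha b hb => hcC a ha b hb
  have hcm : IsMulCommutative (Submonoid.closure S) :=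
    Submonoid.isMulCommutative_closure (Function.End X) hS
  have hmp : ∀ c : Submonoid.closure S, MeasurePreserving (c.1 : X → X) μ μ := by
    rintro ⟨c, hc'⟩
    refine Submonoid.closure_induction (motive := fun (c : Function.End X) _ =>
      MeasurePreserving (c : X → X) μ μ) ?_ ?_ ?_ hc'
    · exact fun c hc => hmpC c hc
    · exact MeasurePreserving.id μ
    · intro x y _ _ hx hy
      exact hx.comp hy
  let t : ℕ → ℕ → Submonoid.closure S := fun i j =>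
    ⟨(T i j : Function.End X), Submonoid.subset_closure (hT i j)⟩
  let E2 : ℕ → ℕ → Submonoid.closure S := fun i j =>
    ⟨(E i j : Function.End X), Submonoid.subset_closure (hE i j)⟩
  let F' : ℕ → Submonoid.closure S := fun i =>
    ⟨(F i k : Function.End X), Submonoid.subset_closure (hF i k)⟩
  let s : Λ → Submonoid.closure S := fun g =>
    ⟨(σ g : Function.End X), Submonoid.subset_closure (hσC g)⟩
  have hs : ∀ g h, s (g * h) = s g * s h := fun g h => Subtype.ext (hσm g h)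
  let U : Submonoid.closure S → (Lp ℝ 2 μ →L[ℝ] Lp ℝ 2 μ) := fun c =>
    (Lp.compMeasurePreservingₗᵢ ℝ (c.1 : X → X) (hmp c)).toContinuousLinearMap
  have hUapp : ∀ c g, U c g = Lp.compMeasurePreserving (c.1 : X → X) (hmp c) g := fun _ _ => rfl
  have hU : ∀ c g h, ⟪U c g, U c h⟫_ℝ = ⟪g, h⟫_ℝ := fun c g h =>
    LinearIsometry.inner_map_map (Lp.compMeasurePreservingₗᵢ ℝ (c.1 : X → X) (hmp c)) g h
  have hUm : ∀ c d g, U (c * d) g = U c (U d g) := by
    intro c d g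
    rw [mul_comm c d, hUapp, hUapp, hUapp]
    exact Lp.compMeasurePreserving_comp_apply g (hmp d) (hmp c)
  have hUn : ∀ c g, ‖U c g‖ = ‖g‖ := fun c g => norm_eq_of_inner (hU c) g
  have hα : μ A ≠ ⊤ := measure_ne_top μ A
  let f : Lp ℝ 2 μ := indicatorConstLp 2 hA hα (1 : ℝ)
  let o : Lp ℝ 2 μ := indicatorConstLp 2 MeasurableSet.univ (measure_ne_top μ _) (1 : ℝ)
  set α : ℝ := μ.real A with hαdef
  have hUf : ∀ c, U c f = indicatorConstLp 2 (hA.preimage (hmp c).measurable)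
      (measure_ne_top μ _) (1 : ℝ) := fun c => rfl
  have hUo : ∀ c, U c o = o := fun c => rfl
  have e2 : ⟪f, o⟫_ℝ = α := by
    rw [L2.real_inner_indicatorConstLp_one_indicatorConstLp_one, Set.inter_univ]
  have e2' : ⟪o, f⟫_ℝ = α := by
    rw [real_inner_comm, e2]
  have e3 : ⟪o, o⟫_ℝ = 1 := by
    rw [L2.real_inner_indicatorConstLp_one_indicatorConstLp_one, Set.inter_univ]
    simp
  have e4 : ∀ c, ⟪U c f, f⟫_ℝ = μ.real (A ∩ (c.1 : X → X) ⁻¹' A) := by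
    intro c
    rw [hUf, L2.real_inner_indicatorConstLp_one_indicatorConstLp_one, Set.inter_comm]
  have e5 : ∀ c, ⟪U c f, o⟫_ℝ = α := by
    intro c
    rw [← hUo c, hU, e2]
  have e5' : ∀ c, ⟪o, U c f⟫_ℝ = α := by
    intro c
    rw [real_inner_comm, e5]
  have e6 : ∀ c c', ⟪U c f, U c' f⟫_ℝ = μ.real (((c.1 : X → X) ⁻¹' A) ∩ ((c'.1 : X → X) ⁻¹' A)) := by
    intro c c'
    rw [hUf, hUf, L2.real_inner_indicatorConstLp_one_indicatorConstLp_one]
  have eff : ⟪f, f⟫_ℝ = α := by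
    rw [L2.real_inner_indicatorConstLp_one_indicatorConstLp_one, Set.inter_self]
  let f0 : Lp ℝ 2 μ := f - α • o
  have hα1 : α ≤ 1 := measureReal_le_one
  have hα0 : 0 ≤ α := measureReal_nonneg
  have hf0 : ‖f0‖ ≤ 1 := by
    have h1 : ‖f0‖ ^ 2 = α - α ^ 2 := by
      rw [← real_inner_self_eq_norm_sq]
      show ⟪f - α • o, f - α • o⟫_ℝ = _
      rw [inner_sub_left, inner_sub_right, inner_sub_right, real_inner_smul_left,
        real_inner_smul_right, real_inner_smul_right, real_inner_smul_left, e2, e2', e3, eff]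
      ring
    have h2 : ‖f0‖ ^ 2 ≤ 1 := by
      rw [h1]
      have := sq_nonneg α
      linarith
    exact (sq_le_one_iff₀ (norm_nonneg _)).mp h2
  have hUf0 : ∀ c, U c f0 = U c f - α • o := by
    intro c
    show U c (f - α • o) = _
    rw [map_sub, map_smul, hUo]
  have hU1 : ∀ c, ‖U c f0‖ ≤ 1 := fun c => (hUn c f0).le.trans hf0
  have hin : ∀ c c', ⟪U c f0, U c' f0⟫_ℝ =
      μ.real (((c.1 : X → X) ⁻¹' A) ∩ ((c'.1 : X → X) ⁻¹' A)) - α * α := by
    intro c c'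
    rw [hUf0, hUf0, inner_sub_left, inner_sub_right, inner_sub_right, real_inner_smul_left,
      real_inner_smul_right, real_inner_smul_right, real_inner_smul_left, e5, e5', e3, e6]
    ring
  have hin1 : ∀ c, ⟪U c f0, f0⟫_ℝ = ⟪U c f, f⟫_ℝ - α ^ 2 := by
    intro c
    rw [hUf0]
    show ⟪U c f - α • o, f - α • o⟫_ℝ = _
    rw [inner_sub_left, inner_sub_right, inner_sub_right, real_inner_smul_left,
      real_inner_smul_right, real_inner_smul_right, real_inner_smul_left, e5, e2', e3]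
    ring
  -- references
  set η : ℝ := ε ^ 2 / 8 with hη
  have hη0 : 0 < η := by positivity
  have hR : ∀ a, ∃ c : ℕ, ∀ᶠ b in (p : Filter ℕ),
      ‖U (E2 (d0 a) (d0 b)) f0 - U (E2 (d0 a) (d0 c)) f0‖ ≤ η := by
    intro a
    obtain ⟨c, hc⟩ := exists_ref p (fun j => E (d0 a) (d0 j) ⁻¹' A)
      (fun a b => μ.real (symmDiff a b)) (fun a b => by rw [symmDiff_comm]) (sd_tri μ) (η ^ 2) (by
        obtain ⟨B, hB⟩ := htb (d0 a) (hd0I a) (η ^ 2 / 2) (by positivity)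
        exact ⟨B, (hp a).mono fun j hj => hB (d0 j) (hd0I j) (hd0m hj)⟩)
    refine ⟨c, hc.mono fun b hb => ?_⟩
    have h1 : U (E2 (d0 a) (d0 b)) f0 - U (E2 (d0 a) (d0 c)) f0 =
        U (E2 (d0 a) (d0 b)) f - U (E2 (d0 a) (d0 c)) f := by
      rw [hUf0, hUf0]
      abel
    rw [h1]
    have h2 : ‖U (E2 (d0 a) (d0 b)) f - U (E2 (d0 a) (d0 c)) f‖ ^ 2 ≤ η ^ 2 := by
      rw [hUf, hUf, sd_norm]
      exact hb
    exact (pow_le_pow_iff_left₀ (norm_nonneg _) hη0.le two_ne_zero).mp h2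
  choose ref hRef using hR
  let v : ℕ → ℕ → Submonoid.closure S := fun a b =>
    t (d0 a) (d0 a) * t (d0 b) (d0 b) * (t (d0 a) (d0 b) * t (d0 b) (d0 a))
  have hv : ∀ a b, a < b → κ (d0 a) (d0 b) = k → v a b =
      (t (d0 b) (d0 b) * F' (d0 b)) * s (m (d0 a) (d0 b)) *
        (t (d0 a) (d0 a) * E2 (d0 a) (d0 b)) := by
    intro a b hab hkab
    have h1 : t (d0 a) (d0 b) * t (d0 b) (d0 a) =
        E2 (d0 a) (d0 b) * (F' (d0 b) * s (m (d0 a) (d0 b))) := by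
      refine Subtype.ext ?_
      have h2 := hTEF _ (hd0I a) _ (hd0I b) (hd0m hab)
      rw [hkab] at h2
      exact h2
    show t (d0 a) (d0 a) * t (d0 b) (d0 b) * (t (d0 a) (d0 b) * t (d0 b) (d0 a)) = _
    rw [h1]
    ac_rfl
  have pair : ∀ x y, x < y → ∀ᶠ b in (p : Filter ℕ),
      |⟪U (v (e x) b) f0, U (v (e y) b) f0⟫_ℝ| ≤ 3 * η := by
    intro x y hxy
    set cx : Submonoid.closure S := t (d0 (e x)) (d0 (e x)) * E2 (d0 (e x)) (d0 (ref (e x)))
      with hcx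
    set cy : Submonoid.closure S := t (d0 (e y)) (d0 (e y)) * E2 (d0 (e y)) (d0 (ref (e y)))
      with hcy
    have hBad := hmix ((cx.1 : X → X) ⁻¹' A) ((cy.1 : X → X) ⁻¹' A)
      ((hmp cx).measurable hA) ((hmp cy).measurable hA) η hη0
    have hfar : ∀ᶠ b in (p : Filter ℕ), ∀ g ∈ {g : Λ | η < |μ.real (((cx.1 : X → X) ⁻¹' A) ∩
        σ g ⁻¹' ((cy.1 : X → X) ⁻¹' A)) - μ.real ((cx.1 : X → X) ⁻¹' A) *
        μ.real ((cy.1 : X → X) ⁻¹' A)|}, ¬ m (d0 (e y)) (d0 b) = g * m (d0 (e x)) (d0 b) := by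
      rw [Filter.eventually_all_finite hBad]
      intro g _
      rw [Ultrafilter.eventually_not]
      intro h
      exact (he2 x y hxy).2 ⟨g, h⟩
    have hkx : ∀ᶠ b in (p : Filter ℕ), κ (d0 (e x)) (d0 b) = k := by
      have := hcol (e x)
      rwa [he1 x] at this
    have hky : ∀ᶠ b in (p : Filter ℕ), κ (d0 (e y)) (d0 b) = k := by
      have := hcol (e y)
      rwa [he1 y] at this
    filter_upwards [hfar, hkx, hky, hRef (e x), hRef (e y), hp (e x), hp (e y)]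
      with b h1 h2 h3 h4 h5 h6 h7
    rw [hv _ _ h6 h2, hv _ _ h7 h3]
    set mx := m (d0 (e x)) (d0 b)
    set my := m (d0 (e y)) (d0 b)
    have hmy : my = (my * mx⁻¹) * mx := by group
    have e7 : (t (d0 b) (d0 b) * F' (d0 b)) * s my * (t (d0 (e y)) (d0 (e y)) *
        E2 (d0 (e y)) (d0 b)) = (t (d0 b) (d0 b) * F' (d0 b)) * s mx *
        ((s (my * mx⁻¹) * t (d0 (e y)) (d0 (e y))) * E2 (d0 (e y)) (d0 b)) := by
      rw [hmy, hs, ← hmy]
      ac_rfl
    rw [e7, hUm (t (d0 b) (d0 b) * F' (d0 b) * s mx), hUm (t (d0 b) (d0 b) * F' (d0 b) * s mx),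
      hU, hUm (t (d0 (e x)) (d0 (e x))), hUm (s (my * mx⁻¹) * t (d0 (e y)) (d0 (e y)))]
    refine (inner_sub_le _ _ (U (t (d0 (e x)) (d0 (e x))) (U (E2 (d0 (e x)) (d0 (ref (e x)))) f0))
      (U (s (my * mx⁻¹) * t (d0 (e y)) (d0 (e y))) (U (E2 (d0 (e y)) (d0 (ref (e y)))) f0))
      ?_ ?_ η ?_ ?_).trans ?_
    · rw [hUn]
      exact hU1 _
    · rw [hUn]
      exact hU1 _
    · rw [← map_sub, hUn]
      exact h4
    · rw [← map_sub, hUn]
      exact h5
    · rw [← hUm, ← hUm]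
      have e8 : s (my * mx⁻¹) * t (d0 (e y)) (d0 (e y)) * E2 (d0 (e y)) (d0 (ref (e y))) =
          cy * s (my * mx⁻¹) := by
        rw [hcy]
        ac_rfl
      rw [e8, hin]
      have e9 : ((cy * s (my * mx⁻¹) : Submonoid.closure S).1 : X → X) ⁻¹' A =
          σ (my * mx⁻¹) ⁻¹' ((cy.1 : X → X) ⁻¹' A) := rfl
      rw [e9]
      have h8 : ¬ (η < |μ.real (((cx.1 : X → X) ⁻¹' A) ∩
        σ (my * mx⁻¹) ⁻¹' ((cy.1 : X → X) ⁻¹' A)) - μ.real ((cx.1 : X → X) ⁻¹' A) *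
        μ.real ((cy.1 : X → X) ⁻¹' A)|) := fun h => h1 _ h hmy
      have h9 : μ.real ((cx.1 : X → X) ⁻¹' A) = α := (hmp cx).measureReal_preimage hA.nullMeasurableSet
      have h10 : μ.real ((cy.1 : X → X) ⁻¹' A) = α := (hmp cy).measureReal_preimage hA.nullMeasurableSet
      rw [h9, h10] at h8
      have h11 := not_lt.mp h8
      linarith
  obtain ⟨M, hM⟩ := exists_nat_gt (8 / ε ^ 2)
  have hM0 : (0 : ℝ) < M := lt_of_le_of_lt (by positivity) hM
  have hM1 : 0 < M := by exact_mod_cast hM0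
  have hall : ∀ᶠ b in (p : Filter ℕ), ∀ x ∈ Finset.range M, e x < b ∧
      ∀ y ∈ Finset.range M, x < y → |⟪U (v (e x) b) f0, U (v (e y) b) f0⟫_ℝ| ≤ 3 * η := by
    rw [Filter.eventually_all_finset]
    intro x _
    refine (hp (e x)).and ?_
    rw [Filter.eventually_all_finset]
    intro y _
    by_cases hxy : x < y
    · exact (pair x y hxy).mono fun b hb _ => hb
    · exact Filter.univ_mem' fun b h => absurd h hxy
  obtain ⟨b, hb⟩ := hall.exists
  have hcard : ((Finset.range M).image e).card = M := by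
    rw [Finset.card_image_of_injective _ hem.injective, Finset.card_range]
  obtain ⟨a, haP, ha⟩ := bessel ((Finset.range M).image e) (fun a => U (v a b) f0) f0 hf0
    (fun a _ => hU1 _) (3 * η) ε (by positivity) hε
    ((Finset.nonempty_range_iff.mpr hM1.ne').image _) (by
      intro k hk l hl hkl
      obtain ⟨x, hx, rfl⟩ := Finset.mem_image.mp hk
      obtain ⟨y, hy, rfl⟩ := Finset.mem_image.mp hl
      have hxy : x ≠ y := fun h => hkl (by rw [h])
      rcases lt_or_gt_of_ne hxy with h | h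
      · exact (hb x hx).2 y hy h
      · rw [real_inner_comm]
        exact (hb y hy).2 x hx h) (by
      rw [hcard]
      have h1 : 1 / (M : ℝ) < ε ^ 2 / 8 := by
        rw [div_lt_iff₀ hM0]
        have h2 : 8 / ε ^ 2 * (ε ^ 2 / 8) < M * (ε ^ 2 / 8) :=
          mul_lt_mul_of_pos_right hM (by positivity)
        have h3 : 8 / ε ^ 2 * (ε ^ 2 / 8) = 1 := by
          field_simp
        rw [h3] at h2
        linarith
      rw [hη]
      have : 0 < ε ^ 2 := by positivity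
      linarith)
  obtain ⟨x, hx, rfl⟩ := Finset.mem_image.mp haP
  have hxb : e x < b := (hb x hx).1
  have hnab : d0 (e x) ≠ d0 b := (hd0m hxb).ne
  refine ⟨{d0 (e x), d0 b}, ⟨_, Finset.mem_insert_self _ _⟩, ?_, ?_⟩
  · intro z hz
    rcases Finset.mem_insert.mp (Finset.mem_coe.mp hz) with h | h
    · rw [h]
      exact hd0I _
    · rw [Finset.mem_singleton.mp h]
      exact hd0I _
  set γ : Finset ℕ := {d0 (e x), d0 b} with hγ
  have hprod : ∏ i ∈ γ, ∏ j ∈ γ, t i j = v (e x) b := by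
    rw [hγ]
    simp only [Finset.prod_pair hnab]
    show _ = t (d0 (e x)) (d0 (e x)) * t (d0 b) (d0 b) *
      (t (d0 (e x)) (d0 b) * t (d0 b) (d0 (e x)))
    ac_rfl
  have h2 : (((∏ i ∈ γ, ∏ j ∈ γ, t i j : Submonoid.closure S)).1 : X → X) = TH.sq T γ := by
    have h3 : ∀ (g : ℕ → Submonoid.closure S), ((∏ i ∈ γ, g i : Submonoid.closure S) :
        Function.End X) = (γ.toList.map fun i => ((g i : Submonoid.closure S) :
          Function.End X)).prod := by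
      intro g
      rw [← Finset.prod_map_toList]
      have h6 := map_list_prod (Submonoid.closure S).subtype (γ.toList.map g)
      rw [List.map_map] at h6
      exact h6
    show ((∏ i ∈ γ, ∏ j ∈ γ, t i j : Submonoid.closure S) : Function.End X) = _
    rw [h3]
    unfold TH.sq
    have h4 : ∀ i, List.foldr (fun (j : ℕ) (g : X → X) => T i j ∘ g) (id : X → X) γ.toList =
        ((∏ j ∈ γ, t i j : Submonoid.closure S) : Function.End X) := by
      intro i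
      rw [h3]
      exact foldr_comp (fun j => ((t i j : Submonoid.closure S) : Function.End X)) γ.toList
    simp only [h4]
    exact (foldr_comp (fun i => ((∏ j ∈ γ, t i j : Submonoid.closure S) : Function.End X))
      γ.toList).symm
  rw [← h2, ← e4, hprod]
  have ha' : -ε ≤ ⟪U (v (e x) b) f0, f0⟫_ℝ := ha
  rw [hin1] at ha'
  linarith

/-- the theorem -/
theorem ret5 (ε : ℝ) (hε : 0 < ε) :
    ∃ γ : Finset ℕ, γ.Nonempty ∧ ↑γ ⊆ I ∧ μ.real A ^ 2 - ε ≤ μ.real (A ∩ TH.sq T γ ⁻¹' A) := by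
  classical
  have hIinf : Infinite I := hI.to_subtype
  set d0 : ℕ → ℕ := fun i => Nat.orderEmbeddingOfSet I i with hd0
  have hd0m : StrictMono d0 := fun i j hij => (Nat.orderEmbeddingOfSet I).strictMono hij
  have hd0I : ∀ i, d0 i ∈ I := by
    intro i
    have h1 : Nat.orderEmbeddingOfSet I i ∈ Set.range (Nat.orderEmbeddingOfSet I) := ⟨_, rfl⟩
    rwa [Nat.orderEmbeddingOfSet_range] at h1
  by_cases h : ∃ i0, ∀ᶠ a in (hyperfilter ℕ : Filter ℕ), ∃ g : Λ,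
      ∀ᶠ b in (hyperfilter ℕ : Filter ℕ), m (d0 a) (d0 b) = g * m i0 (d0 b)
  · obtain ⟨i0, h0⟩ := h
    exact case1 μ C hmpC hcC σ hσC hσm T hT I hI κ E F m hE hF hTEF A hA htb d0 hd0m hd0I i0 h0
      ε hε
  · push Not at h
    refine case2 μ C hmpC hcC σ hσC hσm hmix T hT I hI κ E F m hE hF hTEF A hA htb d0 hd0m hd0I
      ?_ ε hε
    intro a0
    refine (h (d0 a0)).mono fun a ha hg => ?_
    obtain ⟨g, hg⟩ := hg
    obtain ⟨b, hb1, hb2⟩ := ((ha g).and hg).exists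
    exact hb1 hb2

end five

end Pool.Agent.Lib.MP_018e2a_an.SPL
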